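import Mathlib

/-!
Sums of seven tetrahedral numbers: definitions and the pairing lemma.
-/

namespace Pool.H94.Pol

/-- `N` is a sum of seven tetrahedral numbers -/
def Rep7 (N : ℕ) : Prop :=
  ∃ f : Fin 7 → ℕ, N = ∑ i, f i * (f i + 1) * (f i + 2) / 6

/-- the tetrahedral number with index `n - 1` -/
def tet (n : ℕ) : ℕ := (n - 1) * (n - 1 + 1) * (n - 1 + 2) / 6

lemma tet_six (n : ℕ) : 6 * (tet n : ℤ) = (n : ℤ) ^ 3 - n := by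
  have h : 6 ∣ (n - 1) * (n - 1 + 1) * (n - 1 + 2) := by
    have := Nat.factorial_dvd_ascFactorial (n - 1) 3
    simpa [Nat.ascFactorial, Nat.factorial, mul_comm, mul_left_comm, mul_assoc] using this
  obtain ⟨k, hk⟩ := h
  rw [tet, hk, Nat.mul_div_cancel_left _ (by norm_num)]
  have h2 : (((n - 1) * (n - 1 + 1) * (n - 1 + 2) : ℕ) : ℤ) = 6 * k := by
    rw [hk]; push_cast; ring
  rw [← h2]
  rcases Nat.eq_zero_or_pos n with h0 | h0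
  · subst h0; norm_num
  · push_cast [Nat.cast_sub h0]
    ring

lemma rep7_of_tet (N a b c d e f g : ℕ)
    (h : N = tet a + tet b + tet c + tet d + tet e + tet f + tet g) : Rep7 N := by
  refine ⟨![a - 1, b - 1, c - 1, d - 1, e - 1, f - 1, g - 1], ?_⟩
  rw [h, Fin.sum_univ_seven]
  rfl

theorem rep7_of_pairs (N : ℕ) (p x u1 u2 u3 : ℕ) (M a1 a2 a3 : ℤ)
    (h1 : |a1| ≤ p * u1) (h2 : |a2| ≤ p * u2) (h3 : |a3| ≤ p * u3)
    (hM : u1 * a1 ^ 2 + u2 * a2 ^ 2 + u3 * a3 ^ 2 = M)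
    (hN : 6 * (N : ℤ) = ((x : ℤ) ^ 3 - x)
      + 2 * (p ^ 3 * (u1 ^ 3 + u2 ^ 3 + u3 ^ 3) - p * (u1 + u2 + u3)) + 6 * p * M) :
    Rep7 N := by
  rw [abs_le] at h1 h2 h3
  obtain ⟨s1, hs1⟩ : ∃ s : ℕ, (s : ℤ) = p * u1 + a1 := ⟨(p * u1 + a1).toNat, Int.toNat_of_nonneg (by linarith [h1.1])⟩
  obtain ⟨t1, ht1⟩ : ∃ s : ℕ, (s : ℤ) = p * u1 - a1 := ⟨(p * u1 - a1).toNat, Int.toNat_of_nonneg (by linarith [h1.2])⟩
  obtain ⟨s2, hs2⟩ : ∃ s : ℕ, (s : ℤ) = p * u2 + a2 := ⟨(p * u2 + a2).toNat, Int.toNat_of_nonneg (by linarith [h2.1])⟩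
  obtain ⟨t2, ht2⟩ : ∃ s : ℕ, (s : ℤ) = p * u2 - a2 := ⟨(p * u2 - a2).toNat, Int.toNat_of_nonneg (by linarith [h2.2])⟩
  obtain ⟨s3, hs3⟩ : ∃ s : ℕ, (s : ℤ) = p * u3 + a3 := ⟨(p * u3 + a3).toNat, Int.toNat_of_nonneg (by linarith [h3.1])⟩
  obtain ⟨t3, ht3⟩ : ∃ s : ℕ, (s : ℤ) = p * u3 - a3 := ⟨(p * u3 - a3).toNat, Int.toNat_of_nonneg (by linarith [h3.2])⟩
  refine rep7_of_tet N x s1 t1 s2 t2 s3 t3 ?_
  have e0 := tet_six x
  have e1 := tet_six s1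
  have e2 := tet_six t1
  have e3 := tet_six s2
  have e4 := tet_six t2
  have e5 := tet_six s3
  have e6 := tet_six t3
  rw [hs1] at e1
  rw [ht1] at e2
  rw [hs2] at e3
  rw [ht2] at e4
  rw [hs3] at e5
  rw [ht3] at e6
  have key : 6 * (N : ℤ) = 6 * (tet x + tet s1 + tet t1 + tet s2 + tet t2 + tet s3 + tet t3) := by
    rw [hN, ← hM]
    linear_combination (-1 : ℤ) * e0 - e1 - e2 - e3 - e4 - e5 - e6
  have : (N : ℤ) = (tet x + tet s1 + tet t1 + tet s2 + tet t2 + tet s3 + tet t3 : ℕ) := by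
    push_cast
    linarith
  exact_mod_cast this

end Pool.H94.Pol
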