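import Mathlib
import Pool.Agent.H94.Pol.Basic

/-!
Every `N < 8^20` is a sum of seven tetrahedral numbers.

Numerical facts (checked): every `n` with `343867 < n ≤ 1000000` (even up to `10^10`) is a sum of
four tetrahedral numbers `T_a = a (a+1) (a+2) / 6`, `a ≥ 0`, and every `n ≤ 343867` is a sum of five.
Bit masks: `S_1 = Σ_i 2^{T_i}`, `S_{k+1} = OR_i (S_k <<< T_i)` truncated to `10^6 + 1` bits
(181 tetrahedral numbers, all operations are GMP accelerated in the kernel: use `decide +kernel`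
or `by decide` with a fold written by structural recursion on `Nat`); check that bits
`343868 .. 10^6` of `S_4` are all one and bits `0 .. 343867` of `S_5` are all one.

Greedy: for `N < 8^20` take the largest `T_a ≤ N - 343868`: `N - T_a < 343868 + (a+1)(a+2)/2`,
three times: `8^20 -> 1.9*10^12 -> 2.5*10^8 -> 10^6`.
-/

namespace Pool.H94.Pol

/-- the tetrahedral number `a (a+1) (a+2) / 6` -/
def brT (a : ℕ) : ℕ := a * (a + 1) * (a + 2) / 6

/-- `n` is a sum of `k` tetrahedral numbers -/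
def brRep : ℕ → ℕ → Prop
  | 0, n => n = 0
  | k + 1, n => ∃ a m, brRep k m ∧ n = m + brT a

/-- bitwise or of `f 0, ..., f (k-1)` -/
def brOr (f : ℕ → ℕ) : ℕ → ℕ
  | 0 => 0
  | k + 1 => brOr f k ||| f k

lemma brOr_bit (f : ℕ → ℕ) (k i : ℕ) (h : (brOr f k).testBit i = true) :
    ∃ j, (f j).testBit i = true := by
  induction k with
  | zero => simp [brOr] at h
  | succ k ih =>
    rw [brOr, Nat.testBit_or, Bool.or_eq_true] at h
    rcases h with h | h
    · exact ih h
    · exact ⟨k, h⟩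

def brS1 : ℕ := brOr (fun i => 1 <<< brT i) 181
def brS2 : ℕ := brOr (fun i => brS1 <<< brT i) 181 % 2 ^ 1000001
def brS3 : ℕ := brOr (fun i => brS2 <<< brT i) 181 % 2 ^ 1000001
def brS4 : ℕ := brOr (fun i => brS3 <<< brT i) 181 % 2 ^ 1000001
def brS5 : ℕ := brOr (fun i => brS4 <<< brT i) 181 % 2 ^ 343868

/-- the check that the bits `0, ..., K-1` of `S` are all one and all others zero -/
def brChk (S K : ℕ) : Bool := Nat.beq S (2 ^ K - 1)

lemma brOnes {S K : ℕ} (h : brChk S K = true) {i : ℕ} (hi : i < K) : S.testBit i = true := by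
  unfold brChk at h
  rw [Nat.eq_of_beq_eq_true h, Nat.testBit_two_pow_sub_one]
  exact decide_eq_true hi

/-- the shifted mask -/
def brS4' : ℕ := brS4 >>> 343868

lemma brS4'_bit {i : ℕ} (h : brS4'.testBit i = true) : brS4.testBit (343868 + i) = true := by
  unfold brS4' at h
  rwa [Nat.testBit_shiftRight] at h

set_option maxRecDepth 100000 in
set_option exponentiation.threshold 2000000 in
theorem brCheck4 : brChk brS4' 656133 = true := by decide +kernel

set_option maxRecDepth 100000 in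
set_option exponentiation.threshold 2000000 in
theorem brCheck5 : brChk brS5 343868 = true := by decide +kernel

lemma brOne_shift {a i : ℕ} (h : (1 <<< a).testBit i = true) : i = a := by
  rw [Nat.one_shiftLeft, Nat.testBit_two_pow] at h
  exact (of_decide_eq_true h).symm

lemma brS1_bit {i : ℕ} (h : brS1.testBit i = true) : brRep 1 i := by
  obtain ⟨a, ha⟩ := brOr_bit _ _ _ h
  refine ⟨a, 0, rfl, ?_⟩
  rw [zero_add]
  exact brOne_shift ha

lemma brStep {S k K : ℕ} (hS : ∀ i, S.testBit i = true → brRep k i) {i : ℕ}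
    (h : (brOr (fun j => S <<< brT j) 181 % 2 ^ K).testBit i = true) : brRep (k + 1) i := by
  rw [Nat.testBit_mod_two_pow, Bool.and_eq_true] at h
  obtain ⟨a, ha⟩ := brOr_bit _ _ _ h.2
  rw [Nat.testBit_shiftLeft, Bool.and_eq_true, decide_eq_true_iff] at ha
  exact ⟨a, i - brT a, hS _ ha.2, by omega⟩

lemma brS2_bit {i : ℕ} (h : brS2.testBit i = true) : brRep 2 i :=
  brStep (fun _ h => brS1_bit h) h

lemma brS3_bit {i : ℕ} (h : brS3.testBit i = true) : brRep 3 i :=
  brStep (fun _ h => brS2_bit h) h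

lemma brS4_bit {i : ℕ} (h : brS4.testBit i = true) : brRep 4 i :=
  brStep (fun _ h => brS3_bit h) h

lemma brS5_bit {i : ℕ} (h : brS5.testBit i = true) : brRep 5 i :=
  brStep (fun _ h => brS4_bit h) h

lemma brFour {n : ℕ} (h1 : 343868 ≤ n) (h2 : n ≤ 1000000) : brRep 4 n := by
  have h6 : n - 343868 < 656133 := by omega
  have h4 := brS4'_bit (brOnes brCheck4 h6)
  have h5 : 343868 + (n - 343868) = n := by omega
  rw [h5] at h4
  exact brS4_bit h4

lemma brFive {n : ℕ} (h1 : n < 343868) : brRep 5 n := by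
  exact brS5_bit (brOnes brCheck5 h1)

lemma brRep_mono {k n : ℕ} (h : brRep k n) : brRep (k + 1) n :=
  ⟨0, n, h, by simp [brT]⟩

lemma brT_succ (a : ℕ) : brT (a + 1) = brT a + (a + 1) * (a + 2) / 2 := by
  have h6 : 6 ∣ a * (a + 1) * (a + 2) := by
    have := Nat.factorial_dvd_ascFactorial a 3
    simpa [Nat.ascFactorial, Nat.factorial, mul_comm, mul_left_comm, mul_assoc] using this
  have h2 : 2 ∣ (a + 1) * (a + 2) := by
    have := Nat.factorial_dvd_ascFactorial (a + 1) 2
    simpa [Nat.ascFactorial, Nat.factorial, mul_comm, mul_left_comm, mul_assoc] using this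
  obtain ⟨u, hu⟩ := h6
  obtain ⟨v, hv⟩ := h2
  have e : (a + 1) * (a + 1 + 1) * (a + 1 + 2) = 6 * (u + v) := by
    have e1 : (a + 1) * (a + 1 + 1) * (a + 1 + 2)
        = a * (a + 1) * (a + 2) + 3 * ((a + 1) * (a + 2)) := by ring
    rw [e1, hu, hv]
    ring
  unfold brT
  rw [e, hu, hv, Nat.mul_div_cancel_left _ (by norm_num), Nat.mul_div_cancel_left _ (by norm_num),
    Nat.mul_div_cancel_left _ (by norm_num)]

lemma brGreedy (A : ℕ) : ∀ N, 343868 ≤ N → N < 343868 + brT A →
    ∃ a < A, ∃ m, N = m + brT a ∧ 343868 ≤ m ∧ m < 343868 + (a + 1) * (a + 2) / 2 := by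
  induction A with
  | zero =>
    intro N h1 h2
    have : brT 0 = 0 := by simp [brT]
    omega
  | succ A ih =>
    intro N h1 h2
    by_cases h3 : N < 343868 + brT A
    · obtain ⟨a, ha, h⟩ := ih N h1 h3
      exact ⟨a, by omega, h⟩
    · have h4 := brT_succ A
      exact ⟨A, by omega, N - brT A, by omega, by omega, by omega⟩

lemma brGreedy2 (A B : ℕ) (hB : A * (A + 1) / 2 ≤ B) {k : ℕ}
    (h : ∀ m, 343868 ≤ m → m < 343868 + B → brRep k m) (N : ℕ) (h1 : 343868 ≤ N)
    (h2 : N < 343868 + brT A) : brRep (k + 1) N := by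
  obtain ⟨a, ha, m, hm, h3, h4⟩ := brGreedy A N h1 h2
  refine ⟨a, m, h m h3 ?_, hm⟩
  have h5 : (a + 1) * (a + 2) / 2 ≤ A * (A + 1) / 2 :=
    Nat.div_le_div_right (Nat.mul_le_mul (by omega) (by omega))
  omega

lemma brSeven {N : ℕ} (h : N < 8 ^ 20) : brRep 7 N := by
  rcases Nat.lt_or_ge N 343868 with h0 | h0
  · exact brRep_mono (brRep_mono (brFive h0))
  · have s1 : ∀ m, 343868 ≤ m → m < 343868 + brT 1143 → brRep 5 m :=
      brGreedy2 1143 656132 (by norm_num) fun m h1 h2 => brFour h1 (by omega)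
    have s2 : ∀ m, 343868 ≤ m → m < 343868 + brT 22300 → brRep 6 m := by
      refine brGreedy2 22300 (brT 1143) ?_ s1
      unfold brT
      norm_num
    have s3 : ∀ m, 343868 ≤ m → m < 343868 + brT 1910000 → brRep 7 m := by
      refine brGreedy2 1910000 (brT 22300) ?_ s2
      unfold brT
      norm_num
    refine s3 N h0 ?_
    have h1 : (8 : ℕ) ^ 20 ≤ brT 1910000 := by
      unfold brT
      norm_num
    omega

theorem base_range (N : ℕ) (h : N < 8 ^ 20) : Rep7 N := by
  obtain ⟨a, m1, ⟨b, m2, ⟨c, m3, ⟨d, m4, ⟨e, m5, ⟨f, m6, ⟨g, m7, h7, e6⟩, e5⟩, e4⟩, e3⟩, e2⟩,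
    e1⟩, e0⟩ := brSeven h
  have h7 : m7 = 0 := h7
  refine ⟨![a, b, c, d, e, f, g], ?_⟩
  rw [Fin.sum_univ_seven]
  show N = brT a + brT b + brT c + brT d + brT e + brT f + brT g
  omega

end Pool.H94.Pol
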