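import Pool.Agent.H94.Pol.Ker

/-!
Checker for representations by diagonal ternary forms (definitions only).

Base form number `t`: `t = 0`: `x^2 + y^2 + z^2`, `t = 1`: `x^2 + y^2 + y z + z^2`.
A scheme `(t, lam, k)`: for `M` in the class `rM` modulo `mM`, `k^2 ∣ M`, the number
`n = lam M / k^2` is represented by the base form, `n = Q(v)`; a residue tree over `v` finds a map
`v ↦ (k G_i v / d_i)_i` with integral value; every map satisfies
`lam Σ u_i (G_i v / d_i)^2 = Q(v)`, so that `Σ u_i (k G_i v / d_i)^2 = k^2 n / lam = M`.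

Rows are packed into 64 bits: `d` (16 bits) and the three coefficients plus `2^15` (16 bits each);
a map has three rows (192 bits).
-/

namespace Pool.H94.Pol

/-- the base theorem applies to `n = lam M / k^2`, `M ≡ rM (mod mM)` -/
def baseOK (t lam k mM rM i : ℕ) : Bool :=
  (fun k2 => an (an (Nat.beq (Nat.mod mM k2) (nat_lit 0)) (Nat.beq (Nat.mod rM k2) (nat_lit 0)))
    ((fun mu rho =>
      cd (Nat.beq t (nat_lit 0))
        ((fun q => an (an (Nat.beq (Nat.mod mu (Nat.mul q (nat_lit 4))) (nat_lit 0))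
            (Nat.beq (Nat.mod rho q) (nat_lit 0)))
          ((fun s => cd (Nat.beq (Nat.mod s (nat_lit 4)) (nat_lit 1)) true
            (cd (Nat.beq (Nat.mod s (nat_lit 4)) (nat_lit 2)) true
            (an (Nat.beq (Nat.mod mu (Nat.mul q (nat_lit 8))) (nat_lit 0))
              (Nat.beq (Nat.mod s (nat_lit 8)) (nat_lit 3))))) (Nat.div rho q)))
          (Nat.pow (nat_lit 4) i))
        ((fun q => an (an (Nat.beq (Nat.mod mu (Nat.mul q (nat_lit 3))) (nat_lit 0))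
            (Nat.beq (Nat.mod rho q) (nat_lit 0)))
          ((fun s => cd (Nat.beq (Nat.mod s (nat_lit 3)) (nat_lit 0))
            (an (Nat.beq (Nat.mod mu (Nat.mul q (nat_lit 9))) (nat_lit 0))
              (Nat.beq (Nat.mod s (nat_lit 9)) (nat_lit 3))) true) (Nat.div rho q)))
          (Nat.pow (nat_lit 9) i)))
      (Nat.mul lam (Nat.div mM k2)) (Nat.mul lam (Nat.div rM k2))))
    (Nat.mul k k)

/-- the row is divisible by `d` after multiplication by `kk`, on the whole residue class -/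
def rowOK (row kk m1 r1 m2 r2 m3 r3 : ℕ) : Bool :=
  (fun d => (fun o =>
    (fun g1 g2 g3 =>
      an (Nat.beq (Nat.mod (Nat.mul kk (Nat.add (Nat.add (Nat.mul g1 r1) (Nat.mul g2 r2))
        (Nat.mul g3 r3))) d) (nat_lit 0))
      (an (Nat.beq (Nat.mod (Nat.mul kk (Nat.mul g1 m1)) d) (nat_lit 0))
      (an (Nat.beq (Nat.mod (Nat.mul kk (Nat.mul g2 m2)) d) (nat_lit 0))
      (Nat.beq (Nat.mod (Nat.mul kk (Nat.mul g3 m3)) d) (nat_lit 0)))))
    (Nat.add (bits row (nat_lit 16) (nat_lit 65535)) o)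
    (Nat.add (bits row (nat_lit 32) (nat_lit 65535)) o)
    (Nat.add (bits row (nat_lit 48) (nat_lit 65535)) o))
    (Nat.mul (nat_lit 32768) (Nat.pred d)))
    (bits row (nat_lit 0) (nat_lit 65535))

/-- exclusion: `k2 Q(v) = lam M` is impossible on the residue class,
`Q = A1 x^2 + A2 y^2 + A3 z^2 + e y z` -/
def exOK (A1 A2 A3 e k2 lam mM rM m1 r1 m2 r2 m3 r3 : ℕ) : Bool :=
  (fun g => cd (Nat.beq
      (Nat.mod (Nat.mul k2 (Nat.add (Nat.add (Nat.mul A1 (Nat.mul r1 r1)) (Nat.mul A2 (Nat.mul r2 r2)))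
        (Nat.add (Nat.mul A3 (Nat.mul r3 r3)) (Nat.mul e (Nat.mul r2 r3))))) g)
      (Nat.mod (Nat.mul lam rM) g)) false true)
    (Nat.gcd (Nat.mul lam mM) (Nat.mul k2
      (Nat.gcd (Nat.gcd (Nat.mul A1 (Nat.gcd (Nat.mul m1 (Nat.add (Nat.mul (nat_lit 2) r1) m1))
          (Nat.mul (nat_lit 2) (Nat.mul m1 m1))))
        (Nat.mul A2 (Nat.gcd (Nat.mul m2 (Nat.add (Nat.mul (nat_lit 2) r2) m2))
          (Nat.mul (nat_lit 2) (Nat.mul m2 m2)))))
      (Nat.gcd (Nat.mul A3 (Nat.gcd (Nat.mul m3 (Nat.add (Nat.mul (nat_lit 2) r3) m3))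
          (Nat.mul (nat_lit 2) (Nat.mul m3 m3))))
        (Nat.mul e (Nat.gcd (Nat.mul r2 m3) (Nat.gcd (Nat.mul r3 m2) (Nat.mul m2 m3))))))))

/-- option check of a representation tree -/
def klC1 (maps k o m1 r1 m2 r2 m3 r3 : ℕ) : Bool :=
  (fun s => an (rowOK s k m1 r1 m2 r2 m3 r3)
    (an (rowOK (Nat.shiftRight s (nat_lit 64)) k m1 r1 m2 r2 m3 r3)
      (rowOK (Nat.shiftRight s (nat_lit 128)) k m1 r1 m2 r2 m3 r3)))
    (Nat.shiftRight maps (Nat.mul (nat_lit 192) o))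

/-- one coefficient of the identity `Σ w_i (G_i v)^2 = D2 Q(v)`; `a_i, b_i` are coefficients
plus `2^15`, `c = 1` for a square and `c = 2` for a mixed coefficient -/
def coefOK (w1 w2 w3 D2 q c a1 b1 a2 b2 a3 b3 : ℕ) : Bool :=
  Nat.beq
    (Nat.mul c (Nat.add (Nat.add (Nat.mul w1 (Nat.add (Nat.mul a1 b1) (nat_lit 1073741824)))
      (Nat.mul w2 (Nat.add (Nat.mul a2 b2) (nat_lit 1073741824))))
      (Nat.mul w3 (Nat.add (Nat.mul a3 b3) (nat_lit 1073741824)))))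
    (Nat.add (Nat.mul D2 q) (Nat.mul c (Nat.mul (nat_lit 32768)
      (Nat.add (Nat.add (Nat.mul w1 (Nat.add a1 b1)) (Nat.mul w2 (Nat.add a2 b2)))
        (Nat.mul w3 (Nat.add a3 b3))))))

/-- the map in the slot `s` satisfies `lam Σ u_i (G_i v / d_i)^2 = Q_t(v)` -/
def mapOK (t lam u1 u2 u3 s : ℕ) : Bool :=
  (fun d1 d2 d3 => (fun w1 w2 w3 D2 =>
    (fun x1 y1 z1 x2 y2 z2 x3 y3 z3 =>
      an (an (Nat.ble (nat_lit 1) d1) (an (Nat.ble (nat_lit 1) d2) (Nat.ble (nat_lit 1) d3)))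
      (an (coefOK w1 w2 w3 D2 (nat_lit 1) (nat_lit 1) x1 x1 x2 x2 x3 x3)
      (an (coefOK w1 w2 w3 D2 (nat_lit 1) (nat_lit 1) y1 y1 y2 y2 y3 y3)
      (an (coefOK w1 w2 w3 D2 (nat_lit 1) (nat_lit 1) z1 z1 z2 z2 z3 z3)
      (an (coefOK w1 w2 w3 D2 (nat_lit 0) (nat_lit 2) x1 y1 x2 y2 x3 y3)
      (an (coefOK w1 w2 w3 D2 (nat_lit 0) (nat_lit 2) x1 z1 x2 z2 x3 z3)
      (coefOK w1 w2 w3 D2 t (nat_lit 2) y1 z1 y2 z2 y3 z3)))))))
      (bits s (nat_lit 16) (nat_lit 65535)) (bits s (nat_lit 32) (nat_lit 65535))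
      (bits s (nat_lit 48) (nat_lit 65535))
      (bits s (nat_lit 80) (nat_lit 65535)) (bits s (nat_lit 96) (nat_lit 65535))
      (bits s (nat_lit 112) (nat_lit 65535))
      (bits s (nat_lit 144) (nat_lit 65535)) (bits s (nat_lit 160) (nat_lit 65535))
      (bits s (nat_lit 176) (nat_lit 65535)))
    (Nat.mul (Nat.mul lam u1) (Nat.pow (Nat.mul d2 d3) (nat_lit 2)))
    (Nat.mul (Nat.mul lam u2) (Nat.pow (Nat.mul d1 d3) (nat_lit 2)))
    (Nat.mul (Nat.mul lam u3) (Nat.pow (Nat.mul d1 d2) (nat_lit 2)))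
    (Nat.pow (Nat.mul d1 (Nat.mul d2 d3)) (nat_lit 2)))
    (bits s (nat_lit 0) (nat_lit 65535)) (bits s (nat_lit 64) (nat_lit 65535))
    (bits s (nat_lit 128) (nat_lit 65535))

/-- the first `n` maps are correct -/
noncomputable def mapsOK (t lam u1 u2 u3 maps n : ℕ) : Bool :=
  Nat.rec (motive := fun _ => Bool) true
    (fun o ih => an ih (mapOK t lam u1 u2 u3 (Nat.shiftRight maps (Nat.mul (nat_lit 192) o)))) n

/-- the tree of a coset; options are `< n` -/
noncomputable def cosC1 (t lam k maps n mM rM i cert : ℕ) : Bool :=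
  an (baseOK t lam k mM rM i)
    (Nat.beq (rt (fun m1 r1 m2 r2 m3 r3 => exOK (nat_lit 1) (nat_lit 1) (nat_lit 1) t (Nat.mul k k) lam
        mM rM m1 r1 m2 r2 m3 r3)
      (fun o m1 r1 m2 r2 m3 r3 => an (Nat.blt o n) (klC1 maps k o m1 r1 m2 r2 m3 r3))
      (nat_lit 64) (nat_lit 1) (nat_lit 0) (nat_lit 1) (nat_lit 0) (nat_lit 1) (nat_lit 0) cert)
      (nat_lit 1))

/-- a scheme: the maps and a list of cosets `(mM, rM, i, cert)` -/
noncomputable def schC1 (t lam k u1 u2 u3 maps n : ℕ) (L : List (ℕ × ℕ × ℕ × ℕ)) : Bool :=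
  an (an (Nat.ble t (nat_lit 1)) (an (Nat.ble (nat_lit 1) lam) (Nat.ble (nat_lit 1) k)))
  (an (mapsOK t lam u1 u2 u3 maps n)
    (List.rec (motive := fun _ => Bool) true
      (fun c _ ih => an (cosC1 t lam k maps n c.1 c.2.1 c.2.2.1 c.2.2.2) ih) L))

/-- `tbl` (288 bits, index `9 (M % 32) + M % 9`) is covered by the classes `(mM, rM)` -/
noncomputable def covOK (tbl : ℕ) (L : List (ℕ × ℕ)) : Bool :=
  Nat.rec (motive := fun _ => Bool) true
    (fun x ih => an ih (Nat.rec (motive := fun _ => Bool) true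
      (fun y ih2 => an ih2
        (cd (Nat.beq (bits tbl (Nat.add (Nat.mul (nat_lit 9) x) y) (nat_lit 1)) (nat_lit 0)) true
          ((fun M => List.rec (motive := fun _ => Bool) false
            (fun c _ ih3 => cd (Nat.beq (Nat.mod (nat_lit 288) c.1) (nat_lit 0))
              (cd (Nat.beq (Nat.mod M c.1) c.2) true ih3) ih3) L)
            (Nat.mod (Nat.add (Nat.mul (nat_lit 225) x) (Nat.mul (nat_lit 64) y)) (nat_lit 288)))))
      (nat_lit 9)))
    (nat_lit 32)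

end Pool.H94.Pol
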