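import Pool.Agent.H94.Pol.Sem

/-!
Soundness of the elementary tests: rows, exclusion, maps.
Remarks: `bits x off mask = (x / 2 ^ off) % (mask + 1)` for `mask + 1` a power of two, hence is at
most `mask`; `Nat.mul (nat_lit 32768) (Nat.pred d)` is `≡ -32768 (mod d)`.
In `exOK` the modulus `g` divides the difference of `k2 Q(v) - lam M` and its value at the residues:
`x = r + m s`, `x^2 - r^2 = m (2 r + m) s + 2 m^2 (s (s - 1) / 2)`.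
-/

namespace Pool.H94.Pol

theorem c1_beq {a b : ℕ} (h : Nat.beq a b = true) : a = b := Nat.eq_of_beq_eq_true h

theorem c1_dvd {a d : ℕ} (h : Nat.beq (Nat.mod a d) (nat_lit 0) = true) : (d : ℤ) ∣ (a : ℤ) := by
  have h1 : a % d = 0 := c1_beq h
  exact Int.natCast_dvd_natCast.2 (Nat.dvd_of_mod_eq_zero h1)

theorem row_aux (d k m1 r1 m2 r2 m3 r3 b1 b2 b3 : ℕ) (hd : 0 < d)
    (h0 : Nat.beq (Nat.mod (Nat.mul k (Nat.add (Nat.add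
      (Nat.mul (Nat.add b1 (Nat.mul (nat_lit 32768) (Nat.pred d))) r1)
      (Nat.mul (Nat.add b2 (Nat.mul (nat_lit 32768) (Nat.pred d))) r2))
      (Nat.mul (Nat.add b3 (Nat.mul (nat_lit 32768) (Nat.pred d))) r3))) d) (nat_lit 0) = true)
    (h1 : Nat.beq (Nat.mod (Nat.mul k (Nat.mul (Nat.add b1 (Nat.mul (nat_lit 32768)
      (Nat.pred d))) m1)) d) (nat_lit 0) = true)
    (h2 : Nat.beq (Nat.mod (Nat.mul k (Nat.mul (Nat.add b2 (Nat.mul (nat_lit 32768)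
      (Nat.pred d))) m2)) d) (nat_lit 0) = true)
    (h3 : Nat.beq (Nat.mod (Nat.mul k (Nat.mul (Nat.add b3 (Nat.mul (nat_lit 32768)
      (Nat.pred d))) m3)) d) (nat_lit 0) = true)
    (x y z : ℤ) (hx : (m1 : ℤ) ∣ x - r1) (hy : (m2 : ℤ) ∣ y - r2) (hz : (m3 : ℤ) ∣ z - r3) :
    (d : ℤ) ∣ k * (((b1 : ℤ) - 32768) * x + ((b2 : ℤ) - 32768) * y + ((b3 : ℤ) - 32768) * z) := by
  obtain ⟨e, rfl⟩ : ∃ e, d = e + 1 := ⟨d - 1, by omega⟩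
  have g0 := c1_dvd h0
  have g1 := c1_dvd h1
  have g2 := c1_dvd h2
  have g3 := c1_dvd h3
  obtain ⟨s1, hs1⟩ := hx
  obtain ⟨s2, hs2⟩ := hy
  obtain ⟨s3, hs3⟩ := hz
  have e1 : x = r1 + m1 * s1 := by linarith
  have e2 : y = r2 + m2 * s2 := by linarith
  have e3 : z = r3 + m3 * s3 := by linarith
  have c0 : ((Nat.mul k (Nat.add (Nat.add
      (Nat.mul (Nat.add b1 (Nat.mul (nat_lit 32768) (Nat.pred (e + 1)))) r1)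
      (Nat.mul (Nat.add b2 (Nat.mul (nat_lit 32768) (Nat.pred (e + 1)))) r2))
      (Nat.mul (Nat.add b3 (Nat.mul (nat_lit 32768) (Nat.pred (e + 1)))) r3)) : ℕ) : ℤ) =
      k * ((b1 + 32768 * e) * r1 + (b2 + 32768 * e) * r2 + (b3 + 32768 * e) * r3) := by
    show (((k * ((b1 + 32768 * e) * r1 + (b2 + 32768 * e) * r2 + (b3 + 32768 * e) * r3) : ℕ)) : ℤ)
      = _
    push_cast
    ring
  have c1 : ∀ b m : ℕ, ((Nat.mul k (Nat.mul (Nat.add b (Nat.mul (nat_lit 32768)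
      (Nat.pred (e + 1)))) m) : ℕ) : ℤ) = k * ((b + 32768 * e) * m) := by
    intro b m
    show (((k * ((b + 32768 * e) * m) : ℕ)) : ℤ) = _
    push_cast
    ring
  rw [c0] at g0
  rw [c1] at g1 g2 g3
  have key : (k : ℤ) * (((b1 : ℤ) - 32768) * x + ((b2 : ℤ) - 32768) * y + ((b3 : ℤ) - 32768) * z) =
      k * ((b1 + 32768 * e) * r1 + (b2 + 32768 * e) * r2 + (b3 + 32768 * e) * r3) +
      (k * ((b1 + 32768 * e) * m1)) * s1 + (k * ((b2 + 32768 * e) * m2)) * s2 +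
      (k * ((b3 + 32768 * e) * m3)) * s3 - ((e + 1 : ℕ) : ℤ) * (32768 * k * (x + y + z)) := by
    rw [e1, e2, e3]
    push_cast
    ring
  rw [key]
  exact dvd_sub (dvd_add (dvd_add (dvd_add g0 (Dvd.dvd.mul_right g1 s1))
    (Dvd.dvd.mul_right g2 s2)) (Dvd.dvd.mul_right g3 s3)) (dvd_mul_right _ _)

theorem rowOK_sound {row k m1 r1 m2 r2 m3 r3 : ℕ} (hd : 0 < bits row 0 65535)
    (h : rowOK row k m1 r1 m2 r2 m3 r3 = true) (x y z : ℤ)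
    (h1 : (m1 : ℤ) ∣ x - r1) (h2 : (m2 : ℤ) ∣ y - r2) (h3 : (m3 : ℤ) ∣ z - r3) :
    (bits row 0 65535 : ℤ) ∣ k * (((bits row 16 65535 : ℤ) - 32768) * x
      + ((bits row 32 65535 : ℤ) - 32768) * y + ((bits row 48 65535 : ℤ) - 32768) * z) := by
  unfold rowOK at h
  simp only [an_eq_true] at h
  obtain ⟨g0, g1, g2, g3⟩ := h
  exact row_aux (bits row 0 65535) k m1 r1 m2 r2 m3 r3 (bits row 16 65535) (bits row 32 65535)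
    (bits row 48 65535) hd g0 g1 g2 g3 x y z h1 h2 h3

theorem ex_sq (A m r : ℕ) (x : ℤ) (hx : (m : ℤ) ∣ x - r) :
    ((A * Nat.gcd (m * (2 * r + m)) (2 * (m * m)) : ℕ) : ℤ) ∣ A * x ^ 2 - A * (r : ℤ) ^ 2 := by
  obtain ⟨s, hs⟩ := hx
  have e1 : x = r + m * s := by linarith
  have h1 : ((Nat.gcd (m * (2 * r + m)) (2 * (m * m)) : ℕ) : ℤ) ∣ ((m * (2 * r + m) : ℕ) : ℤ) :=
    Int.natCast_dvd_natCast.2 (Nat.gcd_dvd_left _ _)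
  have h2 : ((Nat.gcd (m * (2 * r + m)) (2 * (m * m)) : ℕ) : ℤ) ∣ ((2 * (m * m) : ℕ) : ℤ) :=
    Int.natCast_dvd_natCast.2 (Nat.gcd_dvd_right _ _)
  obtain ⟨w, hw⟩ : ∃ w, s * (s - 1) = 2 * w := by
    rcases Int.even_or_odd s with ⟨w, hw⟩ | ⟨w, hw⟩
    · exact ⟨w * (s - 1), by rw [hw]; ring⟩
    · exact ⟨s * w, by rw [hw]; ring⟩
  have key : (A : ℤ) * x ^ 2 - A * (r : ℤ) ^ 2 =
      A * (((m * (2 * r + m) : ℕ) : ℤ) * s + ((2 * (m * m) : ℕ) : ℤ) * w) := by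
    rw [e1]
    push_cast
    linear_combination (A : ℤ) * m ^ 2 * hw
  rw [key, Nat.cast_mul]
  exact mul_dvd_mul_left _ (dvd_add (Dvd.dvd.mul_right h1 s) (Dvd.dvd.mul_right h2 w))

theorem ex_mix (e m2 r2 m3 r3 : ℕ) (y z : ℤ) (hy : (m2 : ℤ) ∣ y - r2) (hz : (m3 : ℤ) ∣ z - r3) :
    ((e * Nat.gcd (r2 * m3) (Nat.gcd (r3 * m2) (m2 * m3)) : ℕ) : ℤ) ∣
      e * (y * z) - e * ((r2 : ℤ) * r3) := by
  obtain ⟨s2, hs2⟩ := hy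
  obtain ⟨s3, hs3⟩ := hz
  have e2 : y = r2 + m2 * s2 := by linarith
  have e3 : z = r3 + m3 * s3 := by linarith
  have h1 : ((Nat.gcd (r2 * m3) (Nat.gcd (r3 * m2) (m2 * m3)) : ℕ) : ℤ) ∣ ((r2 * m3 : ℕ) : ℤ) :=
    Int.natCast_dvd_natCast.2 (Nat.gcd_dvd_left _ _)
  have h2 : ((Nat.gcd (r2 * m3) (Nat.gcd (r3 * m2) (m2 * m3)) : ℕ) : ℤ) ∣ ((r3 * m2 : ℕ) : ℤ) :=
    Int.natCast_dvd_natCast.2 ((Nat.gcd_dvd_right _ _).trans (Nat.gcd_dvd_left _ _))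
  have h3 : ((Nat.gcd (r2 * m3) (Nat.gcd (r3 * m2) (m2 * m3)) : ℕ) : ℤ) ∣ ((m2 * m3 : ℕ) : ℤ) :=
    Int.natCast_dvd_natCast.2 ((Nat.gcd_dvd_right _ _).trans (Nat.gcd_dvd_right _ _))
  have key : (e : ℤ) * (y * z) - e * ((r2 : ℤ) * r3) =
      e * (((r2 * m3 : ℕ) : ℤ) * s3 + ((r3 * m2 : ℕ) : ℤ) * s2 + ((m2 * m3 : ℕ) : ℤ) * (s2 * s3)) := by
    rw [e2, e3]
    push_cast
    ring
  rw [key, Nat.cast_mul]
  exact mul_dvd_mul_left _ (dvd_add (dvd_add (Dvd.dvd.mul_right h1 _) (Dvd.dvd.mul_right h2 _))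
    (Dvd.dvd.mul_right h3 _))

theorem exOK_sound {A1 A2 A3 e k2 lam mM rM m1 r1 m2 r2 m3 r3 : ℕ}
    (h : exOK A1 A2 A3 e k2 lam mM rM m1 r1 m2 r2 m3 r3 = true) (x y z M : ℤ)
    (h1 : (m1 : ℤ) ∣ x - r1) (h2 : (m2 : ℤ) ∣ y - r2) (h3 : (m3 : ℤ) ∣ z - r3)
    (hM : (mM : ℤ) ∣ M - rM) :
    k2 * (A1 * x ^ 2 + A2 * y ^ 2 + A3 * z ^ 2 + e * (y * z)) ≠ lam * M := by
  intro heq
  have hs1 := ex_sq A1 m1 r1 x h1
  have hs2 := ex_sq A2 m2 r2 y h2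
  have hs3 := ex_sq A3 m3 r3 z h3
  have hs4 := ex_mix e m2 r2 m3 r3 y z h2 h3
  obtain ⟨G, hG⟩ : ∃ G, G = Nat.gcd (Nat.gcd (A1 * Nat.gcd (m1 * (2 * r1 + m1)) (2 * (m1 * m1)))
      (A2 * Nat.gcd (m2 * (2 * r2 + m2)) (2 * (m2 * m2))))
      (Nat.gcd (A3 * Nat.gcd (m3 * (2 * r3 + m3)) (2 * (m3 * m3)))
        (e * Nat.gcd (r2 * m3) (Nat.gcd (r3 * m2) (m2 * m3)))) := ⟨_, rfl⟩
  obtain ⟨g, hg⟩ : ∃ g, g = Nat.gcd (lam * mM) (k2 * G) := ⟨_, rfl⟩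
  have hG1 : (G : ℤ) ∣ A1 * x ^ 2 - A1 * (r1 : ℤ) ^ 2 := by
    refine dvd_trans (Int.natCast_dvd_natCast.2 ?_) hs1
    rw [hG]
    exact (Nat.gcd_dvd_left _ _).trans (Nat.gcd_dvd_left _ _)
  have hG2 : (G : ℤ) ∣ A2 * y ^ 2 - A2 * (r2 : ℤ) ^ 2 := by
    refine dvd_trans (Int.natCast_dvd_natCast.2 ?_) hs2
    rw [hG]
    exact (Nat.gcd_dvd_left _ _).trans (Nat.gcd_dvd_right _ _)
  have hG3 : (G : ℤ) ∣ A3 * z ^ 2 - A3 * (r3 : ℤ) ^ 2 := by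
    refine dvd_trans (Int.natCast_dvd_natCast.2 ?_) hs3
    rw [hG]
    exact (Nat.gcd_dvd_right _ _).trans (Nat.gcd_dvd_left _ _)
  have hG4 : (G : ℤ) ∣ e * (y * z) - e * ((r2 : ℤ) * r3) := by
    refine dvd_trans (Int.natCast_dvd_natCast.2 ?_) hs4
    rw [hG]
    exact (Nat.gcd_dvd_right _ _).trans (Nat.gcd_dvd_right _ _)
  have hg1 : (g : ℤ) ∣ ((lam * mM : ℕ) : ℤ) := Int.natCast_dvd_natCast.2 (by
    rw [hg]; exact Nat.gcd_dvd_left _ _)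
  have hg2 : (g : ℤ) ∣ ((k2 * G : ℕ) : ℤ) := Int.natCast_dvd_natCast.2 (by
    rw [hg]; exact Nat.gcd_dvd_right _ _)
  have hd1 : (g : ℤ) ∣ lam * M - lam * rM := by
    refine dvd_trans hg1 ?_
    rw [Nat.cast_mul, ← mul_sub]
    exact mul_dvd_mul_left _ hM
  have hd2 : (g : ℤ) ∣ k2 * (A1 * x ^ 2 + A2 * y ^ 2 + A3 * z ^ 2 + e * (y * z)) -
      k2 * (A1 * (r1 : ℤ) ^ 2 + A2 * (r2 : ℤ) ^ 2 + A3 * (r3 : ℤ) ^ 2 + e * ((r2 : ℤ) * r3)) := by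
    refine dvd_trans hg2 ?_
    rw [Nat.cast_mul, ← mul_sub]
    refine mul_dvd_mul_left _ ?_
    have : (A1 * x ^ 2 + A2 * y ^ 2 + A3 * z ^ 2 + e * (y * z) -
        (A1 * (r1 : ℤ) ^ 2 + A2 * (r2 : ℤ) ^ 2 + A3 * (r3 : ℤ) ^ 2 + e * ((r2 : ℤ) * r3)) : ℤ) =
        (A1 * x ^ 2 - A1 * (r1 : ℤ) ^ 2) + (A2 * y ^ 2 - A2 * (r2 : ℤ) ^ 2) +
        (A3 * z ^ 2 - A3 * (r3 : ℤ) ^ 2) + (e * (y * z) - e * ((r2 : ℤ) * r3)) := by ring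
    rw [this]
    exact dvd_add (dvd_add (dvd_add hG1 hG2) hG3) hG4
  have hfin : (k2 * ((A1 * (r1 * r1) + A2 * (r2 * r2)) + (A3 * (r3 * r3) + e * (r2 * r3)))) % g =
      (lam * rM) % g := by
    refine (Nat.modEq_iff_dvd.2 ?_ : _ ≡ _ [MOD g])
    have h5 := dvd_sub hd2 hd1
    have h6 : (((lam * rM : ℕ) : ℤ) -
        ((k2 * ((A1 * (r1 * r1) + A2 * (r2 * r2)) + (A3 * (r3 * r3) + e * (r2 * r3))) : ℕ) : ℤ)) =
        (k2 * (A1 * x ^ 2 + A2 * y ^ 2 + A3 * z ^ 2 + e * (y * z)) -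
        k2 * (A1 * (r1 : ℤ) ^ 2 + A2 * (r2 : ℤ) ^ 2 + A3 * (r3 : ℤ) ^ 2 + e * ((r2 : ℤ) * r3))) -
        (lam * M - lam * rM) := by
      rw [heq]
      push_cast
      ring
    rw [h6]
    exact h5
  have hb : Nat.beq ((k2 * ((A1 * (r1 * r1) + A2 * (r2 * r2)) +
      (A3 * (r3 * r3) + e * (r2 * r3)))) % g) ((lam * rM) % g) = true := by
    rw [hfin]
    exact Nat.beq_refl _
  have hcd : cd (Nat.beq ((k2 * ((A1 * (r1 * r1) + A2 * (r2 * r2)) +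
      (A3 * (r3 * r3) + e * (r2 * r3)))) % g) ((lam * rM) % g)) false true = true := by
    rw [hg, hG]
    exact h
  rw [hb] at hcd
  exact Bool.noConfusion hcd

theorem coef_aux {w1 w2 w3 D2 q c a1 b1 a2 b2 a3 b3 : ℕ}
    (h : coefOK w1 w2 w3 D2 q c a1 b1 a2 b2 a3 b3 = true) :
    (c : ℤ) * (w1 * (((a1 : ℤ) - 32768) * ((b1 : ℤ) - 32768)) +
      w2 * (((a2 : ℤ) - 32768) * ((b2 : ℤ) - 32768)) +
      w3 * (((a3 : ℤ) - 32768) * ((b3 : ℤ) - 32768))) = D2 * q := by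
  have h1 : c * ((w1 * (a1 * b1 + 1073741824) + w2 * (a2 * b2 + 1073741824)) +
      w3 * (a3 * b3 + 1073741824)) =
      D2 * q + c * (32768 * ((w1 * (a1 + b1) + w2 * (a2 + b2)) + w3 * (a3 + b3))) :=
    c1_beq h
  have h2 : (((c * ((w1 * (a1 * b1 + 1073741824) + w2 * (a2 * b2 + 1073741824)) +
      w3 * (a3 * b3 + 1073741824))) : ℕ) : ℤ) =
      ((D2 * q + c * (32768 * ((w1 * (a1 + b1) + w2 * (a2 + b2)) + w3 * (a3 + b3))) : ℕ) : ℤ) := by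
    rw [h1]
  push_cast at h2
  linear_combination h2

theorem map_aux (t lam u1 u2 u3 d1 d2 d3 x1 y1 z1 x2 y2 z2 x3 y3 z3 : ℕ)
    (h1 : coefOK (lam * u1 * (d2 * d3) ^ 2) (lam * u2 * (d1 * d3) ^ 2) (lam * u3 * (d1 * d2) ^ 2)
      ((d1 * (d2 * d3)) ^ 2) 1 1 x1 x1 x2 x2 x3 x3 = true)
    (h2 : coefOK (lam * u1 * (d2 * d3) ^ 2) (lam * u2 * (d1 * d3) ^ 2) (lam * u3 * (d1 * d2) ^ 2)
      ((d1 * (d2 * d3)) ^ 2) 1 1 y1 y1 y2 y2 y3 y3 = true)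
    (h3 : coefOK (lam * u1 * (d2 * d3) ^ 2) (lam * u2 * (d1 * d3) ^ 2) (lam * u3 * (d1 * d2) ^ 2)
      ((d1 * (d2 * d3)) ^ 2) 1 1 z1 z1 z2 z2 z3 z3 = true)
    (h4 : coefOK (lam * u1 * (d2 * d3) ^ 2) (lam * u2 * (d1 * d3) ^ 2) (lam * u3 * (d1 * d2) ^ 2)
      ((d1 * (d2 * d3)) ^ 2) 0 2 x1 y1 x2 y2 x3 y3 = true)
    (h5 : coefOK (lam * u1 * (d2 * d3) ^ 2) (lam * u2 * (d1 * d3) ^ 2) (lam * u3 * (d1 * d2) ^ 2)
      ((d1 * (d2 * d3)) ^ 2) 0 2 x1 z1 x2 z2 x3 z3 = true)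
    (h6 : coefOK (lam * u1 * (d2 * d3) ^ 2) (lam * u2 * (d1 * d3) ^ 2) (lam * u3 * (d1 * d2) ^ 2)
      ((d1 * (d2 * d3)) ^ 2) t 2 y1 z1 y2 z2 y3 z3 = true) (x y z : ℤ) :
    (lam : ℤ) * (u1 * ((d2 : ℤ) * d3) ^ 2
        * (((x1 : ℤ) - 32768) * x + ((y1 : ℤ) - 32768) * y + ((z1 : ℤ) - 32768) * z) ^ 2
      + u2 * ((d1 : ℤ) * d3) ^ 2
        * (((x2 : ℤ) - 32768) * x + ((y2 : ℤ) - 32768) * y + ((z2 : ℤ) - 32768) * z) ^ 2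
      + u3 * ((d1 : ℤ) * d2) ^ 2
        * (((x3 : ℤ) - 32768) * x + ((y3 : ℤ) - 32768) * y + ((z3 : ℤ) - 32768) * z) ^ 2)
    = ((d1 : ℤ) * (d2 * d3)) ^ 2 * (x ^ 2 + y ^ 2 + z ^ 2 + t * (y * z)) := by
  have g1 := coef_aux h1
  have g2 := coef_aux h2
  have g3 := coef_aux h3
  have g4 := coef_aux h4
  have g5 := coef_aux h5
  have g6 := coef_aux h6
  push_cast at g1 g2 g3 g4 g5 g6
  linear_combination x ^ 2 * g1 + y ^ 2 * g2 + z ^ 2 * g3 + x * y * g4 + x * z * g5 + y * z * g6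

/-- the three rows of a map, with denominators `d_i` -/
theorem mapOK_sound {t lam u1 u2 u3 s : ℕ} (h : mapOK t lam u1 u2 u3 s = true) (x y z : ℤ) :
    0 < bits s 0 65535 ∧ 0 < bits s 64 65535 ∧ 0 < bits s 128 65535 ∧
    (lam : ℤ) * (u1 * ((bits s 64 65535 : ℤ) * bits s 128 65535) ^ 2
        * (((bits s 16 65535 : ℤ) - 32768) * x + ((bits s 32 65535 : ℤ) - 32768) * y
          + ((bits s 48 65535 : ℤ) - 32768) * z) ^ 2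
      + u2 * ((bits s 0 65535 : ℤ) * bits s 128 65535) ^ 2
        * (((bits s 80 65535 : ℤ) - 32768) * x + ((bits s 96 65535 : ℤ) - 32768) * y
          + ((bits s 112 65535 : ℤ) - 32768) * z) ^ 2
      + u3 * ((bits s 0 65535 : ℤ) * bits s 64 65535) ^ 2
        * (((bits s 144 65535 : ℤ) - 32768) * x + ((bits s 160 65535 : ℤ) - 32768) * y
          + ((bits s 176 65535 : ℤ) - 32768) * z) ^ 2)
    = ((bits s 0 65535 : ℤ) * (bits s 64 65535 * bits s 128 65535)) ^ 2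
      * (x ^ 2 + y ^ 2 + z ^ 2 + t * (y * z)) := by
  unfold mapOK at h
  simp only [an_eq_true] at h
  obtain ⟨⟨a1, a2, a3⟩, h1, h2, h3, h4, h5, h6⟩ := h
  exact ⟨Nat.le_of_ble_eq_true a1, Nat.le_of_ble_eq_true a2, Nat.le_of_ble_eq_true a3,
    map_aux t lam u1 u2 u3 _ _ _ _ _ _ _ _ _ _ _ _ h1 h2 h3 h4 h5 h6 x y z⟩

end Pool.H94.Pol
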