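import Mathlib
import Pool.Agent.H9.Pent.Ternary

/-!
A positive definite integral ternary quadratic form
`a x^2 + b y^2 + c z^2 + d y z + e x z + f x y` (all coefficients integers) with half discriminant
`4 a b c + d e f - a d^2 - b e^2 - c f^2 = 3` only takes values of `u^2 + v^2 + v w + w^2`
(there is one class: `A_1 + A_2`).

Plan (compare `Pool.H9.Pent.tern`, same induction on `a`): the binary form of the adjoint
`(4ab - f^2) , (4ac - e^2)` with middle coefficient `2 (2ad - ef)` has determinant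
`(4ab - f^2)(4ac - e^2) - (2ad - ef)^2 = 4 a * 3`.  `binred` gives a unimodular change of `y, z` after
which `4 a b' - f'^2 = A'` with `3 A'^2 <= 4 * 12 a`, and shifting `y` by a multiple of `x` (i.e.
`f' -> f' + 2 a k`, `|f'| <= a`) gives `b' < a` unless `a = 1`: so we may assume `a = 1` and
`A' <= 4`, `A' = 4 b' - f'^2`, `A' % 4 = 0 or 3`, i.e. `A' = 3` or `A' = 4`.  For `A' = 3` the first two
variables span `A_2` (`x^2 + x y + y^2`), for `A' = 4` they span `x^2 + y^2`.  Complete: `A' = 3`: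
`4 * 3 * form = ...`; the remaining coefficient is then forced by the determinant
(and the change of variables is integral after shifting `z`).
-/

namespace Pool.H94.Pol

lemma tern3_aux (a A : ℤ) (ha : 2 ≤ a) (h9 : (3 * a ^ 2) ^ 2 ≤ A ^ 2)
    (h3 : 3 * A ^ 2 ≤ 4 * (12 * a)) : False := by
  have h10 : 27 * a ^ 4 ≤ 48 * a := by
    have e1 : (3 * a ^ 2) ^ 2 = 9 * a ^ 4 := by ring
    rw [e1] at h9
    linarith
  have h12 : 8 ≤ a ^ 3 := by
    calc (8 : ℤ) = 2 ^ 3 := by norm_num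
      _ ≤ a ^ 3 := pow_le_pow_left₀ (by norm_num) ha 3
  have h13 : 8 * a ≤ a ^ 3 * a := mul_le_mul_of_nonneg_right h12 (by omega)
  have e3 : a ^ 4 = a ^ 3 * a := by ring
  rw [e3] at h10
  linarith

lemma tern3_one (b c d e f : ℤ) (h0 : 0 < 4 * b - f ^ 2) (h4 : 4 * b - f ^ 2 ≤ 4)
    (hdet : 4 * b * c + d * e * f - d ^ 2 - b * e ^ 2 - c * f ^ 2 = 3) (x y z : ℤ) :
    ∃ u v w : ℤ, x ^ 2 + b * y ^ 2 + c * z ^ 2 + d * y * z + e * x * z + f * x * y
      = u ^ 2 + (v ^ 2 + v * w + w ^ 2) := by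
  rcases Int.even_or_odd' f with ⟨g, hg | hg⟩
  · subst hg
    have hb : b = g ^ 2 + 1 := by
      have h1 : 4 * b - (2 * g) ^ 2 = 4 * (b - g ^ 2) := by ring
      rw [h1] at h0 h4
      omega
    subst hb
    have h5 : (4 * c - e ^ 2) - (d - e * g) ^ 2 = 3 := by
      have h6 : 4 * c - e ^ 2 - (d - e * g) ^ 2 =
        4 * (g ^ 2 + 1) * c + d * e * (2 * g) - d ^ 2 - (g ^ 2 + 1) * e ^ 2 - c * (2 * g) ^ 2 := by
        ring
      rw [h6, hdet]
    rcases Int.even_or_odd' e with ⟨m, hm | hm⟩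
    · subst hm
      rcases Int.even_or_odd' (d - 2 * m * g) with ⟨j, hj | hj⟩
      · exfalso
        rw [hj] at h5
        have h7 : 4 * c - (2 * m) ^ 2 - (2 * j) ^ 2 = 4 * (c - m ^ 2 - j ^ 2) := by ring
        rw [h7] at h5
        omega
      · rw [hj] at h5
        have h7 : 4 * c - (2 * m) ^ 2 - (2 * j + 1) ^ 2 = 4 * (c - m ^ 2 - j ^ 2 - j) - 1 := by ring
        rw [h7] at h5
        have hc : c = m ^ 2 + j ^ 2 + j + 1 := by omega
        have hd : d = 2 * m * g + 2 * j + 1 := by linear_combination hj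
        refine ⟨x + g * y + m * z, y + j * z, z, ?_⟩
        rw [hc, hd]
        ring
    · subst hm
      rcases Int.even_or_odd' (d - (2 * m + 1) * g) with ⟨j, hj | hj⟩
      · rw [hj] at h5
        have h7 : 4 * c - (2 * m + 1) ^ 2 - (2 * j) ^ 2 = 4 * (c - m ^ 2 - m - j ^ 2) - 1 := by ring
        rw [h7] at h5
        have hc : c = m ^ 2 + m + 1 + j ^ 2 := by omega
        have hd : d = (2 * m + 1) * g + 2 * j := by linear_combination hj
        refine ⟨y + j * z, x + g * y + m * z, z, ?_⟩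
        rw [hc, hd]
        ring
      · exfalso
        rw [hj] at h5
        have h7 : 4 * c - (2 * m + 1) ^ 2 - (2 * j + 1) ^ 2 =
          4 * (c - m ^ 2 - m - j ^ 2 - j) - 2 := by ring
        rw [h7] at h5
        omega
  · subst hg
    have hb : b = g ^ 2 + g + 1 := by
      have h1 : 4 * b - (2 * g + 1) ^ 2 = 4 * (b - g ^ 2 - g) - 1 := by ring
      rw [h1] at h0 h4
      omega
    subst hb
    have h5 : 3 * (4 * c - e ^ 2) - (2 * d - e * (2 * g + 1)) ^ 2 = 12 := by
      have h6 : 3 * (4 * c - e ^ 2) - (2 * d - e * (2 * g + 1)) ^ 2 =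
        4 * (4 * (g ^ 2 + g + 1) * c + d * e * (2 * g + 1) - d ^ 2 - (g ^ 2 + g + 1) * e ^ 2
          - c * (2 * g + 1) ^ 2) := by
        ring
      rw [h6, hdet]
      norm_num
    have h3 : (3 : ℤ) ∣ (2 * d - e * (2 * g + 1)) ^ 2 :=
      ⟨4 * c - e ^ 2 - 4, by linear_combination -h5⟩
    obtain ⟨j, hj⟩ := Int.prime_three.dvd_of_dvd_pow h3
    rw [hj] at h5
    have h7 : 4 * c - e ^ 2 - 3 * j ^ 2 = 4 := by
      have h8 : 3 * (4 * c - e ^ 2) - (3 * j) ^ 2 = 3 * (4 * c - e ^ 2 - 3 * j ^ 2) := by ring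
      rw [h8] at h5
      omega
    obtain ⟨i, hi⟩ : ∃ i : ℤ, e = j + 2 * i := ⟨d - e * g - 2 * j, by linear_combination -hj⟩
    subst hi
    have hc : c = j ^ 2 + i * j + i ^ 2 + 1 := by
      have h9 : 4 * c - (j + 2 * i) ^ 2 - 3 * j ^ 2 = 4 * (c - j ^ 2 - i * j - i ^ 2) := by ring
      rw [h9] at h7
      omega
    have hd : d = g * j + 2 * j + 2 * (i * g) + i := by
      have h10 : 2 * d = 2 * (g * j + 2 * j + 2 * (i * g) + i) := by linear_combination hj
      omega
    refine ⟨z, x + g * y + i * z, y + j * z, ?_⟩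
    rw [hc, hd]
    ring

lemma tern3_ind : ∀ (n : ℕ) (a b c d e f : ℤ), 0 < a → a ≤ n → 0 < 4 * a * b - f ^ 2 →
    4 * a * b * c + d * e * f - a * d ^ 2 - b * e ^ 2 - c * f ^ 2 = 3 → ∀ x y z : ℤ,
    ∃ u v w : ℤ, a * x ^ 2 + b * y ^ 2 + c * z ^ 2 + d * y * z + e * x * z + f * x * y
      = u ^ 2 + (v ^ 2 + v * w + w ^ 2) := by
  intro n
  induction n with
  | zero => intro a b c d e f h1 h2; norm_num at h2; omega
  | succ n ih =>
    intro a b c d e f ha han hA hdet x y z
    have hD : (4 * a * b - f ^ 2) * (4 * a * c - e ^ 2) - (2 * a * d - e * f) ^ 2 = 12 * a := by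
      linear_combination 4 * a * hdet
    obtain ⟨p, q, r, s, h1, h2, h3⟩ := Pool.H9.Pent.binred (4 * a * b - f ^ 2).toNat
      (4 * a * b - f ^ 2) (2 * a * d - e * f) (4 * a * c - e ^ 2) hA (by omega)
      (by rw [hD]; linarith)
    rw [hD] at h3
    set A' := (4 * a * b - f ^ 2) * p ^ 2 + 2 * (2 * a * d - e * f) * p * r
      + (4 * a * c - e ^ 2) * r ^ 2 with hA'
    set y' := s * y - q * z with hy'
    set z' := -r * y + p * z with hz'
    have hy : y = p * y' + q * z' := by rw [hy', hz']; linear_combination (-y) * h1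
    have hz : z = r * y' + s * z' := by rw [hy', hz']; linear_combination (-z) * h1
    set f1 := f * p + e * r with hf1
    set e1 := f * q + e * s with he1
    set b1 := b * p ^ 2 + d * p * r + c * r ^ 2 with hb1
    set c1 := b * q ^ 2 + d * q * s + c * s ^ 2 with hc1
    set d1 := 2 * b * p * q + d * (p * s + q * r) + 2 * c * r * s with hd1
    have hm1 : 4 * a * b1 - f1 ^ 2 = A' := by
      rw [hb1, hf1, hA']; ring
    have hdet1 : 4 * a * b1 * c1 + d1 * e1 * f1 - a * d1 ^ 2 - b1 * e1 ^ 2 - c1 * f1 ^ 2 = 3 := by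
      have h7 : 4 * a * b1 * c1 + d1 * e1 * f1 - a * d1 ^ 2 - b1 * e1 ^ 2 - c1 * f1 ^ 2
        = (4 * a * b * c + d * e * f - a * d ^ 2 - b * e ^ 2 - c * f ^ 2)
          * (p * s - q * r) ^ 2 := by
        rw [hb1, hf1, hd1, hc1, he1]; ring
      rw [h7, hdet, h1]; norm_num
    have hform : a * x ^ 2 + b * y ^ 2 + c * z ^ 2 + d * y * z + e * x * z + f * x * y =
        a * x ^ 2 + b1 * y' ^ 2 + c1 * z' ^ 2 + d1 * y' * z' + e1 * x * z' + f1 * x * y' := by
      conv_lhs => rw [hy, hz]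
      rw [hb1, hf1, hd1, hc1, he1]
      ring
    rw [hform]
    by_cases ha1 : a = 1
    · subst ha1
      have hA4 : A' ≤ 4 := by nlinarith
      obtain ⟨u, v, w, huvw⟩ := tern3_one b1 c1 d1 e1 f1 (by linarith [hm1, h2])
        (by linarith [hm1]) (by linear_combination hdet1) x y' z'
      refine ⟨u, v, w, ?_⟩
      rw [← huvw]
      ring
    · have ha2 : 2 ≤ a := by omega
      obtain ⟨k, hk⟩ := Pool.H9.Pent.shift (2 * a) f1 (by omega)
      set f2 := f1 + k * (2 * a) with hf2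
      set b2 := b1 + k * f1 + k ^ 2 * a with hb2
      set d2 := d1 + k * e1 with hd2
      have hk' : f2 ^ 2 ≤ a ^ 2 := by
        have h8 : (2 * a) ^ 2 = 4 * a ^ 2 := by ring
        linarith [hk, h8]
      have hm : 4 * a * b2 - f2 ^ 2 = A' := by
        rw [← hm1, hb2, hf2]; ring
      have hdet2 : 4 * a * b2 * c1 + d2 * e1 * f2 - a * d2 ^ 2 - b2 * e1 ^ 2 - c1 * f2 ^ 2 = 3 := by
        have h7 : 4 * a * b2 * c1 + d2 * e1 * f2 - a * d2 ^ 2 - b2 * e1 ^ 2 - c1 * f2 ^ 2
          = 4 * a * b1 * c1 + d1 * e1 * f1 - a * d1 ^ 2 - b1 * e1 ^ 2 - c1 * f1 ^ 2 := by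
          rw [hb2, hf2, hd2]; ring
        rw [h7, hdet1]
      have hlt : b2 < a := by
        by_contra hge
        push Not at hge
        have h8 : 3 * a ^ 2 ≤ A' := by
          have h80 : a * a ≤ a * b2 := mul_le_mul_of_nonneg_left hge ha.le
          have h81 : a * a = a ^ 2 := by ring
          linarith [hm, hk', h80, h81]
        have h9 : (3 * a ^ 2) ^ 2 ≤ A' ^ 2 :=
          pow_le_pow_left₀ (by positivity) h8 2
        exact tern3_aux a A' ha2 h9 h3
      have hb0 : 0 < b2 := by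
        by_contra h
        push Not at h
        have h82 : a * b2 ≤ 0 := mul_nonpos_of_nonneg_of_nonpos ha.le h
        linarith [sq_nonneg f2, hm, h2, h82]
      have hmin : 0 < 4 * b2 * a - f2 ^ 2 := by
        have : 4 * b2 * a = 4 * a * b2 := by ring
        linarith [hm, h2]
      obtain ⟨u, v, w, huvw⟩ := ih b2 a c1 e1 d2 f2 hb0 (by push_cast at han; omega)
        hmin (by linear_combination hdet2) y' (x - k * y') z'
      refine ⟨u, v, w, ?_⟩
      rw [← huvw, hb2, hf2, hd2]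
      ring

theorem tern3 (a b c d e f : ℤ) (ha : 0 < a) (hA : 0 < 4 * a * b - f ^ 2)
    (hdet : 4 * a * b * c + d * e * f - a * d ^ 2 - b * e ^ 2 - c * f ^ 2 = 3) (x y z : ℤ) :
    ∃ u v w : ℤ, a * x ^ 2 + b * y ^ 2 + c * z ^ 2 + d * y * z + e * x * z + f * x * y
      = u ^ 2 + (v ^ 2 + v * w + w ^ 2) :=
  tern3_ind a.toNat a b c d e f ha (by omega) hA hdet x y z

end Pool.H94.Pol
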