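import Mathlib
import Pool.Agent.H94.Pol.Tern3
import Pool.Agent.H9.Pent.ThreeSq

/-!
`u^2 + v^2 + v w + w^2` represents every natural number which is not of the form `9^k (9 l + 6)`.

Case A, `n % 3 ≠ 0`: by Dirichlet there are `δ = 1 + 6 k` and a prime `p = 4 n δ - 3`
(`gcd(24 n, 4 n - 3) = 1`); `p % 4 = 1`, and `(-δ/p) = (δ/p) = (p/δ) = (-3/δ) = (δ/3) = 1`.
Take `s^2 + δ = p a`; the form `a X^2 + p Y^2 + n Z^2 + 2 s X Y + X Z` has half discriminant
`4 n (a p - s^2) - p = 4 n δ - p = 3` and value `n` at `(0, 0, 1)`: use `tern3`.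

Case B, `n = 3 m`, `m % 3 = 1`: `δ = 1 + 6 k` and a prime `p = (4 m δ - 1) / 3`
(`p = (4 m - 1)/3 + 8 m k`, `gcd(8 m, (4 m - 1)/3) = 1`); `p % 4 = 1`,
`(-δ/p) = (δ/p) = (p/δ) = (3/δ)(3p/δ) = (3/δ)(-1/δ) = (δ/3) = 1`.  Take `s^2 + δ = p a`;
the form `a X^2 + p Y^2 + 3 m Z^2 + 2 s X Y + 3 X Z` has half discriminant
`12 m (a p - s^2) - 9 p = 12 m δ - 9 p = 3`.

`Pool.H9.Pent.exists_sq_of_jacobi`, `Pool.H9.Pent.three_sq_one` are the model.

Status: complete (helper26).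
-/

namespace Pool.H94.Pol

open ZMod NumberTheorySymbols in
lemma f3_jac (k : ℕ) : J((-3 : ℤ) | 6 * k + 1) = 1 := by
  have hodd : Odd (6 * k + 1) := Nat.odd_iff.mpr (by omega)
  have h3 : J(((6 * k + 1 : ℕ) : ℤ) | 3) = 1 := by
    have h1 : J(((6 * k + 1 : ℕ) : ℤ) | 3) = J((1 : ℤ) | 3) := by
      apply jacobiSym.mod_left'
      push_cast
      omega
    rw [h1, jacobiSym.one_left]
  have e : (-3 : ℤ) = -((3 : ℕ) : ℤ) := by norm_num
  rw [e]
  rcases (show (6 * k + 1) % 4 = 1 ∨ (6 * k + 1) % 4 = 3 by omega) with h4 | h4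
  · rw [jacobiSym.neg _ hodd, χ₄_nat_one_mod_four h4, one_mul,
      jacobiSym.quadratic_reciprocity_one_mod_four' (by decide) h4, h3]
  · rw [jacobiSym.neg _ hodd, χ₄_nat_three_mod_four h4,
      jacobiSym.quadratic_reciprocity_three_mod_four (by decide) h4, h3]
    norm_num

open ZMod NumberTheorySymbols in
lemma f3_sq (p k : ℕ) (hp : p.Prime) (hp4 : p % 4 = 1)
    (h : J((p : ℤ) | 6 * k + 1) = 1) :
    ∃ s a : ℤ, 0 < a ∧ s ^ 2 + ((6 * k + 1 : ℕ) : ℤ) = p * a := by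
  have hpodd : Odd p := Nat.odd_iff.mpr (by omega)
  have hdodd : Odd (6 * k + 1) := Nat.odd_iff.mpr (by omega)
  have hJ : J(-((6 * k + 1 : ℕ) : ℤ) | p) = 1 := by
    rw [jacobiSym.neg _ hpodd, χ₄_nat_one_mod_four hp4, one_mul,
      jacobiSym.quadratic_reciprocity_one_mod_four' hdodd hp4, h]
  obtain ⟨s, a, ha⟩ := Pool.H9.Pent.exists_sq_of_jacobi p hp (6 * k + 1) hJ
  refine ⟨s, a, ?_, ha⟩
  have h1 : 0 < (p : ℤ) * a := by
    rw [← ha]
    positivity
  exact pos_of_mul_pos_right h1 (by positivity)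

theorem f3_coprime (n : ℕ) (h : n % 3 ≠ 0) :
    ∃ u v w : ℤ, u ^ 2 + (v ^ 2 + v * w + w ^ 2) = n := by
  obtain ⟨q, hq⟩ : ∃ q, 4 * n = q + 3 := ⟨4 * n - 3, by omega⟩
  have hn0 : 0 < n := by omega
  have hcop : Nat.Coprime q (24 * n) := by
    have h2 : Nat.Coprime q 2 := by
      rw [Nat.coprime_two_right]
      exact Nat.odd_iff.mpr (by omega)
    have h3 : Nat.Coprime q 3 := by
      rw [Nat.coprime_comm, Nat.Prime.coprime_iff_not_dvd Nat.prime_three]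
      omega
    have hn3 : Nat.Coprime n 3 := by
      rw [Nat.coprime_comm, Nat.Prime.coprime_iff_not_dvd Nat.prime_three]
      omega
    have h1 : Nat.Coprime q n := by
      rw [Nat.coprime_iff_gcd_eq_one]
      have hd1 : Nat.gcd q n ∣ 3 := by
        have a1 : Nat.gcd q n ∣ q := Nat.gcd_dvd_left _ _
        have a2 : Nat.gcd q n ∣ q + 3 := by
          rw [← hq]
          exact Dvd.dvd.mul_left (Nat.gcd_dvd_right _ _) 4
        exact (Nat.dvd_add_right a1).mp a2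
      have hd2 : Nat.gcd q n ∣ n := Nat.gcd_dvd_right _ _
      have := Nat.dvd_gcd hd2 hd1
      rw [hn3] at this
      exact Nat.dvd_one.mp this
    have h24 : Nat.Coprime q 24 := by
      have e : (24 : ℕ) = 2 ^ 3 * 3 := by norm_num
      rw [e]
      exact (h2.pow_right 3).mul_right h3
    exact h24.mul_right h1
  obtain ⟨p, hpn, hp, hmod⟩ := Nat.forall_exists_prime_gt_and_modEq (24 * n) (q := 24 * n)
    (a := q) (by omega) hcop
  obtain ⟨k, hk⟩ : ∃ k, p = q + 24 * n * k := by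
    have h1 : q % (24 * n) = q := Nat.mod_eq_of_lt (by omega)
    have h2 : p % (24 * n) = q := by rw [hmod, h1]
    refine ⟨p / (24 * n), ?_⟩
    rw [← h2]; exact (Nat.mod_add_div p (24 * n)).symm
  have hpd : (p : ℤ) = 4 * n * ((6 * k + 1 : ℕ) : ℤ) - 3 := by
    have hq' : 4 * (n : ℤ) = q + 3 := by exact_mod_cast hq
    rw [hk]
    push_cast
    linear_combination -hq'
  have hp4 : p % 4 = 1 := by
    have e : 24 * n * k = 4 * (6 * n * k) := by ring
    rw [hk, e]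
    omega
  have hJ : jacobiSym (p : ℤ) (6 * k + 1) = 1 := by
    rw [← f3_jac k]
    apply jacobiSym.mod_left'
    rw [hpd]
    have e : 4 * (n : ℤ) * ((6 * k + 1 : ℕ) : ℤ) - 3 = -3 + ((6 * k + 1 : ℕ) : ℤ) * (4 * n) := by
      ring
    rw [e, Int.add_mul_emod_self_left]
  obtain ⟨s, a, ha0, ha⟩ := f3_sq p k hp hp4 hJ
  obtain ⟨u, v, w, huvw⟩ := tern3 a p n 0 1 (2 * s) ha0
    (by
      have hd : (0 : ℤ) < ((6 * k + 1 : ℕ) : ℤ) := by positivity
      nlinarith)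
    (by linear_combination (-4 * (n : ℤ)) * ha - hpd) 0 0 1
  exact ⟨u, v, w, by linear_combination -huvw⟩

theorem f3_three (n : ℕ) (h : n % 9 = 3) :
    ∃ u v w : ℤ, u ^ 2 + (v ^ 2 + v * w + w ^ 2) = n := by
  obtain ⟨m, hm⟩ : ∃ m, n = 3 * m := ⟨n / 3, by omega⟩
  have hm3 : m % 3 = 1 := by omega
  obtain ⟨q, hq⟩ : ∃ q, 3 * q + 1 = 4 * m := ⟨(4 * m - 1) / 3, by omega⟩
  have hm0 : 0 < m := by omega
  have hcop : Nat.Coprime q (8 * m) := by
    have h2 : Nat.Coprime q 2 := by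
      rw [Nat.coprime_two_right]
      exact Nat.odd_iff.mpr (by omega)
    have h8 : Nat.Coprime q 8 := by
      have e : (8 : ℕ) = 2 ^ 3 := by norm_num
      rw [e]; exact h2.pow_right 3
    have h1 : Nat.Coprime q m := by
      rw [← Nat.isCoprime_iff_coprime]
      refine ⟨-3, 4, ?_⟩
      have : 3 * (q : ℤ) + 1 = 4 * m := by exact_mod_cast hq
      linear_combination -this
    exact h8.mul_right h1
  obtain ⟨p, hpn, hp, hmod⟩ := Nat.forall_exists_prime_gt_and_modEq (8 * m) (q := 8 * m)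
    (a := q) (by omega) hcop
  obtain ⟨k, hk⟩ : ∃ k, p = q + 8 * m * k := by
    have h1 : q % (8 * m) = q := Nat.mod_eq_of_lt (by omega)
    have h2 : p % (8 * m) = q := by rw [hmod, h1]
    refine ⟨p / (8 * m), ?_⟩
    rw [← h2]; exact (Nat.mod_add_div p (8 * m)).symm
  have hpd : 3 * (p : ℤ) = 4 * m * ((6 * k + 1 : ℕ) : ℤ) - 1 := by
    have hq' : 3 * (q : ℤ) + 1 = 4 * m := by exact_mod_cast hq
    rw [hk]
    push_cast
    linear_combination hq'
  have hp4 : p % 4 = 1 := by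
    have e : 8 * m * k = 4 * (2 * m * k) := by ring
    rw [hk, e]
    omega
  have hJ : jacobiSym (p : ℤ) (6 * k + 1) = 1 := by
    have h1 : jacobiSym (3 * (p : ℤ)) (6 * k + 1) = jacobiSym (-1) (6 * k + 1) := by
      apply jacobiSym.mod_left'
      rw [hpd]
      have e : 4 * (m : ℤ) * ((6 * k + 1 : ℕ) : ℤ) - 1 = -1 + ((6 * k + 1 : ℕ) : ℤ) * (4 * m) := by
        ring
      rw [e, Int.add_mul_emod_self_left]
    have h2 := f3_jac k
    have e3 : (-3 : ℤ) = (-1) * 3 := by norm_num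
    rw [e3, jacobiSym.mul_left] at h2
    rw [jacobiSym.mul_left] at h1
    have hodd : Odd (6 * k + 1) := Nat.odd_iff.mpr (by omega)
    have h5 : jacobiSym (-1) (6 * k + 1) * jacobiSym (-1) (6 * k + 1) = 1 := by
      rw [← jacobiSym.mul_left]
      norm_num
    -- h2 : J(-1) * J(3) = 1, h1 : J(3) * J(p) = J(-1)
    calc jacobiSym (p : ℤ) (6 * k + 1)
        = (jacobiSym (-1) (6 * k + 1) * jacobiSym 3 (6 * k + 1)) *
            jacobiSym (p : ℤ) (6 * k + 1) := by rw [h2, one_mul]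
      _ = jacobiSym (-1) (6 * k + 1) * (jacobiSym 3 (6 * k + 1) *
            jacobiSym (p : ℤ) (6 * k + 1)) := by ring
      _ = 1 := by rw [h1, h5]
  obtain ⟨s, a, ha0, ha⟩ := f3_sq p k hp hp4 hJ
  obtain ⟨u, v, w, huvw⟩ := tern3 a p n 0 3 (2 * s) ha0
    (by
      have hd : (0 : ℤ) < ((6 * k + 1 : ℕ) : ℤ) := by positivity
      nlinarith)
    (by
      have hn' : (n : ℤ) = 3 * m := by exact_mod_cast hm
      rw [hn']
      linear_combination (-12 * (m : ℤ)) * ha - 3 * hpd) 0 0 1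
  exact ⟨u, v, w, by linear_combination -huvw⟩

theorem base_three (i m : ℕ) (h : m % 3 ≠ 0 ∨ m % 9 = 3) :
    ∃ u v w : ℤ, u ^ 2 + (v ^ 2 + v * w + w ^ 2) = ((9 ^ i * m : ℕ) : ℤ) := by
  have h1 : ∃ u v w : ℤ, u ^ 2 + (v ^ 2 + v * w + w ^ 2) = m := by
    rcases h with h | h
    · exact f3_coprime m h
    · exact f3_three m h
  obtain ⟨u, v, w, huvw⟩ := h1
  refine ⟨3 ^ i * u, 3 ^ i * v, 3 ^ i * w, ?_⟩
  have e9 : (9 : ℤ) ^ i = (3 ^ i) ^ 2 := by
    rw [← pow_mul, mul_comm i 2, pow_mul]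
    norm_num
  push_cast
  rw [e9]
  linear_combination (3 ^ i) ^ 2 * huvw

end Pool.H94.Pol
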