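import Mathlib
import Pool.Agent.H9.Pent.ThreeSq

/-!
Three squares: all natural numbers congruent to 1, 2, 3, 5, 6 modulo 8, and their multiples by
powers of four.  `Pool.H9.Pent.three_sq` has the classes 1 and 2 modulo 4; for `n % 8 = 3` take
`d = 8 j + 1` with `2 p = d n - 1`, `p` prime: then `p % 4 = 1` and
`(-d/p) = (d/p) = (p/d) = (2/d) (2p/d) = (-1/d) = 1`; `Pool.H9.Pent.core` with `M = 2 p` finishes as
in `three_sq_one`.
-/

namespace Pool.H94.Pol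

open ZMod NumberTheorySymbols

theorem three_sq_three (n : ℕ) (h : n % 8 = 3) :
    ∃ a b c : ℤ, (n : ℤ) = a ^ 2 + b ^ 2 + c ^ 2 := by
  obtain ⟨m, hm⟩ : ∃ m, n = 8 * m + 3 := ⟨n / 8, by omega⟩
  -- (n-1)/2 = 4m+1
  have hcop : Nat.Coprime (4 * m + 1) (4 * n) := by
    have h2 : Nat.Coprime (4 * m + 1) 2 := by
      rw [Nat.coprime_two_right]
      exact Nat.odd_iff.mpr (by omega)
    have h4 : Nat.Coprime (4 * m + 1) 4 := by
      have : (4 : ℕ) = 2 ^ 2 := by norm_num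
      rw [this]; exact h2.pow_right 2
    have h1 : Nat.Coprime (4 * m + 1) n := by
      rw [hm]
      rw [← Nat.isCoprime_iff_coprime]
      refine ⟨-2, 1, ?_⟩
      push_cast; ring
    exact h4.mul_right h1
  obtain ⟨p, hpn, hp, hmod⟩ := Nat.forall_exists_prime_gt_and_modEq (4 * n) (q := 4 * n)
    (a := 4 * m + 1) (by omega) hcop
  obtain ⟨j, hj⟩ : ∃ j, p = (4 * m + 1) + 4 * n * j := by
    have h1 : (4 * m + 1) % (4 * n) = 4 * m + 1 := Nat.mod_eq_of_lt (by omega)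
    have h2 : p % (4 * n) = 4 * m + 1 := by rw [hmod, h1]
    refine ⟨p / (4 * n), ?_⟩
    rw [← h2]; exact (Nat.mod_add_div p (4 * n)).symm
  set d := 8 * j + 1 with hd
  have hpd : 2 * p + 1 = n * d := by
    rw [hj, hd, hm]; ring
  have hp4 : p % 4 = 1 := by
    rw [hj]
    have : 4 * n * j = 4 * (n * j) := by ring
    rw [this]; omega
  have hpodd : Odd p := Nat.odd_iff.mpr (by omega)
  have hdodd : Odd d := Nat.odd_iff.mpr (by omega)
  have hd4 : d % 4 = 1 := by omega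
  have hJpd : J((p : ℤ) | d) = 1 := by
    have h1 : J((2 : ℤ) * p | d) = J((-1 : ℤ) | d) := by
      apply jacobiSym.mod_left'
      have h2 : (2 : ℤ) * p = -1 + d * n := by
        have : (2 : ℤ) * (p : ℤ) + 1 = n * d := by exact_mod_cast hpd
        linarith
      rw [h2, Int.add_mul_emod_self_left]
    rw [jacobiSym.mul_left, jacobiSym.at_neg_one hdodd, χ₄_nat_one_mod_four hd4,
      jacobiSym.at_two hdodd, χ₈_nat_mod_eight] at h1
    have h3 : d % 8 = 1 := by omega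
    rw [h3] at h1
    have h4 : χ₈ ((1 : ℕ) : ZMod 8) = 1 := by decide
    rw [h4] at h1
    linarith
  have hJ : J(-(d : ℤ) | p) = 1 := by
    rw [jacobiSym.neg _ hpodd, χ₄_nat_one_mod_four hp4, one_mul,
      jacobiSym.quadratic_reciprocity_one_mod_four' hdodd hp4, hJpd]
  obtain ⟨x, hx⟩ := Pool.H9.Pent.exists_sq_of_jacobi p hp d hJ
  -- make x odd
  obtain ⟨y, hyodd, hy⟩ : ∃ y : ℤ, y % 2 = 1 ∧ (p : ℤ) ∣ y ^ 2 + d := by
    rcases Int.emod_two_eq_zero_or_one x with h0 | h0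
    · refine ⟨x + p, ?_, ?_⟩
      · have := Nat.odd_iff.mp hpodd; omega
      · have : (x + p) ^ 2 + (d : ℤ) = x ^ 2 + d + p * (2 * x + p) := by ring
        rw [this]; exact dvd_add hx (dvd_mul_right _ _)
    · exact ⟨x, h0, hx⟩
  have hy2 : (2 : ℤ) ∣ y ^ 2 + d := by
    obtain ⟨t, ht⟩ : ∃ t, y = 2 * t + 1 := ⟨y / 2, by omega⟩
    refine ⟨2 * t ^ 2 + 2 * t + 4 * j + 1, ?_⟩
    rw [ht, hd]; push_cast; ring
  have h2p : (2 * (p : ℤ)) ∣ y ^ 2 + d := by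
    apply IsCoprime.mul_dvd _ hy2 hy
    have : Nat.Coprime 2 p := Nat.coprime_two_left.mpr hpodd
    exact_mod_cast Nat.isCoprime_iff_coprime.mpr this
  apply Pool.H9.Pent.core n d (2 * p) y (by omega) (by
    have : 2 * (p : ℤ) + 1 = n * d := by exact_mod_cast hpd
    linarith) (by have := hp.pos; omega) h2p

theorem three_squares (n : ℕ)
    (h : n % 8 = 1 ∨ n % 8 = 2 ∨ n % 8 = 3 ∨ n % 8 = 5 ∨ n % 8 = 6) :
    ∃ x y z : ℤ, x ^ 2 + y ^ 2 + z ^ 2 = n := by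
  by_cases h3 : n % 8 = 3
  · obtain ⟨a, b, c, habc⟩ := three_sq_three n h3
    exact ⟨a, b, c, habc.symm⟩
  · obtain ⟨a, b, c, habc⟩ := Pool.H9.Pent.three_sq (n := n) (by omega)
    exact ⟨a, b, c, habc.symm⟩

theorem base_two (i m : ℕ)
    (h : m % 8 = 1 ∨ m % 8 = 2 ∨ m % 8 = 3 ∨ m % 8 = 5 ∨ m % 8 = 6) :
    ∃ x y z : ℤ, x ^ 2 + y ^ 2 + z ^ 2 = ((4 ^ i * m : ℕ) : ℤ) := by
  obtain ⟨x, y, z, hxyz⟩ := three_squares m h
  refine ⟨2 ^ i * x, 2 ^ i * y, 2 ^ i * z, ?_⟩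
  have h4 : (4 : ℤ) ^ i = (2 ^ i) ^ 2 := by
    rw [← pow_mul, mul_comm, pow_mul]; norm_num
  push_cast
  rw [h4, ← hxyz]
  ring

end Pool.H94.Pol
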