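import Pool.Agent.H94.Pol.KerSound
import Pool.Agent.H94.Pol.C1Row
import Pool.Agent.H94.Pol.ThreeSq
import Pool.Agent.H94.Pol.F3

/-!
Soundness of the schemes: `k^2 ∣ M`, `n = lam (M / k^2)` is represented by the base form
(`base_two`, `base_three`), `n = Q(v)`; `rt_sound` with `P v = (k^2 Q(v) = lam M)` and
`C v = ∃ a, Σ u_i a_i^2 = M`: an option gives `a_i = k G_i(v) / d_i` (`rowOK_sound`, `mapOK_sound`).
-/

namespace Pool.H94.Pol

private lemma c1_or (c e : Bool) : (cd c true e = true) ↔ (c = true ∨ e = true) := by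
  cases c <;> simp

private lemma c1_natrec (F : ℕ → Bool) (n : ℕ)
    (h : (Nat.rec (motive := fun _ => Bool) true (fun x ih => an ih (F x)) n : Bool) = true) :
    ∀ x < n, F x = true := by
  induction n with
  | zero =>
    intro x hx
    omega
  | succ n ih =>
    have h' : an (Nat.rec (motive := fun _ => Bool) true (fun x ih => an ih (F x)) n) (F n) =
      true := h
    rw [an_eq_true] at h'
    intro x hx
    rcases Nat.lt_succ_iff_lt_or_eq.1 hx with h1 | rfl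
    · exact ih h'.1 x h1
    · exact h'.2

private lemma c1_cov (n1 n2 : ℕ) (G : ℕ → ℕ → Bool)
    (h : (Nat.rec (motive := fun _ => Bool) true (fun x ih => an ih
      (Nat.rec (motive := fun _ => Bool) true (fun y ih2 => an ih2 (G x y)) n2)) n1 : Bool) =
        true) : ∀ x < n1, ∀ y < n2, G x y = true :=
  fun x hx y hy => c1_natrec _ _ (c1_natrec _ _ h x hx) y hy

private lemma c1_listrec {α : Type} (F : α → Bool) (L : List α)
    (h : (List.rec (motive := fun _ => Bool) true (fun c _ ih => an (F c) ih) L : Bool) = true) :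
    ∀ c ∈ L, F c = true := by
  induction L with
  | nil => simp
  | cons a L ih =>
    have h' : an (F a) (List.rec (motive := fun _ => Bool) true (fun c _ ih => an (F c) ih) L) =
      true := h
    rw [an_eq_true] at h'
    intro c hc
    rcases List.mem_cons.1 hc with rfl | h1
    · exact h'.1
    · exact ih h'.2 c h1

private lemma c1_mod (M mM rM : ℕ) (hM : M % mM = rM) : (mM : ℤ) ∣ (M : ℤ) - rM := by
  rw [← hM]
  refine ⟨((M / mM : ℕ) : ℤ), ?_⟩
  have h := Nat.div_add_mod M mM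
  have h2 : ((mM * (M / mM) + M % mM : ℕ) : ℤ) = M := by rw [h]
  push_cast at h2 ⊢
  linarith

/-- the number `n = lam M / k^2` -/
private lemma c1_val {lam k mM rM M : ℕ} (hM : M % mM = rM) (h1 : mM % (k * k) = 0)
    (h2 : rM % (k * k) = 0) :
    k * k * (lam * (mM / (k * k)) * (M / mM) + lam * (rM / (k * k))) = lam * M := by
  obtain ⟨a, ha⟩ := Nat.dvd_of_mod_eq_zero h1
  obtain ⟨b, hb⟩ := Nat.dvd_of_mod_eq_zero h2
  rcases Nat.eq_zero_or_pos (k * k) with h0 | h0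
  · rw [h0] at ha hb
    rw [h0]
    have h3 := Nat.div_add_mod M mM
    rw [hM, ha, hb] at h3
    simp at h3
    rw [← h3]
    simp
  · have e1 : mM / (k * k) = a := by rw [ha, Nat.mul_div_cancel_left _ h0]
    have e2 : rM / (k * k) = b := by rw [hb, Nat.mul_div_cancel_left _ h0]
    have h3 := Nat.div_add_mod M mM
    rw [e1, e2]
    calc _ = lam * (k * k * a * (M / mM) + k * k * b) := by ring
      _ = lam * M := by rw [← ha, ← hb, ← hM, h3]

private lemma c1_two {q d mu rho w : ℕ} (hq : 0 < q) (h1 : mu % (q * d) = 0) (h2 : rho % q = 0) :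
    ∃ m : ℕ, mu * w + rho = q * m ∧ ∃ v, m = d * v + rho / q := by
  obtain ⟨a, ha⟩ := Nat.dvd_of_mod_eq_zero h1
  obtain ⟨b, hb⟩ := Nat.dvd_of_mod_eq_zero h2
  refine ⟨d * (a * w) + b, ?_, a * w, ?_⟩
  · rw [ha, hb]
    ring
  · rw [hb, Nat.mul_div_cancel_left _ hq]

theorem baseOK_sound {t lam k mM rM i : ℕ} (ht : t ≤ 1) (hl : 1 ≤ lam) (hk : 1 ≤ k)
    (h : baseOK t lam k mM rM i = true) (hm : 0 < mM) (M : ℕ) (hM : M % mM = rM) :
    ∃ x y z : ℤ, (k : ℤ) ^ 2 * (x ^ 2 + y ^ 2 + z ^ 2 + t * (y * z)) = lam * M := by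
  rcases (by omega : t = 0 ∨ t = 1) with rfl | rfl
  · have h' : an (an (Nat.beq (mM % (k * k)) 0) (Nat.beq (rM % (k * k)) 0))
        (an (an (Nat.beq (lam * (mM / (k * k)) % (4 ^ i * 4)) 0)
          (Nat.beq (lam * (rM / (k * k)) % 4 ^ i) 0))
          (cd (Nat.beq (lam * (rM / (k * k)) / 4 ^ i % 4) 1) true
            (cd (Nat.beq (lam * (rM / (k * k)) / 4 ^ i % 4) 2) true
              (an (Nat.beq (lam * (mM / (k * k)) % (4 ^ i * 8)) 0)
                (Nat.beq (lam * (rM / (k * k)) / 4 ^ i % 8) 3))))) = true := h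
    simp only [an_eq_true, c1_or, Nat.beq_eq] at h'
    obtain ⟨⟨h1, h2⟩, ⟨h3, h4⟩, h5⟩ := h'
    have hv := c1_val (lam := lam) hM h1 h2
    set mu := lam * (mM / (k * k)) with hmu
    set rho := lam * (rM / (k * k)) with hrho
    have hq : 0 < 4 ^ i := by positivity
    obtain ⟨m, hm1, hm2⟩ : ∃ m : ℕ, mu * (M / mM) + rho = 4 ^ i * m ∧
        (m % 8 = 1 ∨ m % 8 = 2 ∨ m % 8 = 3 ∨ m % 8 = 5 ∨ m % 8 = 6) := by
      obtain ⟨m, e1, v, e2⟩ := c1_two (w := M / mM) hq h3 h4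
      rcases h5 with h5 | h5 | ⟨h5, h6⟩
      · exact ⟨m, e1, by omega⟩
      · exact ⟨m, e1, by omega⟩
      · obtain ⟨m, e1, v, e2⟩ := c1_two (w := M / mM) hq h5 h4
        exact ⟨m, e1, by omega⟩
    obtain ⟨x, y, z, hxyz⟩ := base_two i m hm2
    refine ⟨x, y, z, ?_⟩
    rw [← hm1] at hxyz
    have hv' : ((k * k * (mu * (M / mM) + rho) : ℕ) : ℤ) = ((lam * M : ℕ) : ℤ) := by rw [hv]
    rw [Nat.cast_mul (k * k), ← hxyz] at hv'
    push_cast at hv' ⊢
    linarith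
  · have h' : an (an (Nat.beq (mM % (k * k)) 0) (Nat.beq (rM % (k * k)) 0))
        (an (an (Nat.beq (lam * (mM / (k * k)) % (9 ^ i * 3)) 0)
          (Nat.beq (lam * (rM / (k * k)) % 9 ^ i) 0))
          (cd (Nat.beq (lam * (rM / (k * k)) / 9 ^ i % 3) 0)
            (an (Nat.beq (lam * (mM / (k * k)) % (9 ^ i * 9)) 0)
              (Nat.beq (lam * (rM / (k * k)) / 9 ^ i % 9) 3)) true)) = true := h
    simp only [an_eq_true, Nat.beq_eq] at h'
    obtain ⟨⟨h1, h2⟩, ⟨h3, h4⟩, h5⟩ := h'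
    have hv := c1_val (lam := lam) hM h1 h2
    set mu := lam * (mM / (k * k)) with hmu
    set rho := lam * (rM / (k * k)) with hrho
    have hq : 0 < 9 ^ i := by positivity
    obtain ⟨m, hm1, hm2⟩ : ∃ m : ℕ, mu * (M / mM) + rho = 9 ^ i * m ∧
        (m % 3 ≠ 0 ∨ m % 9 = 3) := by
      obtain ⟨m, e1, v, e2⟩ := c1_two (w := M / mM) hq h3 h4
      by_cases hs : rho / 9 ^ i % 3 = 0
      · have hb : Nat.beq (rho / 9 ^ i % 3) 0 = true := by rw [Nat.beq_eq]; exact hs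
        rw [hb, cd_true, an_eq_true, Nat.beq_eq, Nat.beq_eq] at h5
        obtain ⟨m, e1, v, e2⟩ := c1_two (w := M / mM) hq h5.1 h4
        exact ⟨m, e1, by omega⟩
      · exact ⟨m, e1, by omega⟩
    obtain ⟨x, y, z, hxyz⟩ := base_three i m hm2
    refine ⟨x, y, z, ?_⟩
    rw [← hm1] at hxyz
    have hv' : ((k * k * (mu * (M / mM) + rho) : ℕ) : ℤ) = ((lam * M : ℕ) : ℤ) := by rw [hv]
    rw [Nat.cast_mul (k * k), ← hxyz] at hv'
    push_cast at hv' ⊢
    linarith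

private lemma c1_bits (s a b m : ℕ) : bits (Nat.shiftRight s a) b m = bits s (a + b) m := by
  show Nat.land ((s >>> a) >>> b) m = Nat.land (s >>> (a + b)) m
  rw [Nat.shiftRight_add]

private lemma c1_rep {t lam k u1 u2 u3 : ℕ} (hl : 1 ≤ lam) (s : ℕ)
    (hmap : mapOK t lam u1 u2 u3 s = true) {m1 r1 m2 r2 m3 r3 : ℕ}
    (k1 : rowOK s k m1 r1 m2 r2 m3 r3 = true)
    (k2 : rowOK (Nat.shiftRight s 64) k m1 r1 m2 r2 m3 r3 = true)
    (k3 : rowOK (Nat.shiftRight s 128) k m1 r1 m2 r2 m3 r3 = true) (x y z : ℤ)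
    (h1 : (m1 : ℤ) ∣ x - r1) (h2 : (m2 : ℤ) ∣ y - r2) (h3 : (m3 : ℤ) ∣ z - r3) (M : ℕ)
    (hP : (k : ℤ) ^ 2 * (x ^ 2 + y ^ 2 + z ^ 2 + t * (y * z)) = lam * M) :
    Rep u1 u2 u3 M := by
  obtain ⟨d1, d2, d3, hid⟩ := mapOK_sound hmap x y z
  have g1 := rowOK_sound d1 k1 x y z h1 h2 h3
  have g2 := rowOK_sound (by rw [c1_bits]; exact d2) k2 x y z h1 h2 h3
  have g3 := rowOK_sound (by rw [c1_bits]; exact d3) k3 x y z h1 h2 h3
  simp only [c1_bits] at g2 g3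
  norm_num at g2 g3
  generalize bits s 0 65535 = D1 at *
  generalize bits s 64 65535 = D2 at *
  generalize bits s 128 65535 = D3 at *
  obtain ⟨a1, ha1⟩ := g1
  obtain ⟨a2, ha2⟩ := g2
  obtain ⟨a3, ha3⟩ := g3
  refine ⟨a1, a2, a3, ?_⟩
  generalize ((bits s 16 65535 : ℤ) - 32768) * x + ((bits s 32 65535 : ℤ) - 32768) * y +
    ((bits s 48 65535 : ℤ) - 32768) * z = G1 at *
  generalize ((bits s 80 65535 : ℤ) - 32768) * x + ((bits s 96 65535 : ℤ) - 32768) * y +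
    ((bits s 112 65535 : ℤ) - 32768) * z = G2 at *
  generalize ((bits s 144 65535 : ℤ) - 32768) * x + ((bits s 160 65535 : ℤ) - 32768) * y +
    ((bits s 176 65535 : ℤ) - 32768) * z = G3 at *
  have hD1 : (0 : ℤ) < D1 := by exact_mod_cast d1
  have hD2 : (0 : ℤ) < D2 := by exact_mod_cast d2
  have hD3 : (0 : ℤ) < D3 := by exact_mod_cast d3
  have hl' : (0 : ℤ) < lam := by exact_mod_cast hl
  have hne : (lam : ℤ) * ((D1 : ℤ) * (D2 * D3)) ^ 2 ≠ 0 := by positivity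
  refine mul_left_cancel₀ hne ?_
  calc (lam : ℤ) * ((D1 : ℤ) * (D2 * D3)) ^ 2 * (u1 * a1 ^ 2 + u2 * a2 ^ 2 + u3 * a3 ^ 2)
      = lam * (u1 * ((D2 : ℤ) * D3) ^ 2 * (D1 * a1) ^ 2 + u2 * ((D1 : ℤ) * D3) ^ 2 * (D2 * a2) ^ 2
        + u3 * ((D1 : ℤ) * D2) ^ 2 * (D3 * a3) ^ 2) := by ring
    _ = (k : ℤ) ^ 2 * (lam * (u1 * ((D2 : ℤ) * D3) ^ 2 * G1 ^ 2 + u2 * ((D1 : ℤ) * D3) ^ 2 * G2 ^ 2
        + u3 * ((D1 : ℤ) * D2) ^ 2 * G3 ^ 2)) := by
        rw [← ha1, ← ha2, ← ha3]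
        ring
    _ = ((D1 : ℤ) * (D2 * D3)) ^ 2 * ((k : ℤ) ^ 2 * (x ^ 2 + y ^ 2 + z ^ 2 + t * (y * z))) := by
        rw [hid]
        ring
    _ = (lam : ℤ) * ((D1 : ℤ) * (D2 * D3)) ^ 2 * M := by
        rw [hP]
        ring

theorem schC1_sound {t lam k u1 u2 u3 maps n : ℕ} {L : List (ℕ × ℕ × ℕ × ℕ)}
    (h : schC1 t lam k u1 u2 u3 maps n L = true) : ∀ c ∈ L, CosOK u1 u2 u3 c := by
  unfold schC1 at h
  rw [an_eq_true, an_eq_true, an_eq_true, an_eq_true] at h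
  obtain ⟨⟨ht, hl, hk⟩, hmaps, hL⟩ := h
  have ht' : t ≤ 1 := Nat.le_of_ble_eq_true ht
  have hl' : 1 ≤ lam := Nat.le_of_ble_eq_true hl
  have hk' : 1 ≤ k := Nat.le_of_ble_eq_true hk
  have hmaps' := c1_natrec _ _ hmaps
  have hL' := c1_listrec _ _ hL
  rintro ⟨mM, rM, i, cert⟩ hc h288 M hM
  have hm : 0 < mM := by
    rcases Nat.eq_zero_or_pos mM with h0 | h0
    · simp [h0] at h288
    · exact h0
  have h1 := hL' _ hc
  unfold cosC1 at h1
  rw [an_eq_true, Nat.beq_eq] at h1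
  obtain ⟨hb, hrt⟩ := h1
  obtain ⟨x, y, z, hxyz⟩ := baseOK_sound ht' hl' hk' hb hm M hM
  have hrt' := hrt ▸ Nat.one_ne_zero
  refine rt_sound _ _ (fun x y z : ℤ => (k : ℤ) ^ 2 * (x ^ 2 + y ^ 2 + z ^ 2 + t * (y * z)) =
    lam * M) (fun _ _ _ => Rep u1 u2 u3 M) ?_ ?_ _ _ _ _ _ _ _ _ Nat.one_pos Nat.one_pos
    Nat.one_pos hrt' x y z (by simp) (by simp) (by simp) hxyz
  · intro m1 r1 m2 r2 m3 r3 _ _ _ he x y z h1 h2 h3 hP
    have h4 := exOK_sound he x y z M h1 h2 h3 (c1_mod M mM rM hM)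
    refine h4 ?_
    have e : ((Nat.mul k k : ℕ) : ℤ) = (k : ℤ) ^ 2 := by
      show ((k * k : ℕ) : ℤ) = _
      push_cast
      ring
    rw [e]
    have e1 : (((nat_lit 1) : ℕ) : ℤ) = 1 := rfl
    rw [e1]
    linarith
  · intro o m1 r1 m2 r2 m3 r3 _ _ _ hkl x y z h1 h2 h3 hP
    rw [an_eq_true] at hkl
    obtain ⟨ho, hkl⟩ := hkl
    have ho' : o < n := by
      have : Nat.ble (Nat.succ o) n = true := ho
      exact Nat.le_of_ble_eq_true this
    unfold klC1 at hkl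
    rw [an_eq_true, an_eq_true] at hkl
    exact c1_rep hl' _ (hmaps' o ho') hkl.1 hkl.2.1 hkl.2.2 x y z h1 h2 h3 M hP

private lemma c1_listcov (M : ℕ) (L : List (ℕ × ℕ))
    (h : (List.rec (motive := fun _ => Bool) false
      (fun c _ ih3 => cd (Nat.beq (Nat.mod (nat_lit 288) c.1) (nat_lit 0))
        (cd (Nat.beq (Nat.mod M c.1) c.2) true ih3) ih3) L : Bool) = true) :
    ∃ c ∈ L, 288 % c.1 = 0 ∧ M % c.1 = c.2 := by
  induction L with
  | nil => exact absurd h (by simp)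
  | cons a L ih =>
    have h' : cd (Nat.beq (288 % a.1) 0) (cd (Nat.beq (M % a.1) a.2) true
      (List.rec (motive := fun _ => Bool) false
      (fun c _ ih3 => cd (Nat.beq (Nat.mod (nat_lit 288) c.1) (nat_lit 0))
        (cd (Nat.beq (Nat.mod M c.1) c.2) true ih3) ih3) L))
      (List.rec (motive := fun _ => Bool) false
      (fun c _ ih3 => cd (Nat.beq (Nat.mod (nat_lit 288) c.1) (nat_lit 0))
        (cd (Nat.beq (Nat.mod M c.1) c.2) true ih3) ih3) L) = true := h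
    have key : (List.rec (motive := fun _ => Bool) false
      (fun c _ ih3 => cd (Nat.beq (Nat.mod (nat_lit 288) c.1) (nat_lit 0))
        (cd (Nat.beq (Nat.mod M c.1) c.2) true ih3) ih3) L : Bool) = true →
        ∃ c ∈ a :: L, 288 % c.1 = 0 ∧ M % c.1 = c.2 := by
      intro h1
      obtain ⟨c, hc, h2⟩ := ih h1
      exact ⟨c, List.mem_cons_of_mem _ hc, h2⟩
    cases hb : Nat.beq (288 % a.1) 0 with
    | false =>
      rw [hb, cd_false] at h'
      exact key h'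
    | true =>
      rw [hb, cd_true, c1_or] at h'
      rcases h' with h1 | h1
      · exact ⟨a, List.mem_cons_self, Nat.eq_of_beq_eq_true hb, Nat.eq_of_beq_eq_true h1⟩
      · exact key h1

theorem covOK_sound {tbl : ℕ} {L : List (ℕ × ℕ)} (h : covOK tbl L = true) (M : ℕ)
    (hM : TblBit tbl M) : ∃ c ∈ L, 288 % c.1 = 0 ∧ M % c.1 = c.2 := by
  unfold covOK at h
  have h2 := c1_cov (nat_lit 32) (nat_lit 9) (fun x y =>
        cd (Nat.beq (bits tbl (Nat.add (Nat.mul (nat_lit 9) x) y) (nat_lit 1)) (nat_lit 0)) true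
          ((fun M => List.rec (motive := fun _ => Bool) false
            (fun c _ ih3 => cd (Nat.beq (Nat.mod (nat_lit 288) c.1) (nat_lit 0))
              (cd (Nat.beq (Nat.mod M c.1) c.2) true ih3) ih3) L)
            (Nat.mod (Nat.add (Nat.mul (nat_lit 225) x) (Nat.mul (nat_lit 64) y)) (nat_lit 288))))
    h (M % 32) (Nat.mod_lt _ (by norm_num)) (M % 9) (Nat.mod_lt _ (by norm_num))
  have hb : bits tbl (Nat.add (Nat.mul (nat_lit 9) (M % 32)) (M % 9)) (nat_lit 1) = 1 := hM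
  have h3 : cd (Nat.beq (bits tbl (Nat.add (Nat.mul (nat_lit 9) (M % 32)) (M % 9)) (nat_lit 1))
      (nat_lit 0)) true
      ((List.rec (motive := fun _ => Bool) false
      (fun c _ ih3 => cd (Nat.beq (Nat.mod (nat_lit 288) c.1) (nat_lit 0))
        (cd (Nat.beq (Nat.mod ((225 * (M % 32) + 64 * (M % 9)) % 288) c.1) c.2) true ih3) ih3) L :
        Bool)) = true := h2
  rw [hb, show Nat.beq 1 (nat_lit 0) = false from rfl, cd_false] at h3
  obtain ⟨c, hc, h4, h5⟩ := c1_listcov _ _ h3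
  refine ⟨c, hc, h4, ?_⟩
  have e : (225 * (M % 32) + 64 * (M % 9)) % 288 = M % 288 := by omega
  rw [e, Nat.mod_mod_of_dvd _ (Nat.dvd_of_mod_eq_zero h4)] at h5
  exact h5

theorem T1_of {tbl u1 u2 u3 : ℕ} (L : List (ℕ × ℕ × ℕ × ℕ))
    (hcov : covOK tbl (L.map fun c => (c.1, c.2.1)) = true) (h : ∀ c ∈ L, CosOK u1 u2 u3 c) :
    T1 u1 u2 u3 tbl := by
  intro M hM
  obtain ⟨c, hc, h1, h2⟩ := covOK_sound hcov M hM
  obtain ⟨c', hc', rfl⟩ := List.mem_map.1 hc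
  exact h c' hc' h1 M h2

end Pool.H94.Pol
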