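import Pool.Agent.H94.Pol.C1Def

/-!
Checker for the box condition (definitions only).

`a` is a solution of `u1 a1^2 + u2 a2^2 + u3 a3^2 = M ≤ (C16 / 16) p^2` with `a_c ≥ 0` and
`a_i > u_i p`.  A reflection `S a = a - c w`, `c = (row . a) / d = 2 <w, a> / <w, w>`, maps it to an
integral solution in the box `|a_r| ≤ u_r p`.  Option slot (512 bits): row (64 bits:
`d`, `row_c + 2^15`), `w_c + 2^15` (3 times 16 bits), `g` (16 bits) with `g row_c = 2 u_c w_c` and
`g d = Σ u_c w_c^2`; then six slots of 64 bits `(mu, nu_1, nu_2, nu_3)` with the multipliers which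
prove `± (S a)_r ≤ u_r p` on the region, in units of `1 / (256 d)`.
-/

namespace Pool.H94.Pol

/-- `(x - y)^2` -/
def sqd (x y : ℕ) : ℕ := (fun d => Nat.mul d d) (Nat.add (Nat.sub x y) (Nat.sub y x))

/-- `(a - 2^15) (b - 2^15) = prP a b - prN a b` -/
def prP (a b : ℕ) : ℕ := Nat.add (Nat.mul a b) (nat_lit 1073741824)

/-- see `prP` -/
def prN (a b : ℕ) : ℕ := Nat.mul (nat_lit 32768) (Nat.add a b)

/-- The region inequality. `D = 256 d`; `e1, e2, e3`: indicator of `r`, `i1, i2, i3`: indicator of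
`i`; `ur = u_r`, `ui = u_i`, `W = w_r + 2^15`; `mult`: the multipliers. -/
def regOK (u1 u2 u3 C16 D e1 e2 e3 i1 i2 i3 ur ui W R1 R2 R3 mult : ℕ) (pos : Bool) : Bool :=
  (fun mu nu1 nu2 nu3 =>
    Nat.ble (Nat.mul C16 (Nat.add (Nat.add
      (Nat.mul (Nat.mul u2 u3) (cd pos
        (sqd (Nat.add (Nat.add (Nat.mul D e1) (Nat.mul mu i1)) (Nat.add nu1 (Nat.mul (nat_lit 256) (prN W R1))))
          (Nat.mul (nat_lit 256) (prP W R1)))
        (sqd (Nat.add (Nat.mul mu i1) (Nat.add nu1 (Nat.mul (nat_lit 256) (prP W R1))))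
          (Nat.add (Nat.mul D e1) (Nat.mul (nat_lit 256) (prN W R1))))))
      (Nat.mul (Nat.mul u1 u3) (cd pos
        (sqd (Nat.add (Nat.add (Nat.mul D e2) (Nat.mul mu i2)) (Nat.add nu2 (Nat.mul (nat_lit 256) (prN W R2))))
          (Nat.mul (nat_lit 256) (prP W R2)))
        (sqd (Nat.add (Nat.mul mu i2) (Nat.add nu2 (Nat.mul (nat_lit 256) (prP W R2))))
          (Nat.add (Nat.mul D e2) (Nat.mul (nat_lit 256) (prN W R2)))))))
      (Nat.mul (Nat.mul u1 u2) (cd pos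
        (sqd (Nat.add (Nat.add (Nat.mul D e3) (Nat.mul mu i3)) (Nat.add nu3 (Nat.mul (nat_lit 256) (prN W R3))))
          (Nat.mul (nat_lit 256) (prP W R3)))
        (sqd (Nat.add (Nat.mul mu i3) (Nat.add nu3 (Nat.mul (nat_lit 256) (prP W R3))))
          (Nat.add (Nat.mul D e3) (Nat.mul (nat_lit 256) (prN W R3))))))))
      (Nat.mul (Nat.mul (nat_lit 16) (Nat.mul u1 (Nat.mul u2 u3)))
        (Nat.pow (Nat.add (Nat.mul ur D) (Nat.mul mu ui)) (nat_lit 2))))
    (bits mult (nat_lit 0) (nat_lit 65535)) (bits mult (nat_lit 16) (nat_lit 65535))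
    (bits mult (nat_lit 32) (nat_lit 65535)) (bits mult (nat_lit 48) (nat_lit 65535))

/-- the option in the slot `s` is a reflection which works on the region `i` -/
def optOK (u1 u2 u3 C16 i1 i2 i3 ui s : ℕ) : Bool :=
  (fun d R1 R2 R3 W1 W2 W3 g => (fun D =>
    an (an (Nat.ble (nat_lit 1) d) (an (Nat.ble (nat_lit 1) g)
      (Nat.beq (Nat.add (Nat.mul g d) (Nat.mul (nat_lit 65536)
          (Nat.add (Nat.add (Nat.mul u1 W1) (Nat.mul u2 W2)) (Nat.mul u3 W3))))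
        (Nat.add (Nat.add (Nat.mul u1 (prP W1 W1)) (Nat.mul u2 (prP W2 W2))) (Nat.mul u3 (prP W3 W3))))))
    (an (an (Nat.beq (Nat.add (Nat.mul g R1) (Nat.mul (nat_lit 65536) u1))
          (Nat.add (Nat.mul (nat_lit 2) (Nat.mul u1 W1)) (Nat.mul (nat_lit 32768) g)))
      (an (Nat.beq (Nat.add (Nat.mul g R2) (Nat.mul (nat_lit 65536) u2))
          (Nat.add (Nat.mul (nat_lit 2) (Nat.mul u2 W2)) (Nat.mul (nat_lit 32768) g)))
        (Nat.beq (Nat.add (Nat.mul g R3) (Nat.mul (nat_lit 65536) u3))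
          (Nat.add (Nat.mul (nat_lit 2) (Nat.mul u3 W3)) (Nat.mul (nat_lit 32768) g)))))
    (an (an (regOK u1 u2 u3 C16 D (nat_lit 1) (nat_lit 0) (nat_lit 0) i1 i2 i3 u1 ui W1 R1 R2 R3
            (Nat.shiftRight s (nat_lit 128)) true)
          (regOK u1 u2 u3 C16 D (nat_lit 1) (nat_lit 0) (nat_lit 0) i1 i2 i3 u1 ui W1 R1 R2 R3
            (Nat.shiftRight s (nat_lit 192)) false))
    (an (an (regOK u1 u2 u3 C16 D (nat_lit 0) (nat_lit 1) (nat_lit 0) i1 i2 i3 u2 ui W2 R1 R2 R3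
            (Nat.shiftRight s (nat_lit 256)) true)
          (regOK u1 u2 u3 C16 D (nat_lit 0) (nat_lit 1) (nat_lit 0) i1 i2 i3 u2 ui W2 R1 R2 R3
            (Nat.shiftRight s (nat_lit 320)) false))
      (an (regOK u1 u2 u3 C16 D (nat_lit 0) (nat_lit 0) (nat_lit 1) i1 i2 i3 u3 ui W3 R1 R2 R3
            (Nat.shiftRight s (nat_lit 384)) true)
          (regOK u1 u2 u3 C16 D (nat_lit 0) (nat_lit 0) (nat_lit 1) i1 i2 i3 u3 ui W3 R1 R2 R3
            (Nat.shiftRight s (nat_lit 448)) false))))))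
    (Nat.mul (nat_lit 256) d))
    (bits s (nat_lit 0) (nat_lit 65535)) (bits s (nat_lit 16) (nat_lit 65535))
    (bits s (nat_lit 32) (nat_lit 65535)) (bits s (nat_lit 48) (nat_lit 65535))
    (bits s (nat_lit 64) (nat_lit 65535)) (bits s (nat_lit 80) (nat_lit 65535))
    (bits s (nat_lit 96) (nat_lit 65535)) (bits s (nat_lit 112) (nat_lit 65535))

/-- the first `n` options are correct -/
noncomputable def optsOK (u1 u2 u3 C16 i1 i2 i3 ui opts n : ℕ) : Bool :=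
  Nat.rec (motive := fun _ => Bool) true
    (fun o ih => an ih (optOK u1 u2 u3 C16 i1 i2 i3 ui (Nat.shiftRight opts (Nat.mul (nat_lit 512) o)))) n

/-- the tree of a coset; options are `< n` -/
noncomputable def cosC2 (u1 u2 u3 opts n mM rM cert : ℕ) : Bool :=
  Nat.beq (rt (fun m1 r1 m2 r2 m3 r3 => exOK u1 u2 u3 (nat_lit 0) (nat_lit 1) (nat_lit 1)
        mM rM m1 r1 m2 r2 m3 r3)
      (fun o m1 r1 m2 r2 m3 r3 => an (Nat.blt o n)
        (rowOK (Nat.shiftRight opts (Nat.mul (nat_lit 512) o)) (nat_lit 1) m1 r1 m2 r2 m3 r3))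
      (nat_lit 64) (nat_lit 1) (nat_lit 0) (nat_lit 1) (nat_lit 0) (nat_lit 1) (nat_lit 0) cert)
      (nat_lit 1)

/-- a family: options for the region `i = 1, 2, 3` and a list of cosets `(mM, rM, cert)` -/
noncomputable def famC2 (u1 u2 u3 C16 i1 i2 i3 ui opts n : ℕ) (L : List (ℕ × ℕ × ℕ)) : Bool :=
  an (optsOK u1 u2 u3 C16 i1 i2 i3 ui opts n)
    (List.rec (motive := fun _ => Bool) true
      (fun c _ ih => an (cosC2 u1 u2 u3 opts n c.1 c.2.1 c.2.2) ih) L)

end Pool.H94.Pol
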