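import Pool.Agent.H94.Pol.C1Row

/-!
Soundness of the options of the box checker.
Write `R_c = bits s (16, 32, 48) - 2^15`, `W_c = bits s (64, 80, 96) - 2^15`, `d = bits s 0`,
`g = bits s 112`.  `optOK` says `g R_c = 2 u_c W_c`, `g d = Σ u_c W_c^2`, and the six inequalities.
For `a` in the region with `d ∣ R . a` put `c = (R . a) / d` and `b_r = a_r - c W_r`: then
`Σ u_r b_r^2 = Σ u_r a_r^2`.  Box: with `D = 256 d`, for the sign `+`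
`D b_r = Σ_c s_c a_c`, `s_c = D δ_{rc} - 256 W_r R_c`; `t_c = s_c + mu δ_{ic} + nu_c`;
`D b_r ≤ Σ t_c a_c - mu u_i p ≤ (u_r D + mu u_i) p - mu u_i p` because (Cauchy-Schwarz)
`(Σ t_c a_c)^2 ≤ (Σ t_c^2 / u_c) (Σ u_c a_c^2)` and
`C16 (u2 u3 t_1^2 + u1 u3 t_2^2 + u1 u2 t_3^2) ≤ 16 u1 u2 u3 (u_r D + mu u_i)^2`.
-/

namespace Pool.H94.Pol

namespace C2OptAux

lemma sqd_cast (x y : ℕ) : ((sqd x y : ℕ) : ℤ) = ((x : ℤ) - y) ^ 2 := by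
  unfold sqd
  simp only [Nat.add_eq, Nat.mul_eq, Nat.sub_eq]
  rcases le_total x y with h | h
  · rw [Nat.sub_eq_zero_of_le h, zero_add]
    push_cast [Nat.cast_sub h]
    ring
  · rw [Nat.sub_eq_zero_of_le h, add_zero]
    push_cast [Nat.cast_sub h]
    ring

lemma prP_cast (a b : ℕ) : ((prP a b : ℕ) : ℤ) = (a : ℤ) * b + 1073741824 := by
  have h1 : prP a b = a * b + 1073741824 := rfl
  rw [h1]
  push_cast
  ring

lemma prP_sub (a b : ℕ) :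
    ((prP a b : ℕ) : ℤ) - (prN a b : ℕ) = ((a : ℤ) - 32768) * ((b : ℤ) - 32768) := by
  have h2 : prN a b = 32768 * (a + b) := rfl
  rw [prP_cast, h2]
  push_cast
  ring

/-- `regOK` with the multipliers as variables -/
def regP (u1 u2 u3 C16 D e1 e2 e3 i1 i2 i3 ur ui W R1 R2 R3 mu nu1 nu2 nu3 : ℕ) (pos : Bool) :
    Prop :=
    C16 * (u2 * u3 * (cd pos
        (sqd (D * e1 + mu * i1 + (nu1 + 256 * prN W R1)) (256 * prP W R1))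
        (sqd (mu * i1 + (nu1 + 256 * prP W R1)) (D * e1 + 256 * prN W R1)))
      + u1 * u3 * (cd pos
        (sqd (D * e2 + mu * i2 + (nu2 + 256 * prN W R2)) (256 * prP W R2))
        (sqd (mu * i2 + (nu2 + 256 * prP W R2)) (D * e2 + 256 * prN W R2)))
      + u1 * u2 * (cd pos
        (sqd (D * e3 + mu * i3 + (nu3 + 256 * prN W R3)) (256 * prP W R3))
        (sqd (mu * i3 + (nu3 + 256 * prP W R3)) (D * e3 + 256 * prN W R3))))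
      ≤ 16 * (u1 * (u2 * u3)) * (ur * D + mu * ui) ^ 2

lemma regP_of {u1 u2 u3 C16 D e1 e2 e3 i1 i2 i3 ur ui W R1 R2 R3 mult : ℕ} {pos : Bool}
    (h : regOK u1 u2 u3 C16 D e1 e2 e3 i1 i2 i3 ur ui W R1 R2 R3 mult pos = true) :
    ∃ mu nu1 nu2 nu3 : ℕ,
      regP u1 u2 u3 C16 D e1 e2 e3 i1 i2 i3 ur ui W R1 R2 R3 mu nu1 nu2 nu3 pos :=
  ⟨bits mult 0 65535, bits mult 16 65535, bits mult 32 65535, bits mult 48 65535,
    Nat.le_of_ble_eq_true h⟩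

lemma core0 {U Q S B C16 M p : ℤ} (hcs : U * S ^ 2 ≤ Q * M) (hM : 16 * M ≤ C16 * p ^ 2)
    (hQ : 0 ≤ Q) (h : C16 * Q ≤ 16 * U * B ^ 2) : 16 * U * S ^ 2 ≤ 16 * U * (B * p) ^ 2 := by
  calc 16 * U * S ^ 2 = 16 * (U * S ^ 2) := by ring
    _ ≤ 16 * (Q * M) := mul_le_mul_of_nonneg_left hcs (by norm_num)
    _ = Q * (16 * M) := by ring
    _ ≤ Q * (C16 * p ^ 2) := mul_le_mul_of_nonneg_left hM hQ
    _ = (C16 * Q) * p ^ 2 := by ring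
    _ ≤ (16 * U * B ^ 2) * p ^ 2 := mul_le_mul_of_nonneg_right h (sq_nonneg p)
    _ = 16 * U * (B * p) ^ 2 := by ring

/-- the inequality behind `regOK_sound` -/
lemma core {u1 u2 u3 C16 D ur ui mu n1 n2 n3 : ℤ} (hu1 : 0 < u1) (hu2 : 0 < u2) (hu3 : 0 < u3)
    (hD : 0 ≤ D) (hur : 0 ≤ ur) (hui : 0 ≤ ui) (hmu : 0 ≤ mu) (hn1 : 0 ≤ n1) (hn2 : 0 ≤ n2)
    (hn3 : 0 ≤ n3) {M p a1 a2 a3 s1 s2 s3 i1 i2 i3 t1 t2 t3 : ℤ} (hp : 0 ≤ p)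
    (ht1 : t1 = s1 + mu * i1 + n1) (ht2 : t2 = s2 + mu * i2 + n2) (ht3 : t3 = s3 + mu * i3 + n3)
    (h : C16 * (u2 * u3 * t1 ^ 2 + u1 * u3 * t2 ^ 2
      + u1 * u2 * t3 ^ 2) ≤ 16 * (u1 * (u2 * u3)) * (ur * D + mu * ui) ^ 2)
    (hM : 16 * M ≤ C16 * p ^ 2) (h1 : 0 ≤ a1) (h2 : 0 ≤ a2) (h3 : 0 ≤ a3)
    (ha : u1 * a1 ^ 2 + u2 * a2 ^ 2 + u3 * a3 ^ 2 = M)
    (hi : ui * p ≤ i1 * a1 + i2 * a2 + i3 * a3) :
    s1 * a1 + s2 * a2 + s3 * a3 ≤ D * (ur * p) := by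
  have hQ : 0 ≤ u2 * u3 * t1 ^ 2 + u1 * u3 * t2 ^ 2 + u1 * u2 * t3 ^ 2 := by positivity
  have hcs : u1 * (u2 * u3) * (t1 * a1 + t2 * a2 + t3 * a3) ^ 2
      ≤ (u2 * u3 * t1 ^ 2 + u1 * u3 * t2 ^ 2 + u1 * u2 * t3 ^ 2) * M := by
    rw [← ha]
    have e : (u2 * u3 * t1 ^ 2 + u1 * u3 * t2 ^ 2 + u1 * u2 * t3 ^ 2)
        * (u1 * a1 ^ 2 + u2 * a2 ^ 2 + u3 * a3 ^ 2)
        - u1 * (u2 * u3) * (t1 * a1 + t2 * a2 + t3 * a3) ^ 2
        = u3 * (u2 * t1 * a2 - u1 * t2 * a1) ^ 2 + u2 * (u3 * t1 * a3 - u1 * t3 * a1) ^ 2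
          + u1 * (u3 * t2 * a3 - u2 * t3 * a2) ^ 2 := by ring
    have e2 : 0 ≤ u3 * (u2 * t1 * a2 - u1 * t2 * a1) ^ 2 + u2 * (u3 * t1 * a3 - u1 * t3 * a1) ^ 2
          + u1 * (u3 * t2 * a3 - u2 * t3 * a2) ^ 2 := by positivity
    linarith
  have hbig : 16 * (u1 * (u2 * u3)) * (t1 * a1 + t2 * a2 + t3 * a3) ^ 2
      ≤ 16 * (u1 * (u2 * u3)) * ((ur * D + mu * ui) * p) ^ 2 :=
    core0 hcs hM hQ h
  have hsq : (t1 * a1 + t2 * a2 + t3 * a3) ^ 2 ≤ ((ur * D + mu * ui) * p) ^ 2 := by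
    have hpos : 0 < 16 * (u1 * (u2 * u3)) := by positivity
    exact le_of_mul_le_mul_left hbig hpos
  have hle : t1 * a1 + t2 * a2 + t3 * a3 ≤ (ur * D + mu * ui) * p := by
    have hnn : 0 ≤ (ur * D + mu * ui) * p := by positivity
    exact (abs_le_of_sq_le_sq' hsq hnn).2
  have k1 : 0 ≤ n1 * a1 := mul_nonneg hn1 h1
  have k2 : 0 ≤ n2 * a2 := mul_nonneg hn2 h2
  have k3 : 0 ≤ n3 * a3 := mul_nonneg hn3 h3
  have k4 : mu * (ui * p) ≤ mu * (i1 * a1 + i2 * a2 + i3 * a3) := mul_le_mul_of_nonneg_left hi hmu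
  have e : s1 * a1 + s2 * a2 + s3 * a3 = (t1 * a1 + t2 * a2 + t3 * a3)
      - mu * (i1 * a1 + i2 * a2 + i3 * a3) - n1 * a1 - n2 * a2 - n3 * a3 := by
    rw [ht1, ht2, ht3]; ring
  rw [e]
  have e' : (ur * D + mu * ui) * p = D * (ur * p) + mu * (ui * p) := by ring
  rw [e'] at hle
  linarith only [hle, k1, k2, k3, k4]

theorem regP_sound {u1 u2 u3 C16 D e1 e2 e3 i1 i2 i3 ur ui W R1 R2 R3 : ℕ} {pos : Bool}
    (h : ∃ mu nu1 nu2 nu3 : ℕ,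
      regP u1 u2 u3 C16 D e1 e2 e3 i1 i2 i3 ur ui W R1 R2 R3 mu nu1 nu2 nu3 pos)
    (hu1 : 0 < u1) (hu2 : 0 < u2) (hu3 : 0 < u3) (M p : ℕ) (a1 a2 a3 : ℤ)
    (hM : 16 * M ≤ C16 * p ^ 2) (h1 : 0 ≤ a1) (h2 : 0 ≤ a2) (h3 : 0 ≤ a3)
    (ha : u1 * a1 ^ 2 + u2 * a2 ^ 2 + u3 * a3 ^ 2 = (M : ℤ))
    (hi : (ui * p : ℤ) ≤ i1 * a1 + i2 * a2 + i3 * a3) :
    (bif pos then (1 : ℤ) else -1) * ((D : ℤ) * (e1 * a1 + e2 * a2 + e3 * a3)
      - 256 * ((W : ℤ) - 32768) * (((R1 : ℤ) - 32768) * a1 + ((R2 : ℤ) - 32768) * a2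
        + ((R3 : ℤ) - 32768) * a3)) ≤ D * (ur * p) := by
  have hM' : 16 * (M : ℤ) ≤ C16 * (p : ℤ) ^ 2 := by exact_mod_cast hM
  have q1 := prP_sub W R1
  have q2 := prP_sub W R2
  have q3 := prP_sub W R3
  obtain ⟨mu, nu1, nu2, nu3, h'⟩ := h
  unfold regP at h'
  generalize prP W R1 = P1 at h' q1
  generalize prP W R2 = P2 at h' q2
  generalize prP W R3 = P3 at h' q3
  generalize prN W R1 = N1 at h' q1
  generalize prN W R2 = N2 at h' q2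
  generalize prN W R3 = N3 at h' q3
  cases pos with
  | true =>
    rw [cd_true, cd_true, cd_true] at h'
    zify [sqd_cast] at h'
    have key := core (u1 := u1) (u2 := u2) (u3 := u3) (C16 := C16) (D := D) (ur := ur) (ui := ui)
      (mu := mu) (n1 := nu1) (n2 := nu2) (n3 := nu3) (M := M) (p := p) (a1 := a1) (a2 := a2)
      (a3 := a3)
      (s1 := (D : ℤ) * e1 - 256 * ((P1 : ℤ) - N1))
      (s2 := (D : ℤ) * e2 - 256 * ((P2 : ℤ) - N2))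
      (s3 := (D : ℤ) * e3 - 256 * ((P3 : ℤ) - N3))
      (i1 := i1) (i2 := i2) (i3 := i3)
      (by exact_mod_cast hu1) (by exact_mod_cast hu2) (by exact_mod_cast hu3)
      (by positivity) (by positivity) (by positivity) (by positivity) (by positivity)
      (by positivity) (by positivity) (by positivity)
      (by ring) (by ring) (by ring) h'
      hM' h1 h2 h3 ha hi
    refine le_trans (le_of_eq ?_) key
    simp only [cond_true]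
    linear_combination (256 : ℤ) * (a1 * q1 + a2 * q2 + a3 * q3)
  | false =>
    rw [cd_false, cd_false, cd_false] at h'
    zify [sqd_cast] at h'
    have key := core (u1 := u1) (u2 := u2) (u3 := u3) (C16 := C16) (D := D) (ur := ur) (ui := ui)
      (mu := mu) (n1 := nu1) (n2 := nu2) (n3 := nu3) (M := M) (p := p) (a1 := a1) (a2 := a2)
      (a3 := a3)
      (s1 := -((D : ℤ) * e1 - 256 * ((P1 : ℤ) - N1)))
      (s2 := -((D : ℤ) * e2 - 256 * ((P2 : ℤ) - N2)))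
      (s3 := -((D : ℤ) * e3 - 256 * ((P3 : ℤ) - N3)))
      (i1 := i1) (i2 := i2) (i3 := i3)
      (by exact_mod_cast hu1) (by exact_mod_cast hu2) (by exact_mod_cast hu3)
      (by positivity) (by positivity) (by positivity) (by positivity) (by positivity)
      (by positivity) (by positivity) (by positivity)
      (by ring) (by ring) (by ring) h'
      hM' h1 h2 h3 ha hi
    refine le_trans (le_of_eq ?_) key
    simp only [cond_false]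
    linear_combination (-256 : ℤ) * (a1 * q1 + a2 * q2 + a3 * q3)

/-- `optOK` with the entries of the slot as variables -/
def optP (u1 u2 u3 C16 i1 i2 i3 ui d R1 R2 R3 W1 W2 W3 g : ℕ) : Prop :=
  1 ≤ d ∧ g * d + 65536 * (u1 * W1 + u2 * W2 + u3 * W3)
      = u1 * prP W1 W1 + u2 * prP W2 W2 + u3 * prP W3 W3 ∧
    g * R1 + 65536 * u1 = 2 * (u1 * W1) + 32768 * g ∧
    g * R2 + 65536 * u2 = 2 * (u2 * W2) + 32768 * g ∧
    g * R3 + 65536 * u3 = 2 * (u3 * W3) + 32768 * g ∧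
    (∃ mu nu1 nu2 nu3 : ℕ,
      regP u1 u2 u3 C16 (256 * d) 1 0 0 i1 i2 i3 u1 ui W1 R1 R2 R3 mu nu1 nu2 nu3 true) ∧
    (∃ mu nu1 nu2 nu3 : ℕ,
      regP u1 u2 u3 C16 (256 * d) 1 0 0 i1 i2 i3 u1 ui W1 R1 R2 R3 mu nu1 nu2 nu3 false) ∧
    (∃ mu nu1 nu2 nu3 : ℕ,
      regP u1 u2 u3 C16 (256 * d) 0 1 0 i1 i2 i3 u2 ui W2 R1 R2 R3 mu nu1 nu2 nu3 true) ∧
    (∃ mu nu1 nu2 nu3 : ℕ,
      regP u1 u2 u3 C16 (256 * d) 0 1 0 i1 i2 i3 u2 ui W2 R1 R2 R3 mu nu1 nu2 nu3 false) ∧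
    (∃ mu nu1 nu2 nu3 : ℕ,
      regP u1 u2 u3 C16 (256 * d) 0 0 1 i1 i2 i3 u3 ui W3 R1 R2 R3 mu nu1 nu2 nu3 true) ∧
    (∃ mu nu1 nu2 nu3 : ℕ,
      regP u1 u2 u3 C16 (256 * d) 0 0 1 i1 i2 i3 u3 ui W3 R1 R2 R3 mu nu1 nu2 nu3 false)

lemma optP_of {u1 u2 u3 C16 i1 i2 i3 ui s : ℕ} (h : optOK u1 u2 u3 C16 i1 i2 i3 ui s = true) :
    optP u1 u2 u3 C16 i1 i2 i3 ui (bits s 0 65535) (bits s 16 65535) (bits s 32 65535)
      (bits s 48 65535) (bits s 64 65535) (bits s 80 65535) (bits s 96 65535)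
      (bits s 112 65535) := by
  unfold optOK at h
  simp only [an_eq_true] at h
  obtain ⟨⟨hd0, _, hgd⟩, ⟨hR1, hR2, hR3⟩, ⟨r1p, r1n⟩, ⟨r2p, r2n⟩, r3p, r3n⟩ := h
  exact ⟨Nat.le_of_ble_eq_true hd0, Nat.eq_of_beq_eq_true hgd, Nat.eq_of_beq_eq_true hR1,
    Nat.eq_of_beq_eq_true hR2, Nat.eq_of_beq_eq_true hR3, regP_of r1p, regP_of r1n, regP_of r2p,
    regP_of r2n, regP_of r3p, regP_of r3n⟩

theorem optP_sound {u1 u2 u3 C16 i1 i2 i3 ui d R1 R2 R3 W1 W2 W3 g : ℕ}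
    (h : optP u1 u2 u3 C16 i1 i2 i3 ui d R1 R2 R3 W1 W2 W3 g)
    (hu1 : 0 < u1) (hu2 : 0 < u2) (hu3 : 0 < u3) (M p : ℕ) (a1 a2 a3 : ℤ)
    (hM : 16 * M ≤ C16 * p ^ 2) (h1 : 0 ≤ a1) (h2 : 0 ≤ a2) (h3 : 0 ≤ a3)
    (ha : u1 * a1 ^ 2 + u2 * a2 ^ 2 + u3 * a3 ^ 2 = (M : ℤ))
    (hi : (ui * p : ℤ) ≤ i1 * a1 + i2 * a2 + i3 * a3)
    (hd : (d : ℤ) ∣ (((R1 : ℤ) - 32768) * a1 + ((R2 : ℤ) - 32768) * a2
      + ((R3 : ℤ) - 32768) * a3)) :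
    BoxRep u1 u2 u3 M p := by
  obtain ⟨hpos, hgd, hR1, hR2, hR3, r1p, r1n, r2p, r2n, r3p, r3n⟩ := h
  have k1p := regP_sound r1p hu1 hu2 hu3 M p a1 a2 a3 hM h1 h2 h3 ha hi
  have k1n := regP_sound r1n hu1 hu2 hu3 M p a1 a2 a3 hM h1 h2 h3 ha hi
  have k2p := regP_sound r2p hu1 hu2 hu3 M p a1 a2 a3 hM h1 h2 h3 ha hi
  have k2n := regP_sound r2n hu1 hu2 hu3 M p a1 a2 a3 hM h1 h2 h3 ha hi
  have k3p := regP_sound r3p hu1 hu2 hu3 M p a1 a2 a3 hM h1 h2 h3 ha hi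
  have k3n := regP_sound r3n hu1 hu2 hu3 M p a1 a2 a3 hM h1 h2 h3 ha hi
  clear r1p r1n r2p r2n r3p r3n
  obtain ⟨c, hc⟩ := hd
  have eg : (g : ℤ) * d = u1 * ((W1 : ℤ) - 32768) ^ 2 + u2 * ((W2 : ℤ) - 32768) ^ 2
      + u3 * ((W3 : ℤ) - 32768) ^ 2 := by
    have e := congrArg (Nat.cast (R := ℤ)) hgd
    push_cast [prP_cast] at e
    linear_combination e
  have eR1 : (g : ℤ) * ((R1 : ℤ) - 32768) = 2 * (u1 * ((W1 : ℤ) - 32768)) := by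
    have e := congrArg (Nat.cast (R := ℤ)) hR1
    push_cast at e
    linear_combination e
  have eR2 : (g : ℤ) * ((R2 : ℤ) - 32768) = 2 * (u2 * ((W2 : ℤ) - 32768)) := by
    have e := congrArg (Nat.cast (R := ℤ)) hR2
    push_cast at e
    linear_combination e
  have eR3 : (g : ℤ) * ((R3 : ℤ) - 32768) = 2 * (u3 * ((W3 : ℤ) - 32768)) := by
    have e := congrArg (Nat.cast (R := ℤ)) hR3
    push_cast at e
    linear_combination e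
  have hdpos : (0 : ℤ) < 256 * (d : ℤ) := by
    have : (1 : ℤ) ≤ d := by exact_mod_cast hpos
    linarith
  push_cast at k1p k1n k2p k2n k3p k3n
  simp only [cond_true, cond_false] at k1p k1n k2p k2n k3p k3n
  rw [hc] at k1p k1n k2p k2n k3p k3n
  refine ⟨a1 - c * ((W1 : ℤ) - 32768), a2 - c * ((W2 : ℤ) - 32768), a3 - c * ((W3 : ℤ) - 32768),
    ?_, ?_, ?_, ?_⟩
  · rw [← ha]
    linear_combination (-c ^ 2) * eg + c * (a1 * eR1 + a2 * eR2 + a3 * eR3) - c * g * hc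
  · rw [abs_le]
    constructor
    · have := le_of_mul_le_mul_left (a := 256 * (d : ℤ)) (b := -(a1 - c * ((W1 : ℤ) - 32768)))
        (c := p * u1) (le_trans (le_of_eq (by ring)) (le_trans k1n (le_of_eq (by ring)))) hdpos
      linarith
    · exact le_of_mul_le_mul_left (a := 256 * (d : ℤ)) (b := a1 - c * ((W1 : ℤ) - 32768))
        (c := p * u1) (le_trans (le_of_eq (by ring)) (le_trans k1p (le_of_eq (by ring)))) hdpos
  · rw [abs_le]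
    constructor
    · have := le_of_mul_le_mul_left (a := 256 * (d : ℤ)) (b := -(a2 - c * ((W2 : ℤ) - 32768)))
        (c := p * u2) (le_trans (le_of_eq (by ring)) (le_trans k2n (le_of_eq (by ring)))) hdpos
      linarith
    · exact le_of_mul_le_mul_left (a := 256 * (d : ℤ)) (b := a2 - c * ((W2 : ℤ) - 32768))
        (c := p * u2) (le_trans (le_of_eq (by ring)) (le_trans k2p (le_of_eq (by ring)))) hdpos
  · rw [abs_le]
    constructor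
    · have := le_of_mul_le_mul_left (a := 256 * (d : ℤ)) (b := -(a3 - c * ((W3 : ℤ) - 32768)))
        (c := p * u3) (le_trans (le_of_eq (by ring)) (le_trans k3n (le_of_eq (by ring)))) hdpos
      linarith
    · exact le_of_mul_le_mul_left (a := 256 * (d : ℤ)) (b := a3 - c * ((W3 : ℤ) - 32768))
        (c := p * u3) (le_trans (le_of_eq (by ring)) (le_trans k3p (le_of_eq (by ring)))) hdpos

end C2OptAux

open C2OptAux

/-- one inequality; `E_c` is the indicator of `r`, `I_c` the indicator of `i` -/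
theorem regOK_sound {u1 u2 u3 C16 D e1 e2 e3 i1 i2 i3 ur ui W R1 R2 R3 mult : ℕ} {pos : Bool}
    (h : regOK u1 u2 u3 C16 D e1 e2 e3 i1 i2 i3 ur ui W R1 R2 R3 mult pos = true)
    (hu1 : 0 < u1) (hu2 : 0 < u2) (hu3 : 0 < u3) (M p : ℕ) (a1 a2 a3 : ℤ)
    (hM : 16 * M ≤ C16 * p ^ 2) (h1 : 0 ≤ a1) (h2 : 0 ≤ a2) (h3 : 0 ≤ a3)
    (ha : u1 * a1 ^ 2 + u2 * a2 ^ 2 + u3 * a3 ^ 2 = (M : ℤ))
    (hi : (ui * p : ℤ) ≤ i1 * a1 + i2 * a2 + i3 * a3) :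
    (bif pos then (1 : ℤ) else -1) * ((D : ℤ) * (e1 * a1 + e2 * a2 + e3 * a3)
      - 256 * ((W : ℤ) - 32768) * (((R1 : ℤ) - 32768) * a1 + ((R2 : ℤ) - 32768) * a2
        + ((R3 : ℤ) - 32768) * a3)) ≤ D * (ur * p) :=
  regP_sound (regP_of h) hu1 hu2 hu3 M p a1 a2 a3 hM h1 h2 h3 ha hi

theorem optOK_sound {u1 u2 u3 C16 i1 i2 i3 ui s : ℕ} (h : optOK u1 u2 u3 C16 i1 i2 i3 ui s = true)
    (hu1 : 0 < u1) (hu2 : 0 < u2) (hu3 : 0 < u3) (M p : ℕ) (a1 a2 a3 : ℤ)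
    (hM : 16 * M ≤ C16 * p ^ 2) (h1 : 0 ≤ a1) (h2 : 0 ≤ a2) (h3 : 0 ≤ a3)
    (ha : u1 * a1 ^ 2 + u2 * a2 ^ 2 + u3 * a3 ^ 2 = (M : ℤ))
    (hi : (ui * p : ℤ) ≤ i1 * a1 + i2 * a2 + i3 * a3)
    (hd : (bits s 0 65535 : ℤ) ∣ (((bits s 16 65535 : ℤ) - 32768) * a1
      + ((bits s 32 65535 : ℤ) - 32768) * a2 + ((bits s 48 65535 : ℤ) - 32768) * a3)) :
    BoxRep u1 u2 u3 M p :=
  optP_sound (optP_of h) hu1 hu2 hu3 M p a1 a2 a3 hM h1 h2 h3 ha hi hd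

lemma optOK_pos {u1 u2 u3 C16 i1 i2 i3 ui s : ℕ} (h : optOK u1 u2 u3 C16 i1 i2 i3 ui s = true) :
    0 < bits s 0 65535 :=
  (optP_of h).1

end Pool.H94.Pol
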