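import Pool.Agent.H94.Pol.C2Opt
import Pool.Agent.H94.Pol.C1Sound

/-!
Soundness of the families and the box theorem.
-/

namespace Pool.H94.Pol

private lemma c2s_natrec (F : ℕ → Bool) (n : ℕ)
    (h : (Nat.rec (motive := fun _ => Bool) true (fun x ih => an ih (F x)) n : Bool) = true) :
    ∀ x < n, F x = true := by
  induction n with
  | zero =>
    intro x hx
    omega
  | succ n ih =>
    have h' : an (Nat.rec (motive := fun _ => Bool) true (fun x ih => an ih (F x)) n) (F n) =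
      true := h
    rw [an_eq_true] at h'
    intro x hx
    rcases Nat.lt_succ_iff_lt_or_eq.1 hx with h1 | rfl
    · exact ih h'.1 x h1
    · exact h'.2

private lemma c2s_listrec {α : Type} (F : α → Bool) (L : List α)
    (h : (List.rec (motive := fun _ => Bool) true (fun c _ ih => an (F c) ih) L : Bool) = true) :
    ∀ c ∈ L, F c = true := by
  induction L with
  | nil => simp
  | cons a L ih =>
    have h' : an (F a) (List.rec (motive := fun _ => Bool) true (fun c _ ih => an (F c) ih) L) =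
      true := h
    rw [an_eq_true] at h'
    intro c hc
    rcases List.mem_cons.1 hc with rfl | h1
    · exact h'.1
    · exact ih h'.2 c h1

private lemma c2s_mod (M mM rM : ℕ) (hM : M % mM = rM) : (mM : ℤ) ∣ (M : ℤ) - rM := by
  rw [← hM]
  refine ⟨((M / mM : ℕ) : ℤ), ?_⟩
  have h := Nat.div_add_mod M mM
  have h2 : ((mM * (M / mM) + M % mM : ℕ) : ℤ) = M := by rw [h]
  push_cast at h2 ⊢
  linarith

/-- the reduction to a region -/
private lemma c2s_big {u a p M C16 : ℕ} (h : ¬ a ≤ p * u) (hle : u * a ^ 2 ≤ M) (hu : 0 < u)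
    (hM : 16 * M ≤ C16 * p ^ 2) : ¬ C16 ≤ 16 * u ^ 3 := by
  intro hc
  push Not at h
  have h1 : (p * u) ^ 2 < a ^ 2 := Nat.pow_lt_pow_left h (by norm_num)
  have h2 : u * (p * u) ^ 2 < u * a ^ 2 := Nat.mul_lt_mul_of_pos_left h1 hu
  have h3 : C16 * p ^ 2 ≤ 16 * u ^ 3 * p ^ 2 := Nat.mul_le_mul_right _ hc
  have h4 : 16 * u ^ 3 * p ^ 2 = 16 * (u * (p * u) ^ 2) := by ring
  omega

theorem famC2_sound {u1 u2 u3 C16 i1 i2 i3 ui opts n : ℕ} {L : List (ℕ × ℕ × ℕ)}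
    (hu1 : 0 < u1) (hu2 : 0 < u2) (hu3 : 0 < u3)
    (h : famC2 u1 u2 u3 C16 i1 i2 i3 ui opts n L = true) :
    ∀ c ∈ L, CosF u1 u2 u3 C16 i1 i2 i3 ui c := by
  unfold famC2 at h
  rw [an_eq_true] at h
  obtain ⟨hopts, hL⟩ := h
  have hopts' := c2s_natrec _ _ hopts
  have hL' := c2s_listrec _ _ hL
  rintro ⟨mM, rM, cert⟩ hc h288 M p a1 a2 a3 hM h16 g1 g2 g3 ha hi
  have h1 := hL' _ hc
  unfold cosC2 at h1
  rw [Nat.beq_eq] at h1
  have hrt' := h1 ▸ Nat.one_ne_zero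
  refine rt_sound _ _ (fun x y z : ℤ => (u1 * x ^ 2 + u2 * y ^ 2 + u3 * z ^ 2 = (M : ℤ)) ∧
    0 ≤ x ∧ 0 ≤ y ∧ 0 ≤ z ∧ (ui * p : ℤ) ≤ i1 * x + i2 * y + i3 * z)
    (fun _ _ _ => BoxRep u1 u2 u3 M p) ?_ ?_ _ _ _ _ _ _ _ _ Nat.one_pos Nat.one_pos
    Nat.one_pos hrt' a1 a2 a3 (by simp) (by simp) (by simp) ⟨ha, g1, g2, g3, hi⟩
  · intro m1 r1 m2 r2 m3 r3 _ _ _ he x y z h1 h2 h3 hP
    have h4 := exOK_sound he x y z M h1 h2 h3 (c2s_mod M mM rM hM)
    refine h4 ?_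
    have e1 : (((nat_lit 1) : ℕ) : ℤ) = 1 := rfl
    have e0 : (((nat_lit 0) : ℕ) : ℤ) = 0 := rfl
    rw [e1, e0]
    linarith [hP.1]
  · intro o m1 r1 m2 r2 m3 r3 _ _ _ hkl x y z h1 h2 h3 hP
    rw [an_eq_true] at hkl
    obtain ⟨ho, hkl⟩ := hkl
    have ho' : o < n := by
      have : Nat.ble (Nat.succ o) n = true := ho
      exact Nat.le_of_ble_eq_true this
    have hop := hopts' o ho'
    have hd := rowOK_sound (optOK_pos hop) hkl x y z h1 h2 h3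
    have e1 : (((nat_lit 1) : ℕ) : ℤ) = 1 := rfl
    rw [e1, one_mul] at hd
    exact optOK_sound hop hu1 hu2 hu3 M p x y z h16 hP.2.1 hP.2.2.1 hP.2.2.2.1 hP.1
      hP.2.2.2.2 hd

theorem Fam_of {u1 u2 u3 C16 i1 i2 i3 ui tbl : ℕ} (L : List (ℕ × ℕ × ℕ))
    (hcov : covOK tbl (L.map fun c => (c.1, c.2.1)) = true)
    (h : ∀ c ∈ L, CosF u1 u2 u3 C16 i1 i2 i3 ui c) : Fam u1 u2 u3 C16 i1 i2 i3 ui tbl := by
  intro M p a1 a2 a3 hT hM g1 g2 g3 ha hi
  obtain ⟨c, hc, h1, h2⟩ := covOK_sound hcov M hT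
  obtain ⟨c', hc', rfl⟩ := List.mem_map.1 hc
  exact h c' hc' h1 M p a1 a2 a3 h2 hM g1 g2 g3 ha hi

/-- a solution outside the box is outside for some coordinate `i`; then `u_i^3 p^2 < M`, and
`|a|` is in the region `i`. -/
theorem T2_of {u1 u2 u3 C16 tbl : ℕ} (hu1 : 0 < u1) (hu2 : 0 < u2) (hu3 : 0 < u3)
    (h1 : C16 ≤ 16 * u1 ^ 3 ∨ Fam u1 u2 u3 C16 1 0 0 u1 tbl)
    (h2 : C16 ≤ 16 * u2 ^ 3 ∨ Fam u1 u2 u3 C16 0 1 0 u2 tbl)
    (h3 : C16 ≤ 16 * u3 ^ 3 ∨ Fam u1 u2 u3 C16 0 0 1 u3 tbl) : T2 u1 u2 u3 C16 tbl := by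
  intro M p hT hM hR
  obtain ⟨a1, a2, a3, ha⟩ := hR
  have ha' : (u1 : ℤ) * |a1| ^ 2 + u2 * |a2| ^ 2 + u3 * |a3| ^ 2 = (M : ℤ) := by
    rw [sq_abs, sq_abs, sq_abs]
    exact ha
  have haN : u1 * a1.natAbs ^ 2 + u2 * a2.natAbs ^ 2 + u3 * a3.natAbs ^ 2 = M := by
    have : ((u1 * a1.natAbs ^ 2 + u2 * a2.natAbs ^ 2 + u3 * a3.natAbs ^ 2 : ℕ) : ℤ) = M := by
      push_cast [Int.natCast_natAbs]
      exact ha'
    exact_mod_cast this
  have hcast : ∀ a : ℤ, ∀ u : ℕ, a.natAbs ≤ p * u → |a| ≤ (p : ℤ) * u := by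
    intro a u h
    rw [← Int.natCast_natAbs]
    exact_mod_cast h
  have hcast2 : ∀ a : ℤ, ∀ u : ℕ, ¬ a.natAbs ≤ p * u → (u : ℤ) * p ≤ |a| := by
    intro a u h
    push Not at h
    rw [← Int.natCast_natAbs]
    have h2 : u * p ≤ a.natAbs := by rw [mul_comm]; exact h.le
    exact_mod_cast h2
  by_cases b1 : a1.natAbs ≤ p * u1
  · by_cases b2 : a2.natAbs ≤ p * u2
    · by_cases b3 : a3.natAbs ≤ p * u3
      · exact ⟨a1, a2, a3, ha, hcast _ _ b1, hcast _ _ b2, hcast _ _ b3⟩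
      · have h4 := c2s_big b3 (by rw [← haN]; exact Nat.le_add_left _ _) hu3 hM
        refine (h3.resolve_left h4) M p |a1| |a2| |a3| hT hM (abs_nonneg _) (abs_nonneg _)
          (abs_nonneg _) ha' ?_
        have h5 := hcast2 _ _ b3
        push_cast
        linarith
    · have h4 := c2s_big b2 (by
        rw [← haN]
        exact (Nat.le_add_left _ _).trans (Nat.le_add_right _ _)) hu2 hM
      refine (h2.resolve_left h4) M p |a1| |a2| |a3| hT hM (abs_nonneg _) (abs_nonneg _)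
        (abs_nonneg _) ha' ?_
      have h5 := hcast2 _ _ b2
      push_cast
      linarith
  · have h4 := c2s_big b1 (by
      rw [← haN]
      exact (Nat.le_add_right _ _).trans (Nat.le_add_right _ _)) hu1 hM
    refine (h1.resolve_left h4) M p |a1| |a2| |a3| hT hM (abs_nonneg _) (abs_nonneg _)
      (abs_nonneg _) ha' ?_
    have h5 := hcast2 _ _ b1
    push_cast
    linarith

end Pool.H94.Pol
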