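import Mathlib

/-!
Two-adic and three-adic roots of `e^3 - e = 6 N`.

Two-adic: `e = 2 m`, `e^3 - e = 2 (4 m^3 - m)`: the map `m ↦ 4 m^3 - m` is injective, hence
surjective, on `ZMod (2^n)` (the difference factors with a unit).
Three-adic: `e = X + lam (c + 3 m)`; with `t = X + lam c`, `e^3 - e = t^3 - t + 3 lam m (3 t^2 - 1)
+ 27 t lam^2 m^2 + 27 lam^3 m^3` and `3 ∣ t^3 - t`: divide by `3`, the map in `m` is injective on
`ZMod (3^n)`.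
-/

namespace Pool.H94.Pol

lemma roots_nil (p n : ℕ) (w : ZMod (p ^ n)) : IsNilpotent ((p : ZMod (p ^ n)) * w) := by
  refine ⟨n, ?_⟩
  rw [mul_pow]
  have h : (p : ZMod (p ^ n)) ^ n = 0 := by
    have h2 := ZMod.natCast_self (p ^ n)
    push_cast at h2
    exact h2
  rw [h, zero_mul]

theorem root_two (N n : ℕ) :
    ∃ E : ℕ, E % 2 = 0 ∧ (2 : ℤ) ^ n ∣ (E : ℤ) ^ 3 - E - 6 * N := by
  have hinj : Function.Injective (fun m : ZMod (2 ^ n) => 4 * m ^ 3 - m) := by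
    intro m m' h
    have h1 : (m - m') * ((2 : ℕ) * (2 * (m ^ 2 + m * m' + m' ^ 2)) - 1) = 0 := by
      push_cast
      have h2 : 4 * m ^ 3 - m = 4 * m' ^ 3 - m' := h
      linear_combination h2
    have hu : IsUnit (((2 : ℕ) : ZMod (2 ^ n)) * (2 * (m ^ 2 + m * m' + m' ^ 2)) - 1) :=
      (roots_nil 2 n _).isUnit_sub_one
    have h3 := (hu.mul_left_eq_zero).1 h1
    exact sub_eq_zero.1 h3
  have : NeZero (2 ^ n) := ⟨by positivity⟩
  obtain ⟨m, hm⟩ := (Finite.injective_iff_surjective.1 hinj) (3 * N)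
  refine ⟨2 * m.val, by omega, ?_⟩
  have h4 : (2 : ℤ) ^ n ∣ 4 * (m.val : ℤ) ^ 3 - m.val - 3 * N := by
    have h5 : ((4 * (m.val : ℤ) ^ 3 - m.val - 3 * N : ℤ) : ZMod (2 ^ n)) = 0 := by
      push_cast
      rw [ZMod.natCast_zmod_val]
      have h6 : 4 * m ^ 3 - m = 3 * N := hm
      rw [h6, sub_self]
    have h7 := (ZMod.intCast_zmod_eq_zero_iff_dvd _ _).1 h5
    push_cast at h7
    exact h7
  push_cast
  have h8 : (2 * (m.val : ℤ)) ^ 3 - 2 * (m.val : ℤ) - 6 * N =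
      (4 * (m.val : ℤ) ^ 3 - m.val - 3 * N) * 2 := by ring
  rw [h8]
  exact Dvd.dvd.mul_right h4 2

theorem root_three (N X lam c n : ℕ) (hl : ¬ 3 ∣ lam) :
    ∃ z : ℕ, z % 3 = c % 3 ∧
      (3 : ℤ) ^ n ∣ ((X : ℤ) + lam * z) ^ 3 - ((X : ℤ) + lam * z) - 6 * N := by
  have hlu : IsUnit (lam : ZMod (3 ^ n)) := by
    rw [ZMod.isUnit_iff_coprime]
    exact Nat.Coprime.pow_right n ((Nat.Prime.coprime_iff_not_dvd Nat.prime_three).2 hl).symm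
  obtain ⟨u, hu⟩ : (3 : ℤ) ∣ ((X : ℤ) + lam * c) ^ 3 - ((X : ℤ) + lam * c) := by
    generalize (X : ℤ) + lam * c = t
    have h1 : t ^ 3 - t = (t - 1) * t * (t + 1) := by ring
    rw [h1]
    have h2 : t % 3 = 0 ∨ t % 3 = 1 ∨ t % 3 = 2 := by omega
    rcases h2 with h2 | h2 | h2
    · exact Dvd.dvd.mul_right (Dvd.dvd.mul_left (Int.dvd_of_emod_eq_zero h2) _) _
    · exact Dvd.dvd.mul_right (Dvd.dvd.mul_right (Int.dvd_of_emod_eq_zero (by omega)) _) _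
    · exact Dvd.dvd.mul_left (Int.dvd_of_emod_eq_zero (by omega)) _
  have hinj : Function.Injective (fun m : ZMod (3 ^ n) =>
      (lam : ZMod (3 ^ n)) * m * (3 * ((X : ZMod (3 ^ n)) + lam * c) ^ 2 - 1)
        + 9 * ((X : ZMod (3 ^ n)) + lam * c) * lam ^ 2 * m ^ 2 + 9 * lam ^ 3 * m ^ 3) := by
    intro m m' h
    have h1 : (m - m') * (((3 : ℕ) : ZMod (3 ^ n)) * (lam * ((X : ZMod (3 ^ n)) + lam * c) ^ 2
        + 3 * ((X : ZMod (3 ^ n)) + lam * c) * lam ^ 2 * (m + m')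
        + 3 * lam ^ 3 * (m ^ 2 + m * m' + m' ^ 2)) - lam) = 0 := by
      push_cast
      have h2 : (lam : ZMod (3 ^ n)) * m * (3 * ((X : ZMod (3 ^ n)) + lam * c) ^ 2 - 1)
        + 9 * ((X : ZMod (3 ^ n)) + lam * c) * lam ^ 2 * m ^ 2 + 9 * lam ^ 3 * m ^ 3 =
        (lam : ZMod (3 ^ n)) * m' * (3 * ((X : ZMod (3 ^ n)) + lam * c) ^ 2 - 1)
        + 9 * ((X : ZMod (3 ^ n)) + lam * c) * lam ^ 2 * m' ^ 2 + 9 * lam ^ 3 * m' ^ 3 := h
      linear_combination h2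
    have hu2 : IsUnit (((3 : ℕ) : ZMod (3 ^ n)) * (lam * ((X : ZMod (3 ^ n)) + lam * c) ^ 2
        + 3 * ((X : ZMod (3 ^ n)) + lam * c) * lam ^ 2 * (m + m')
        + 3 * lam ^ 3 * (m ^ 2 + m * m' + m' ^ 2)) - lam) := by
      rw [sub_eq_add_neg]
      exact (roots_nil 3 n _).isUnit_add_right_of_commute hlu.neg (Commute.all _ _)
    have h3 := (hu2.mul_left_eq_zero).1 h1
    exact sub_eq_zero.1 h3
  have : NeZero (3 ^ n) := ⟨by positivity⟩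
  obtain ⟨m, hm⟩ := (Finite.injective_iff_surjective.1 hinj) (2 * N - u)
  refine ⟨c + 3 * m.val, by omega, ?_⟩
  have h4 : (3 : ℤ) ^ n ∣ (lam : ℤ) * m.val * (3 * ((X : ℤ) + lam * c) ^ 2 - 1)
      + 9 * ((X : ℤ) + lam * c) * lam ^ 2 * (m.val : ℤ) ^ 2 + 9 * lam ^ 3 * (m.val : ℤ) ^ 3
      + u - 2 * N := by
    have h5 : (((lam : ℤ) * m.val * (3 * ((X : ℤ) + lam * c) ^ 2 - 1)
      + 9 * ((X : ℤ) + lam * c) * lam ^ 2 * (m.val : ℤ) ^ 2 + 9 * lam ^ 3 * (m.val : ℤ) ^ 3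
      + u - 2 * N : ℤ) : ZMod (3 ^ n)) = 0 := by
      push_cast
      rw [ZMod.natCast_zmod_val]
      linear_combination hm
    have h7 := (ZMod.intCast_zmod_eq_zero_iff_dvd _ _).1 h5
    push_cast at h7
    exact h7
  push_cast
  have h8 : ((X : ℤ) + lam * (c + 3 * (m.val : ℤ))) ^ 3 - ((X : ℤ) + lam * (c + 3 * (m.val : ℤ)))
      - 6 * N = ((lam : ℤ) * m.val * (3 * ((X : ℤ) + lam * c) ^ 2 - 1)
      + 9 * ((X : ℤ) + lam * c) * lam ^ 2 * (m.val : ℤ) ^ 2 + 9 * lam ^ 3 * (m.val : ℤ) ^ 3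
      + u - 2 * N) * 3 := by linear_combination hu
  rw [h8]
  exact Dvd.dvd.mul_right h4 3

end Pool.H94.Pol
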