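import Pool.Agent.H94.Pol.Run
import Pool.Agent.H94.Pol.Roots
import Pool.Agent.H94.Pol.BaseRange

/-!
From the cells to the theorem.
-/

namespace Pool.H94.Pol

theorem env_exists (N : ℕ) (hN : 8 ^ 20 ≤ N) : ∃ K X W yv z0 z1 z2 : ℕ,
    Env N K X W yv z0 z1 z2 ∧ 8 ^ K ≤ N ∧ z0 % 3 = 0 ∧ z1 % 3 = 1 ∧ z2 % 3 = 2 := by
  have hN0 : N ≠ 0 := by
    have : 0 < 8 ^ 20 := by positivity
    omega
  set K : ℕ := Nat.log 8 N with hK
  have hK1 : 8 ^ K ≤ N := Nat.pow_log_le_self 8 hN0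
  have hK2 : N < 8 ^ (K + 1) := Nat.lt_pow_succ_log_self (by norm_num) N
  have hK20 : 20 ≤ K := Nat.le_log_of_pow_le (by norm_num) hN
  obtain ⟨E, hE1, hE2⟩ := root_two N (K + 11)
  set L : ℕ := 2 ^ (K + 1) with hL
  have hLpos : 0 < L := by positivity
  have hLcast : (L : ℤ) = 2 ^ (K + 1) := by rw [hL]; push_cast; rfl
  have hL2 : 2 ∣ L := by rw [hL, pow_succ]; exact Dvd.intro_left _ rfl
  have hL3 : ¬ 3 ∣ L := by
    intro h
    have := (Nat.prime_three.dvd_of_dvd_pow h)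
    omega
  have hEd : E % L + L * (E / L) = E := Nat.mod_add_div E L
  obtain ⟨z0, hz0, hd0⟩ := root_three N (E % L) L 0 20 hL3
  obtain ⟨z1, hz1, hd1⟩ := root_three N (E % L) L 1 20 hL3
  obtain ⟨z2, hz2, hd2⟩ := root_three N (E % L) L 2 20 hL3
  refine ⟨K, E % L, E / L, (E % L) * L, z0, z1, z2, ?_, hK1, by omega, by omega, by omega⟩
  have hEcast : ((E % L : ℕ) : ℤ) + 2 ^ (K + 1) * ((E / L : ℕ) : ℤ) = E := by
    rw [← hLcast]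
    exact_mod_cast hEd
  refine ⟨hK20, hK2, Nat.mod_lt _ hLpos, ?_, ?_, ?_, ?_, ?_, ?_⟩
  · rw [Nat.mod_mod_of_dvd _ hL2]
    exact hE1
  · rw [hEcast]
    exact hE2
  · have h4 : (3 : ℤ) ∣ 4 ^ (K + 1) - 1 := by
      have := sub_dvd_pow_sub_pow (4 : ℤ) 1 (K + 1)
      rw [one_pow] at this
      exact (by norm_num : (3 : ℤ) ∣ 4 - 1).trans this
    have h5 : ((E % L : ℕ) : ℤ) - 2 ^ (K + 1) * (((E % L) * L : ℕ) : ℤ) =
        (4 ^ (K + 1) - 1) * (-((E % L : ℕ) : ℤ)) := by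
      have h6 : (4 : ℤ) ^ (K + 1) = 2 ^ (K + 1) * 2 ^ (K + 1) := by
        rw [← mul_pow]
        norm_num
      rw [Nat.cast_mul, hLcast, h6]
      ring
    rw [h5]
    exact Dvd.dvd.mul_right h4 _
  · rw [← hLcast]
    exact hd0
  · rw [← hLcast]
    exact hd1
  · rw [← hLcast]
    exact hd2

/-- `bp`: break points, `bp 0 ≤ 2^24`, `8 2^24 ≤ bp 32` -/
theorem final_of {DB : ℕ} (hDB : DBOK DB) (bp : ℕ → ℕ) (h0 : bp 0 ≤ 2 ^ 24) (h32 : 2 ^ 27 ≤ bp 32)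
    (hc : ∀ i < 32, ∀ ph < 32, ∃ cert, cell DB (bp i) (bp (i + 1) + 1) 5 ph cert = true) (N : ℕ) :
    Rep7 N := by
  rcases Nat.lt_or_ge N (8 ^ 20) with hN | hN
  · exact base_range N hN
  obtain ⟨K, X, W, yv, z0, z1, z2, he, hK, hz0, hz1, hz2⟩ := env_exists N hN
  have h8 : 0 < 8 ^ K := by positivity
  set ρ : ℕ := N * 2 ^ 24 / 8 ^ K with hρ
  have hρ1 : ρ * 8 ^ K ≤ N * 2 ^ 24 := Nat.div_mul_le_self _ _
  have hρ2 : N * 2 ^ 24 < (ρ + 1) * 8 ^ K := by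
    rw [hρ, mul_comm _ (8 ^ K)]
    exact Nat.lt_mul_div_succ _ h8
  have hρ3 : 2 ^ 24 ≤ ρ := by
    rw [hρ, Nat.le_div_iff_mul_le h8]
    calc 2 ^ 24 * 8 ^ K ≤ 2 ^ 24 * N := Nat.mul_le_mul_left _ hK
      _ = N * 2 ^ 24 := Nat.mul_comm _ _
  have hρ4 : ρ < 2 ^ 27 := by
    rw [hρ, Nat.div_lt_iff_lt_mul h8]
    have h1 := he.hN
    calc N * 2 ^ 24 < 8 ^ (K + 1) * 2 ^ 24 := Nat.mul_lt_mul_of_pos_right h1 (by positivity)
      _ = 2 ^ 27 * 8 ^ K := by ring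
  -- the cell of `N`
  have hex : ∃ j, ρ < bp j := ⟨32, lt_of_lt_of_le hρ4 h32⟩
  classical
  have hj1 := Nat.find_spec hex
  have hj2 : Nat.find hex ≤ 32 := Nat.find_min' hex (lt_of_lt_of_le hρ4 h32)
  have hj0 : Nat.find hex ≠ 0 := by
    intro h
    rw [h] at hj1
    omega
  obtain ⟨i, hi⟩ := Nat.exists_eq_succ_of_ne_zero hj0
  rw [hi] at hj1 hj2
  have hi1 : bp i ≤ ρ := by
    have := Nat.find_min hex (m := i) (by omega)
    omega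
  -- the cell of `X`
  have hX := he.hX
  have h2 : 0 < 2 ^ (K + 1) := by positivity
  set ph : ℕ := X * 2 ^ 5 / 2 ^ (K + 1) with hph
  have hp1 : ph * 2 ^ (K + 1) ≤ X * 2 ^ 5 := Nat.div_mul_le_self _ _
  have hp2 : X * 2 ^ 5 < (ph + 1) * 2 ^ (K + 1) := by
    rw [hph, mul_comm _ (2 ^ (K + 1))]
    exact Nat.lt_mul_div_succ _ h2
  have hp3 : ph < 32 := by
    rw [hph, Nat.div_lt_iff_lt_mul h2]
    calc X * 2 ^ 5 < 2 ^ (K + 1) * 2 ^ 5 := Nat.mul_lt_mul_of_pos_right hX (by positivity)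
      _ = 32 * 2 ^ (K + 1) := by ring
  obtain ⟨cert, hcert⟩ := hc i (by omega) ph hp3
  refine cell_sound hDB he hz0 hz1 hz2 ?_ ?_ hp1 hp2 hcert
  · exact (Nat.mul_le_mul_right _ hi1).trans hρ1
  · refine (le_of_lt hρ2).trans (Nat.mul_le_mul_right _ ?_)
    have h5 : ρ < bp (i + 1) := hj1
    omega

end Pool.H94.Pol
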