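import Pool.Agent.H94.Pol.Opt

/-!
The window. Put `a = K - q`, `H = 2^(a+1)`, `R = T - q`, `f = ph % 2^R`, `X' = j 2^R + f`,
`P8 = 27^b 8^R`. From `ph 2^(K+1) ≤ X 2^T < (ph + 1) 2^(K+1)`: `kk = ph / 2^R` and
`X' H ≤ x 2^R < (X' + 1) H`.

Lower bound: `2^24 8^R (x^3 + 2 p^3 S3) ≤ 2 8^a 2^24 (4 (X' + 1)^3 + P8 S3) ≤ 2 8^a 3 n1 8^T
= 6 n1 8^K 8^R ≤ 6 N 2^24 8^R`, hence `x^3 + 2 p^3 S3 ≤ 6 N`.
Upper bound: `2^24 8^R (16 x^3 + p^3 (32 S3 + 6 C16)) ≥ 2 8^a 2^24 (64 X'^3 + P8 (16 S3 + 3 C16))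
≥ 2 8^a 48 (n2 + 1) 8^T = 96 n2 8^K 8^R + 96 8^K 8^R ≥ 96 N 2^24 8^R + 96 8^K 8^R`, and
`16 2^24 (x + 2 p Su) ≤ 96 8^K`: indeed `x ≤ 4 2^K` (`x^3 ≤ 6 N < 6 8^(K+1)`) and `p Su ≤ 6 2^K`
(`Su^3 ≤ 9 S3`, `(p Su)^3 ≤ 9 p^3 S3 ≤ 27 N ≤ 216 8^K`), `K ≥ 20`.
So `16 TT = 16 (6 N + x + 2 p Su) - 16 x^3 - 32 p^3 S3 ≤ 6 C16 p^3`.
-/

namespace Pool.H94.Pol

/-- scaled position of `X` -/
lemma geo_scale {K X T ph q : ℕ} (hqT : q ≤ T) (hqK : q ≤ K)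
    (hp1 : ph * 2 ^ (K + 1) ≤ X * 2 ^ T) (hp2 : X * 2 ^ T < (ph + 1) * 2 ^ (K + 1)) :
    ph * 2 ^ (K - q + 1) ≤ X * 2 ^ (T - q) ∧ X * 2 ^ (T - q) < (ph + 1) * 2 ^ (K - q + 1) := by
  obtain ⟨a, rfl⟩ := Nat.exists_eq_add_of_le hqK
  obtain ⟨R, rfl⟩ := Nat.exists_eq_add_of_le hqT
  rw [Nat.add_sub_cancel_left, Nat.add_sub_cancel_left]
  have h1 : (2 : ℕ) ^ (q + a + 1) = 2 ^ (a + 1) * 2 ^ q := by rw [← pow_add]; congr 1; omega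
  have h2 : (2 : ℕ) ^ (q + R) = 2 ^ R * 2 ^ q := by rw [← pow_add]; congr 1; omega
  rw [h1, h2, ← mul_assoc, ← mul_assoc] at hp1 hp2
  have hq : 0 < (2 : ℕ) ^ q := by positivity
  exact ⟨Nat.le_of_mul_le_mul_right hp1 hq, Nat.lt_of_mul_lt_mul_right hp2⟩

theorem kk_eq {K X T ph q : ℕ} (hqT : q ≤ T) (hqK : q ≤ K)
    (hp1 : ph * 2 ^ (K + 1) ≤ X * 2 ^ T) (hp2 : X * 2 ^ T < (ph + 1) * 2 ^ (K + 1)) :
    kk K X q = ph / 2 ^ (T - q) := by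
  obtain ⟨h1, h2⟩ := geo_scale hqT hqK hp1 hp2
  unfold kk
  have hR : 0 < (2 : ℕ) ^ (T - q) := by positivity
  have hH : 0 < (2 : ℕ) ^ (K - q + 1) := by positivity
  generalize (2 : ℕ) ^ (T - q) = t at *
  generalize (2 : ℕ) ^ (K - q + 1) = H at *
  have h3 := Nat.div_mul_le_self ph t
  have h4 : ph + 1 ≤ (ph / t + 1) * t := Nat.lt_mul_of_div_lt (Nat.lt_succ_self _) hR
  generalize ph / t = k at *
  refine Nat.div_eq_of_lt_le ?_ ?_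
  · refine Nat.le_of_mul_le_mul_right (c := t) ?_ hR
    calc k * H * t = k * t * H := by ring
      _ ≤ ph * H := Nat.mul_le_mul_right _ h3
      _ ≤ X * t := h1
  · refine Nat.lt_of_mul_lt_mul_right (a := t) ?_
    calc X * t < (ph + 1) * H := h2
      _ ≤ ((k + 1) * t) * H := Nat.mul_le_mul_right _ h4
      _ = (k + 1) * H * t := by ring

/-- position of `x` -/
lemma geo_x {K X T ph q : ℕ} (j : ℕ) (hqT : q ≤ T) (hqK : q ≤ K)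
    (hp1 : ph * 2 ^ (K + 1) ≤ X * 2 ^ T) (hp2 : X * 2 ^ T < (ph + 1) * 2 ^ (K + 1)) :
    (j * 2 ^ (T - q) + ph % 2 ^ (T - q)) * (2 * 2 ^ (K - q)) ≤ xx K X q j * 2 ^ (T - q) ∧
    xx K X q j * 2 ^ (T - q) ≤ (j * 2 ^ (T - q) + ph % 2 ^ (T - q) + 1) * (2 * 2 ^ (K - q)) := by
  obtain ⟨h1, h2⟩ := geo_scale hqT hqK hp1 hp2
  have hk := kk_eq hqT hqK hp1 hp2
  have h3 := Nat.div_add_mod X (2 ^ (K - q + 1))
  have h4 := Nat.div_add_mod ph (2 ^ (T - q))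
  unfold kk at hk
  rw [hk] at h3
  unfold xx
  clear hk hp1 hp2 hqT hqK
  have hH : (2 : ℕ) ^ (K - q + 1) = 2 * 2 ^ (K - q) := by rw [pow_succ]; ring
  rw [hH] at h1 h2 h3 ⊢
  clear hH
  generalize (2 : ℕ) ^ (T - q) = t at *
  generalize (2 : ℕ) ^ (K - q) = α at *
  generalize ph / t = k at *
  generalize X % (2 * α) = m at *
  generalize ph % t = f at *
  subst h4
  subst h3
  constructor
  · nlinarith [h1, h2]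
  · nlinarith [h1, h2]

/-- the inequalities -/
lemma geo_lower {N α Q t B x Y S3 n1 : ℕ} (ht : 0 < t)
    (hn1 : n1 * (α * Q) ^ 3 ≤ N * 2 ^ 24)
    (hx : x * t ≤ (Y + 1) * (2 * α))
    (hc : (4 * (Y + 1) ^ 3 + B ^ 3 * t ^ 3 * S3) * 2 ^ 24 ≤ 3 * n1 * (t * Q) ^ 3) :
    x ^ 3 + 2 * (α * B) ^ 3 * S3 ≤ 6 * N := by
  have h1 : (x * t) ^ 3 ≤ ((Y + 1) * (2 * α)) ^ 3 := Nat.pow_le_pow_left hx 3
  have h2 := Nat.mul_le_mul_left (2 * α ^ 3) hc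
  have h3 := Nat.mul_le_mul_left (6 * t ^ 3) hn1
  have h4 : t ^ 3 * 2 ^ 24 * (x ^ 3 + 2 * (α * B) ^ 3 * S3) ≤ t ^ 3 * 2 ^ 24 * (6 * N) := by
    calc t ^ 3 * 2 ^ 24 * (x ^ 3 + 2 * (α * B) ^ 3 * S3)
        = 2 ^ 24 * (x * t) ^ 3 + 2 ^ 24 * (2 * (α * B) ^ 3 * t ^ 3 * S3) := by ring
      _ ≤ 2 ^ 24 * ((Y + 1) * (2 * α)) ^ 3 + 2 ^ 24 * (2 * (α * B) ^ 3 * t ^ 3 * S3) := by
          gcongr
      _ = 2 * α ^ 3 * ((4 * (Y + 1) ^ 3 + B ^ 3 * t ^ 3 * S3) * 2 ^ 24) := by ring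
      _ ≤ 2 * α ^ 3 * (3 * n1 * (t * Q) ^ 3) := h2
      _ = 6 * t ^ 3 * (n1 * (α * Q) ^ 3) := by ring
      _ ≤ 6 * t ^ 3 * (N * 2 ^ 24) := h3
      _ = t ^ 3 * 2 ^ 24 * (6 * N) := by ring
  exact Nat.le_of_mul_le_mul_left h4 (by positivity)

lemma geo_upper {N α Q t B x Y S3 C16 n2 : ℕ} (ht : 0 < t)
    (hn2 : N * 2 ^ 24 ≤ n2 * (α * Q) ^ 3)
    (hx : Y * (2 * α) ≤ x * t)
    (hc : 3 * (n2 + 1) * (t * Q) ^ 3 * 16 ≤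
      (64 * Y ^ 3 + B ^ 3 * t ^ 3 * (16 * S3 + 3 * C16)) * 2 ^ 24) :
    96 * N * 2 ^ 24 + 96 * (α * Q) ^ 3 ≤
      2 ^ 24 * (16 * x ^ 3 + (α * B) ^ 3 * (32 * S3 + 6 * C16)) := by
  have h1 : (Y * (2 * α)) ^ 3 ≤ (x * t) ^ 3 := Nat.pow_le_pow_left hx 3
  have h2 := Nat.mul_le_mul_left (2 * α ^ 3) hc
  have h3 := Nat.mul_le_mul_left (96 * t ^ 3) hn2
  have h4 : t ^ 3 * (96 * N * 2 ^ 24 + 96 * (α * Q) ^ 3) ≤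
      t ^ 3 * (2 ^ 24 * (16 * x ^ 3 + (α * B) ^ 3 * (32 * S3 + 6 * C16))) := by
    calc t ^ 3 * (96 * N * 2 ^ 24 + 96 * (α * Q) ^ 3)
        = 96 * t ^ 3 * (N * 2 ^ 24) + 96 * t ^ 3 * (α * Q) ^ 3 := by ring
      _ ≤ 96 * t ^ 3 * (n2 * (α * Q) ^ 3) + 96 * t ^ 3 * (α * Q) ^ 3 := by gcongr
      _ = 2 * α ^ 3 * (3 * (n2 + 1) * (t * Q) ^ 3 * 16) := by ring
      _ ≤ 2 * α ^ 3 * ((64 * Y ^ 3 + B ^ 3 * t ^ 3 * (16 * S3 + 3 * C16)) * 2 ^ 24) := h2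
      _ = 2 ^ 24 * (16 * (Y * (2 * α)) ^ 3 + t ^ 3 * (α * B) ^ 3 * (32 * S3 + 6 * C16)) := by ring
      _ ≤ 2 ^ 24 * (16 * (x * t) ^ 3 + t ^ 3 * (α * B) ^ 3 * (32 * S3 + 6 * C16)) := by gcongr
      _ = _ := by ring
  exact Nat.le_of_mul_le_mul_left h4 (by positivity)

lemma geo_cube (u1 u2 u3 : ℕ) : (u1 + u2 + u3) ^ 3 ≤ 9 * (u1 ^ 3 + u2 ^ 3 + u3 ^ 3) := by
  have key : ∀ a b c : ℤ, 0 ≤ a → 0 ≤ b → 0 ≤ c →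
      (a + b + c) ^ 3 ≤ 9 * (a ^ 3 + b ^ 3 + c ^ 3) := by
    intro a b c ha hb hc
    nlinarith [mul_nonneg (add_nonneg ha hb) (sq_nonneg (a - b)),
      mul_nonneg (add_nonneg hb hc) (sq_nonneg (b - c)),
      mul_nonneg (add_nonneg ha hc) (sq_nonneg (a - c)),
      mul_nonneg ha (sq_nonneg (b - c)), mul_nonneg hb (sq_nonneg (a - c)),
      mul_nonneg hc (sq_nonneg (a - b)), mul_nonneg ha (sq_nonneg (a - b)),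
      mul_nonneg ha (sq_nonneg (a - c)), mul_nonneg hb (sq_nonneg (a - b)),
      mul_nonneg hb (sq_nonneg (b - c)), mul_nonneg hc (sq_nonneg (a - c)),
      mul_nonneg hc (sq_nonneg (b - c))]
  have h := key u1 u2 u3 (by positivity) (by positivity) (by positivity)
  exact_mod_cast h

lemma geo_small {N K x p Su S3 : ℕ} (hK : 20 ≤ K) (hN : N < 8 ^ (K + 1))
    (h1 : x ^ 3 + 2 * p ^ 3 * S3 ≤ 6 * N) (hS : Su ^ 3 ≤ 9 * S3) :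
    2 ^ 24 * (16 * x + 32 * p * Su) ≤ 96 * 8 ^ K := by
  have h8 : (8 : ℕ) ^ K = (2 ^ K) ^ 3 := by rw [← pow_mul, mul_comm, pow_mul]; norm_num
  have h8' : (8 : ℕ) ^ (K + 1) = 8 * (2 ^ K) ^ 3 := by rw [pow_succ, h8]; ring
  rw [h8'] at hN
  rw [h8]
  have hZ : 2 ^ 20 ≤ 2 ^ K := Nat.pow_le_pow_right (by norm_num) hK
  generalize (2 : ℕ) ^ K = Z at *
  have hx : x ≤ 4 * Z := by
    by_contra h
    push Not at h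
    have h2 : (4 * Z) ^ 3 < x ^ 3 := Nat.pow_lt_pow_left h (by norm_num)
    have h3 : (4 * Z) ^ 3 = 64 * Z ^ 3 := by ring
    omega
  have hp : p * Su ≤ 6 * Z := by
    by_contra h
    push Not at h
    have h2 : (6 * Z) ^ 3 < (p * Su) ^ 3 := Nat.pow_lt_pow_left h (by norm_num)
    have h3 : (6 * Z) ^ 3 = 216 * Z ^ 3 := by ring
    have h4 : (p * Su) ^ 3 ≤ p ^ 3 * (9 * S3) := by
      rw [mul_pow]
      exact Nat.mul_le_mul_left _ hS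
    have h5 : 2 * p ^ 3 * S3 * 9 = 2 * (p ^ 3 * (9 * S3)) := by ring
    omega
  have h6 : 16 * x + 32 * p * Su ≤ 256 * Z := by
    have : 32 * p * Su = 32 * (p * Su) := by ring
    omega
  calc 2 ^ 24 * (16 * x + 32 * p * Su) ≤ 2 ^ 24 * (256 * Z) := Nat.mul_le_mul_left _ h6
    _ = 2 ^ 16 * 2 ^ 16 * Z := by ring
    _ ≤ 2 ^ 20 * 2 ^ 20 * Z := by gcongr <;> norm_num
    _ ≤ Z * Z * Z := by gcongr
    _ ≤ 96 * Z ^ 3 := by nlinarith [Nat.zero_le (Z ^ 3)]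

theorem geo_sound {N K X q b j Su S3 C16 n1 n2 T ph u1 u2 u3 : ℕ} (hK : 20 ≤ K)
    (hN : N < 8 ^ (K + 1)) (hn1 : n1 * 8 ^ K ≤ N * 2 ^ 24) (hn2 : N * 2 ^ 24 ≤ n2 * 8 ^ K)
    (hp1 : ph * 2 ^ (K + 1) ≤ X * 2 ^ T) (hp2 : X * 2 ^ T < (ph + 1) * 2 ^ (K + 1))
    (hq : q ≤ 15) (hqT : q ≤ T) (hSu : Su = u1 + u2 + u3) (hS3 : S3 = u1 ^ 3 + u2 ^ 3 + u3 ^ 3)
    (hg : geo n1 n2 T ph q b j S3 C16 = true) :
    0 ≤ TT N K X q b j Su S3 ∧ 16 * TT N K X q b j Su S3 ≤ 6 * C16 * (pp K q b : ℤ) ^ 3 := by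
  have hqK : q ≤ K := by omega
  obtain ⟨hx1, hx2⟩ := geo_x j hqT hqK hp1 hp2
  have hS : Su ^ 3 ≤ 9 * S3 := by rw [hSu, hS3]; exact geo_cube u1 u2 u3
  have h8K : (8 : ℕ) ^ K = (2 ^ (K - q) * 2 ^ q) ^ 3 := by
    rw [← pow_add, Nat.sub_add_cancel hqK, ← pow_mul, mul_comm, pow_mul]; norm_num
  have h8T : (2 : ℕ) ^ (3 * T) = (2 ^ (T - q) * 2 ^ q) ^ 3 := by
    rw [← pow_add, Nat.sub_add_cancel hqT, ← pow_mul, mul_comm]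
  have h8R : (2 : ℕ) ^ (3 * (T - q)) = (2 ^ (T - q)) ^ 3 := by
    rw [← pow_mul, mul_comm]
  have h27 : (27 : ℕ) ^ b = (3 ^ b) ^ 3 := by rw [← pow_mul, mul_comm, pow_mul]; norm_num
  have hg' : (4 * (j * 2 ^ (T - q) + ph % 2 ^ (T - q) + 1) ^ 3 +
        (3 ^ b) ^ 3 * (2 ^ (T - q)) ^ 3 * S3) * 2 ^ 24 ≤ 3 * n1 * (2 ^ (T - q) * 2 ^ q) ^ 3 ∧
      3 * (n2 + 1) * (2 ^ (T - q) * 2 ^ q) ^ 3 * 16 ≤
        (64 * (j * 2 ^ (T - q) + ph % 2 ^ (T - q)) ^ 3 +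
          (3 ^ b) ^ 3 * (2 ^ (T - q)) ^ 3 * (16 * S3 + 3 * C16)) * 2 ^ 24 := by
    unfold geo at hg
    rw [an_eq_true] at hg
    obtain ⟨ha, hb⟩ := hg
    have ha' := Nat.le_of_ble_eq_true ha
    have hb' := Nat.le_of_ble_eq_true hb
    have hsl : ∀ m k : ℕ, Nat.shiftLeft m k = m * 2 ^ k := fun m k => Nat.shiftLeft_eq m k
    have hmod : ∀ m k : ℕ, Nat.mod m k = m % k := fun m k => rfl
    simp only [Nat.sub_eq, Nat.add_eq, Nat.mul_eq, Nat.pow_eq, Nat.succ_eq_add_one,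
      hsl, hmod, h8R, h27, pow_add, h8T] at ha' hb'
    constructor
    · exact ha'
    · calc _ = 3 * (n2 + 1) * ((2 ^ (T - q) * 2 ^ q) ^ 3 * 2 ^ 4) := by ring
        _ ≤ _ := hb'
  obtain ⟨hc1, hc2⟩ := hg'
  have ht : 0 < (2 : ℕ) ^ (T - q) := by positivity
  rw [h8K] at hn1 hn2
  have e1 := geo_lower ht hn1 hx2 hc1
  have e2 := geo_upper ht hn2 hx1 hc2
  have hpp : pp K q b = 2 ^ (K - q) * 3 ^ b := rfl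
  rw [← hpp] at e1 e2
  have e3 := geo_small hK hN e1 hS
  rw [← h8K] at e2
  unfold TT
  generalize xx K X q j = x at *
  generalize pp K q b = p at *
  have e4 : 96 * N + (16 * x + 32 * p * Su) ≤ 16 * x ^ 3 + p ^ 3 * (32 * S3 + 6 * C16) := by
    have : 2 ^ 24 * (96 * N + (16 * x + 32 * p * Su)) ≤
        2 ^ 24 * (16 * x ^ 3 + p ^ 3 * (32 * S3 + 6 * C16)) := by
      calc 2 ^ 24 * (96 * N + (16 * x + 32 * p * Su))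
          = 96 * N * 2 ^ 24 + 2 ^ 24 * (16 * x + 32 * p * Su) := by ring
        _ ≤ 96 * N * 2 ^ 24 + 96 * 8 ^ K := by gcongr
        _ ≤ _ := e2
    exact Nat.le_of_mul_le_mul_left this (by norm_num)
  have e1' : (x : ℤ) ^ 3 + 2 * (p : ℤ) ^ 3 * S3 ≤ 6 * N := by exact_mod_cast e1
  have e4' : 96 * (N : ℤ) + (16 * x + 32 * p * Su) ≤
      16 * (x : ℤ) ^ 3 + (p : ℤ) ^ 3 * (32 * S3 + 6 * C16) := by exact_mod_cast e4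
  have hx0 : (0 : ℤ) ≤ x := Nat.cast_nonneg x
  have hp0 : (0 : ℤ) ≤ (p : ℤ) * Su := by positivity
  constructor
  · linarith
  · linarith

end Pool.H94.Pol
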