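import Mathlib

/-!
Kernel friendly primitives and the residue tree engine.
-/

namespace Pool.H94.Pol

/-- `if c then t else e`, evaluated quickly by the kernel. -/
def cd {α : Type} (c : Bool) (t e : α) : α := Bool.rec e t c

/-- conjunction -/
def an (x y : Bool) : Bool := Bool.rec false y x

@[simp] lemma cd_true {α : Type} (t e : α) : cd true t e = t := rfl
@[simp] lemma cd_false {α : Type} (t e : α) : cd false t e = e := rfl
@[simp] lemma an_eq_true (x y : Bool) : (an x y = true) ↔ (x = true ∧ y = true) := by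
  cases x <;> cases y <;> simp [an]

/-- continue with the rest of the certificate unless the first part failed -/
noncomputable def bd (r : ℕ) (k : ℕ → ℕ) : ℕ :=
  Nat.rec (motive := fun _ => ℕ) (nat_lit 0) (fun m _ => k m) r

@[simp] lemma bd_zero (k : ℕ → ℕ) : bd 0 k = 0 := rfl
@[simp] lemma bd_succ (m : ℕ) (k : ℕ → ℕ) : bd (m + 1) k = k m := rfl

lemma bd_ne_zero {r : ℕ} {k : ℕ → ℕ} (h : bd r k ≠ 0) : ∃ m, r = m + 1 ∧ k m ≠ 0 := by
  cases r with
  | zero => exact absurd rfl h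
  | succ m => exact ⟨m, rfl, h⟩

/-- run `f 0, f 1, ..., f (p - 1)`, passing the rest of the certificate -/
noncomputable def lp (p : ℕ) (f : ℕ → ℕ → ℕ) (c : ℕ) : ℕ :=
  Nat.rec (motive := fun _ => ℕ) (Nat.succ c) (fun n ih => bd ih (fun r => f n r)) p

/-- bits of `x` from position `off` on, `mask = 2 ^ width - 1` -/
def bits (x off mask : ℕ) : ℕ := Nat.land (Nat.shiftRight x off) mask

/-- Residue tree: `x_c` is known modulo `m_c` (residue `r_c`), `c = 1, 2, 3`.
Tokens (4 bits, low bits first): `t < 12`: split coordinate `t / 4` by the prime number with index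
`t % 4` among `2, 3, 5, 7`; `12`: excluded; `13`: option (8 more bits).
Value: `0` failure, `r + 1` success with the rest `r` of the certificate. -/
noncomputable def rt (ex : ℕ → ℕ → ℕ → ℕ → ℕ → ℕ → Bool)
    (kl : ℕ → ℕ → ℕ → ℕ → ℕ → ℕ → ℕ → Bool) (fuel : ℕ) :
    ℕ → ℕ → ℕ → ℕ → ℕ → ℕ → ℕ → ℕ :=
  Nat.rec (motive := fun _ => ℕ → ℕ → ℕ → ℕ → ℕ → ℕ → ℕ → ℕ)
    (fun _ _ _ _ _ _ _ => nat_lit 0)
    (fun _ ih m1 r1 m2 r2 m3 r3 cert =>
      (fun t c =>
        cd (Nat.beq t (nat_lit 12)) (cd (ex m1 r1 m2 r2 m3 r3) (Nat.succ c) (nat_lit 0))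
        (cd (Nat.beq t (nat_lit 13))
          (cd (kl (Nat.land c (nat_lit 255)) m1 r1 m2 r2 m3 r3)
            (Nat.succ (Nat.shiftRight c (nat_lit 8))) (nat_lit 0))
          ((fun s p =>
            cd (Nat.beq s (nat_lit 0))
              (lp p (fun i r => ih (Nat.mul m1 p) (Nat.add r1 (Nat.mul i m1)) m2 r2 m3 r3 r) c)
            (cd (Nat.beq s (nat_lit 1))
              (lp p (fun i r => ih m1 r1 (Nat.mul m2 p) (Nat.add r2 (Nat.mul i m2)) m3 r3 r) c)
              (lp p (fun i r => ih m1 r1 m2 r2 (Nat.mul m3 p) (Nat.add r3 (Nat.mul i m3)) r) c)))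
            (Nat.shiftRight t (nat_lit 2))
            ((fun b => cd (Nat.beq b (nat_lit 0)) (nat_lit 2) (cd (Nat.beq b (nat_lit 1)) (nat_lit 3)
              (cd (Nat.beq b (nat_lit 2)) (nat_lit 5) (nat_lit 7)))) (Nat.land t (nat_lit 3))))))
        (Nat.land cert (nat_lit 15)) (Nat.shiftRight cert (nat_lit 4)))
    fuel

end Pool.H94.Pol
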