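import Pool.Agent.H94.Pol.Ker

/-!
Soundness of the residue tree engine.
-/

namespace Pool.H94.Pol

/-- every step of a loop succeeds -/
lemma lp_ne_zero {p : ℕ} {f : ℕ → ℕ → ℕ} {c : ℕ} (h : lp p f c ≠ 0) :
    ∀ i < p, ∃ r, f i r ≠ 0 := by
  induction p with
  | zero => intro i hi; exact absurd hi (Nat.not_lt_zero i)
  | succ p ih =>
    have h1 : bd (lp p f c) (fun r => f p r) ≠ 0 := h
    obtain ⟨m, hm, hm'⟩ := bd_ne_zero h1
    intro i hi
    rcases Nat.lt_succ_iff_lt_or_eq.1 hi with hlt | rfl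
    · exact ih (by rw [hm]; exact Nat.succ_ne_zero m) i hlt
    · exact ⟨m, hm'⟩

lemma ks_split {m p r : ℕ} (hp : 0 < p) {x : ℤ} (h : (m : ℤ) ∣ x - r) :
    ∃ i < p, ((m.mul p : ℕ) : ℤ) ∣ x - ((r.add (i.mul m) : ℕ) : ℤ) := by
  obtain ⟨k, hk⟩ := h
  have hp' : (0 : ℤ) < p := by exact_mod_cast hp
  have h0 := Int.emod_nonneg k hp'.ne'
  have h1 := Int.emod_lt_of_pos k hp'
  refine ⟨(k % p).toNat, by omega, ?_⟩
  have h2 : (((k % p).toNat : ℕ) : ℤ) = k % p := Int.toNat_of_nonneg h0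
  have h3 := Int.emod_add_mul_ediv k p
  refine ⟨k / p, ?_⟩
  show x - ((r + (k % p).toNat * m : ℕ) : ℤ) = ((m * p : ℕ) : ℤ) * (k / p)
  push_cast
  rw [h2]
  have h4 : x = r + m * k := by linarith
  rw [h4]
  have h5 : (m : ℤ) * k = m * (k % p + p * (k / p)) := by rw [h3]
  linear_combination h5

lemma ks_cd_ne_zero {b : Bool} {c : ℕ} (h : cd b c 0 ≠ 0) : b = true := by
  cases b
  · exact absurd rfl h
  · rfl

/-- If the exclusion test refutes `P` on a residue class and the option test proves `C` on a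
residue class, then a successful tree proves `P → C`. -/
theorem rt_sound (ex : ℕ → ℕ → ℕ → ℕ → ℕ → ℕ → Bool) (kl : ℕ → ℕ → ℕ → ℕ → ℕ → ℕ → ℕ → Bool)
    (P C : ℤ → ℤ → ℤ → Prop)
    (hex : ∀ m1 r1 m2 r2 m3 r3 : ℕ, 0 < m1 → 0 < m2 → 0 < m3 → ex m1 r1 m2 r2 m3 r3 = true →
      ∀ x y z : ℤ, (m1 : ℤ) ∣ x - r1 → (m2 : ℤ) ∣ y - r2 → (m3 : ℤ) ∣ z - r3 → ¬ P x y z)
    (hkl : ∀ o m1 r1 m2 r2 m3 r3 : ℕ, 0 < m1 → 0 < m2 → 0 < m3 → kl o m1 r1 m2 r2 m3 r3 = true →
      ∀ x y z : ℤ, (m1 : ℤ) ∣ x - r1 → (m2 : ℤ) ∣ y - r2 → (m3 : ℤ) ∣ z - r3 → P x y z → C x y z)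
    (fuel m1 r1 m2 r2 m3 r3 cert : ℕ) (h1 : 0 < m1) (h2 : 0 < m2) (h3 : 0 < m3)
    (h : rt ex kl fuel m1 r1 m2 r2 m3 r3 cert ≠ 0) :
    ∀ x y z : ℤ, (m1 : ℤ) ∣ x - r1 → (m2 : ℤ) ∣ y - r2 → (m3 : ℤ) ∣ z - r3 → P x y z → C x y z := by
  induction fuel generalizing m1 r1 m2 r2 m3 r3 cert with
  | zero => exact absurd rfl h
  | succ n ih =>
    have h' : (fun t c : ℕ =>
        cd (Nat.beq t (nat_lit 12)) (cd (ex m1 r1 m2 r2 m3 r3) (Nat.succ c) (nat_lit 0))
        (cd (Nat.beq t (nat_lit 13))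
          (cd (kl (Nat.land c (nat_lit 255)) m1 r1 m2 r2 m3 r3)
            (Nat.succ (Nat.shiftRight c (nat_lit 8))) (nat_lit 0))
          ((fun s p =>
            cd (Nat.beq s (nat_lit 0))
              (lp p (fun i r => rt ex kl n (Nat.mul m1 p) (Nat.add r1 (Nat.mul i m1))
                m2 r2 m3 r3 r) c)
            (cd (Nat.beq s (nat_lit 1))
              (lp p (fun i r => rt ex kl n m1 r1 (Nat.mul m2 p) (Nat.add r2 (Nat.mul i m2))
                m3 r3 r) c)
              (lp p (fun i r => rt ex kl n m1 r1 m2 r2 (Nat.mul m3 p)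
                (Nat.add r3 (Nat.mul i m3)) r) c)))
            (Nat.shiftRight t (nat_lit 2))
            ((fun b => cd (Nat.beq b (nat_lit 0)) (nat_lit 2) (cd (Nat.beq b (nat_lit 1)) (nat_lit 3)
              (cd (Nat.beq b (nat_lit 2)) (nat_lit 5) (nat_lit 7)))) (Nat.land t (nat_lit 3))))))
        (Nat.land cert (nat_lit 15)) (Nat.shiftRight cert (nat_lit 4)) ≠ 0 := h
    clear h
    generalize Nat.land cert (nat_lit 15) = t at h'
    generalize Nat.shiftRight cert (nat_lit 4) = c at h'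
    have h'' : cd (Nat.beq t (nat_lit 12)) (cd (ex m1 r1 m2 r2 m3 r3) (Nat.succ c) (nat_lit 0))
        (cd (Nat.beq t (nat_lit 13))
          (cd (kl (Nat.land c (nat_lit 255)) m1 r1 m2 r2 m3 r3)
            (Nat.succ (Nat.shiftRight c (nat_lit 8))) (nat_lit 0))
          ((fun s p =>
            cd (Nat.beq s (nat_lit 0))
              (lp p (fun i r => rt ex kl n (Nat.mul m1 p) (Nat.add r1 (Nat.mul i m1))
                m2 r2 m3 r3 r) c)
            (cd (Nat.beq s (nat_lit 1))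
              (lp p (fun i r => rt ex kl n m1 r1 (Nat.mul m2 p) (Nat.add r2 (Nat.mul i m2))
                m3 r3 r) c)
              (lp p (fun i r => rt ex kl n m1 r1 m2 r2 (Nat.mul m3 p)
                (Nat.add r3 (Nat.mul i m3)) r) c)))
            (Nat.shiftRight t (nat_lit 2))
            ((fun b => cd (Nat.beq b (nat_lit 0)) (nat_lit 2) (cd (Nat.beq b (nat_lit 1)) (nat_lit 3)
              (cd (Nat.beq b (nat_lit 2)) (nat_lit 5) (nat_lit 7)))) (Nat.land t (nat_lit 3))))) ≠ 0 := h'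
    clear h'
    cases hb : Nat.beq t (nat_lit 12) with
    | true =>
      rw [hb, cd_true] at h''
      intro x y z hx hy hz hP
      exact absurd hP (hex _ _ _ _ _ _ h1 h2 h3 (ks_cd_ne_zero h'') x y z hx hy hz)
    | false =>
      rw [hb, cd_false] at h''
      cases hb' : Nat.beq t (nat_lit 13) with
      | true =>
        rw [hb', cd_true] at h''
        intro x y z hx hy hz hP
        exact hkl _ _ _ _ _ _ _ h1 h2 h3 (ks_cd_ne_zero h'') x y z hx hy hz hP
      | false =>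
        rw [hb', cd_false] at h''
        clear hb hb'
        have hp : 0 < (fun b : ℕ => cd (Nat.beq b (nat_lit 0)) (nat_lit 2)
            (cd (Nat.beq b (nat_lit 1)) (nat_lit 3)
              (cd (Nat.beq b (nat_lit 2)) (nat_lit 5) (nat_lit 7)))) (Nat.land t (nat_lit 3)) := by
          generalize Nat.land t (nat_lit 3) = b
          show 0 < cd (Nat.beq b (nat_lit 0)) (nat_lit 2)
            (cd (Nat.beq b (nat_lit 1)) (nat_lit 3)
              (cd (Nat.beq b (nat_lit 2)) (nat_lit 5) (nat_lit 7)))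
          cases Nat.beq b (nat_lit 0) <;> cases Nat.beq b (nat_lit 1) <;>
            cases Nat.beq b (nat_lit 2) <;> simp
        revert h'' hp
        generalize (fun b : ℕ => cd (Nat.beq b (nat_lit 0)) (nat_lit 2)
            (cd (Nat.beq b (nat_lit 1)) (nat_lit 3)
              (cd (Nat.beq b (nat_lit 2)) (nat_lit 5) (nat_lit 7)))) (Nat.land t (nat_lit 3)) = p
        generalize Nat.shiftRight t (nat_lit 2) = s
        intro h'' hp
        have h4 : cd (Nat.beq s (nat_lit 0))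
              (lp p (fun i r => rt ex kl n (Nat.mul m1 p) (Nat.add r1 (Nat.mul i m1))
                m2 r2 m3 r3 r) c)
            (cd (Nat.beq s (nat_lit 1))
              (lp p (fun i r => rt ex kl n m1 r1 (Nat.mul m2 p) (Nat.add r2 (Nat.mul i m2))
                m3 r3 r) c)
              (lp p (fun i r => rt ex kl n m1 r1 m2 r2 (Nat.mul m3 p)
                (Nat.add r3 (Nat.mul i m3)) r) c)) ≠ 0 := h''
        clear h''
        intro x y z hx hy hz hP
        cases hs : Nat.beq s (nat_lit 0) with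
        | true =>
          rw [hs, cd_true] at h4
          obtain ⟨i, hi, hdvd⟩ := ks_split hp hx
          obtain ⟨r, hr⟩ := lp_ne_zero h4 i hi
          exact ih _ _ _ _ _ _ _ (Nat.mul_pos h1 hp) h2 h3 hr x y z hdvd hy hz hP
        | false =>
          rw [hs, cd_false] at h4
          cases hs' : Nat.beq s (nat_lit 1) with
          | true =>
            rw [hs', cd_true] at h4
            obtain ⟨i, hi, hdvd⟩ := ks_split hp hy
            obtain ⟨r, hr⟩ := lp_ne_zero h4 i hi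
            exact ih _ _ _ _ _ _ _ h1 (Nat.mul_pos h2 hp) h3 hr x y z hx hdvd hz hP
          | false =>
            rw [hs', cd_false] at h4
            obtain ⟨i, hi, hdvd⟩ := ks_split hp hz
            obtain ⟨r, hr⟩ := lp_ne_zero h4 i hi
            exact ih _ _ _ _ _ _ _ h1 h2 (Nat.mul_pos h3 hp) hr x y z hx hy hdvd hP

end Pool.H94.Pol
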