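import Pool.Agent.H94.Pol.Opt

/-!
Three-adic part, `b ≥ 1`. Put `H = 2^(K-q+1)`, `L = 2^(K+1) = H 2^q`, `e = X + L z`,
`D = 2^q z + k - j`: `e - x = H D`, `2 p = H 3^b`,
`TT = (6 N - (e^3 - e)) + H D (e^2 + e x + x^2 - 1) - 2 p^3 S3 + 2 p Su`.
If `D = 3^b g`: `TT ≡ 2 p (g (e^2 + e x + x^2 - 1) - p^2 S3 + Su) (mod 3^20)`, so
`3 M ≡ g (e^2 + e x + x^2 - 1) - p^2 S3 + Su (mod 27)` (`b ≤ 15`).
With `h = H D`: `e^2 + e x + x^2 = 3 e^2 - 3 e h + h^2`.  `e ≡ L (z + yv) (mod 3)`; if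
`3 ∣ z + yv` then `9 ∣ e^2`; otherwise `e^2 ≡ 1 + 6 N e ≡ 1 + 6 (N L) (z + yv) (mod 9)`
(`e^3 - e ≡ 6 N`, `e^(-1) ≡ e (mod 3)`).  For `b = 1`: `3 e h ≡ 9 (z + yv) g 2^q`,
`h^2 ≡ 9 g^2`, `p^2 ≡ 9 (mod 27)`; for `b ≥ 2`: `3 e h ≡ h^2 ≡ p^2 ≡ 0 (mod 27)`.
(All congruences have been tested on 60000 random examples.)
-/

namespace Pool.H94.Pol

/-- `3 M` modulo 27, `b ≥ 1` -/
def F27 (q b S3 Su : ℕ) (g : ℤ) (sh eta : ℕ) : ℤ :=
  g * (26 + 3 * (if sh = 0 then 0 else 1 + 6 * (eta * sh))) + Su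
    + (if b = 1 then 9 * (g * (g * g) + 2 * (g * g) * (sh * 2 ^ q) + 2 * S3) else 0)

/-- `H = 2^(K-q+1)` times `2^q` is `2^(K+1)` -/
lemma ta_HL {K q : ℕ} (hK : 20 ≤ K) (hq : q ≤ 15) :
    (2 : ℤ) ^ (K - q + 1) * 2 ^ q = 2 ^ (K + 1) := by
  rw [← pow_add]
  congr 1
  omega

lemma ta_2p {K q b : ℕ} : 2 * (pp K q b : ℤ) = 2 ^ (K - q + 1) * 3 ^ b := by
  unfold pp
  push_cast
  ring

/-- the main identity -/
lemma ta_TT {N K X q b j Su S3 : ℕ} {z : ℤ} (hK : 20 ≤ K) (hq : q ≤ 15) :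
    TT N K X q b j Su S3 =
      2 ^ (K - q + 1) * (2 ^ q * z + (kk K X q : ℤ) - j) *
        (((X : ℤ) + 2 ^ (K + 1) * z) ^ 2 + ((X : ℤ) + 2 ^ (K + 1) * z) * xx K X q j
          + (xx K X q j : ℤ) ^ 2 - 1) - 2 * (pp K q b : ℤ) ^ 3 * S3 + 2 * (pp K q b : ℤ) * Su
      - (((X : ℤ) + 2 ^ (K + 1) * z) ^ 3 - ((X : ℤ) + 2 ^ (K + 1) * z) - 6 * N) := by
  have h1 : (2 : ℤ) ^ (K - q + 1) * (2 ^ q * z + (kk K X q : ℤ) - j) =
      ((X : ℤ) + 2 ^ (K + 1) * z) - xx K X q j := by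
    rw [xx_eq, ← ta_HL hK hq]
    ring
  rw [h1]
  unfold TT
  ring

lemma ta_x_mod {K X q j : ℕ} {z : ℤ} (hK : 20 ≤ K) (hq : q ≤ 15) :
    (xx K X q j : ℤ) = ((X : ℤ) + 2 ^ (K + 1) * z) -
      2 ^ (K - q + 1) * (2 ^ q * z + (kk K X q : ℤ) - j) := by
  rw [xx_eq, ← ta_HL hK hq]
  ring

theorem three_dvd {N K X q b j Su S3 z : ℕ} (hK : 20 ≤ K) (hq : q ≤ 15) (hb : 1 ≤ b) (hb2 : b ≤ 15)
    (hz : (3 : ℤ) ^ 20 ∣ ((X : ℤ) + 2 ^ (K + 1) * z) ^ 3 - ((X : ℤ) + 2 ^ (K + 1) * z) - 6 * N)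
    (hD : (3 : ℤ) ^ (b + 1) ∣ 2 ^ q * z + (kk K X q : ℤ) - j - 3 ^ b * Su) :
    (3 : ℤ) ^ (b + 1) ∣ TT N K X q b j Su S3 := by
  rw [ta_TT (z := (z : ℤ)) hK hq]
  set e : ℤ := (X : ℤ) + 2 ^ (K + 1) * z with he
  set D : ℤ := 2 ^ q * z + (kk K X q : ℤ) - j with hDd
  set H : ℤ := 2 ^ (K - q + 1) with hH
  have hx : (xx K X q j : ℤ) = e - H * D := ta_x_mod hK hq
  obtain ⟨t, ht⟩ := hD
  -- `D = 3^b (Su + 3 t)`
  have hD' : D = 3 ^ b * (Su + 3 * t) := by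
    rw [pow_succ] at ht
    linear_combination ht
  obtain ⟨b', rfl⟩ : ∃ b', b = b' + 1 := ⟨b - 1, by omega⟩
  have h20 : (3 : ℤ) ^ (b' + 1 + 1) ∣ e ^ 3 - e - 6 * N :=
    (pow_dvd_pow _ (by omega)).trans hz
  refine dvd_sub ?_ h20
  have hp : 2 * (pp K q (b' + 1) : ℤ) = H * 3 ^ (b' + 1) := ta_2p
  have hp3 : (3 : ℤ) ^ (b' + 1 + 1) ∣ 2 * (pp K q (b' + 1) : ℤ) ^ 3 * S3 := by
    have h1 : (3 : ℤ) ^ (b' + 1) ∣ (pp K q (b' + 1) : ℤ) := by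
      unfold pp
      push_cast
      exact Dvd.intro_left _ rfl
    have h2 : ((3 : ℤ) ^ (b' + 1)) ^ 3 ∣ (pp K q (b' + 1) : ℤ) ^ 3 := pow_dvd_pow_of_dvd h1 3
    have h3 : (3 : ℤ) ^ (b' + 1 + 1) ∣ ((3 : ℤ) ^ (b' + 1)) ^ 3 := by
      rw [← pow_mul]
      exact pow_dvd_pow _ (by omega)
    exact (h3.trans h2).trans (Dvd.intro _ (by ring : (pp K q (b' + 1) : ℤ) ^ 3 * (2 * S3) = _))
  have key : H * D * (e ^ 2 + e * xx K X q j + (xx K X q j : ℤ) ^ 2 - 1)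
      - 2 * (pp K q (b' + 1) : ℤ) ^ 3 * S3 + 2 * (pp K q (b' + 1) : ℤ) * Su
      = 3 ^ (b' + 1 + 1) * (H * ((Su + 3 * t) * (e ^ 2 - e * (H * 3 ^ b' * (Su + 3 * t)) * 3
          + 3 * (H * 3 ^ b' * (Su + 3 * t)) ^ 2) - t))
      - 2 * (pp K q (b' + 1) : ℤ) ^ 3 * S3 := by
    rw [hp, hx, hD']
    ring
  rw [key]
  exact dvd_sub (Dvd.intro _ rfl) hp3

lemma ta_cop (k : ℕ) (m : ℕ) : IsCoprime ((3 : ℤ) ^ m) (2 ^ k) := by
  apply IsCoprime.pow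
  exact ⟨1, -1, by norm_num⟩

/-- `x^2` modulo 9 -/
lemma ta_sq {e N s n : ℤ} (h1 : (9 : ℤ) ∣ e ^ 3 - e - 6 * N) (h2 : (3 : ℤ) ∣ N * e - n * s)
    (h3 : ¬ (3 : ℤ) ∣ e) : (9 : ℤ) ∣ e ^ 2 - (1 + 6 * (n * s)) := by
  have h4 : (9 : ℤ) ∣ 6 * (N * e) - 6 * (n * s) := by
    obtain ⟨c, hc⟩ := h2
    exact ⟨2 * c, by linear_combination 6 * hc⟩
  -- `e^4 - e^2 ≡ 6 N e`, so `e^2 - 1 ≡ 6 N e` because `e^2 ≡ 1 mod 3`
  have h5 : (3 : ℤ) ∣ e ^ 2 - 1 := by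
    have : e % 3 = 1 ∨ e % 3 = 2 := by omega
    rcases this with h | h
    · obtain ⟨m, hm⟩ : ∃ m, e = 3 * m + 1 := ⟨e / 3, by omega⟩
      rw [hm]
      exact ⟨3 * m ^ 2 + 2 * m, by ring⟩
    · obtain ⟨m, hm⟩ : ∃ m, e = 3 * m + 2 := ⟨e / 3, by omega⟩
      rw [hm]
      exact ⟨3 * m ^ 2 + 4 * m + 1, by ring⟩
  obtain ⟨t, ht⟩ := h5
  obtain ⟨c, hc⟩ := h1
  obtain ⟨d, hd⟩ := h4
  have h6 : e ^ 2 = 3 * t + 1 := by linarith
  refine ⟨c * e - t ^ 2 + d, ?_⟩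
  -- e^2 - 1 - 6 n s = (e^2 - 1) - 6 N e + 9 d ; e^4 - e^2 - 6 N e = 9 c e ; e^4 - e^2 = (e^2-1)^2 + (e^2-1)
  have h7 : e ^ 4 - e ^ 2 - 6 * (N * e) = 9 * (c * e) := by linear_combination e * hc
  have h8 : e ^ 4 - e ^ 2 = 9 * t ^ 2 + (e ^ 2 - 1) := by
    have : e ^ 4 = (3 * t + 1) ^ 2 := by rw [← h6]; ring
    rw [this, h6]
    ring
  linear_combination h7 - h8 + hd

theorem three_res {N K X q b j Su S3 z yv : ℕ} (hK : 20 ≤ K) (hq : q ≤ 15) (hb : 1 ≤ b)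
    (hb2 : b ≤ 15)
    (hz : (3 : ℤ) ^ 20 ∣ ((X : ℤ) + 2 ^ (K + 1) * z) ^ 3 - ((X : ℤ) + 2 ^ (K + 1) * z) - 6 * N)
    (hy : (3 : ℤ) ∣ (X : ℤ) - 2 ^ (K + 1) * yv) {g M : ℤ}
    (hD : 2 ^ q * (z : ℤ) + (kk K X q : ℤ) - j = 3 ^ b * g)
    (hM : TT N K X q b j Su S3 = 6 * pp K q b * M) :
    3 * M ≡ F27 q b S3 Su g ((z + yv) % 3) (N * 2 ^ (K + 1) % 3) [ZMOD 27] := by
  rw [ta_TT (z := (z : ℤ)) hK hq] at hM
  set e : ℤ := (X : ℤ) + 2 ^ (K + 1) * z with he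
  set D : ℤ := 2 ^ q * z + (kk K X q : ℤ) - j with hDd
  set H : ℤ := 2 ^ (K - q + 1) with hH
  set L : ℤ := 2 ^ (K + 1) with hL
  set P : ℤ := (pp K q b : ℤ) with hP
  have hHL : H * 2 ^ q = L := ta_HL hK hq
  have hx : (xx K X q j : ℤ) = e - H * D := ta_x_mod hK hq
  have hp : 2 * P = H * 3 ^ b := ta_2p
  -- the bracket
  set B : ℤ := g * (3 * e ^ 2 - 3 * e * (H * (3 ^ b * g)) + (H * (3 ^ b * g)) ^ 2 - 1)
    - P ^ 2 * S3 + Su with hB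
  have h1 : (3 : ℤ) ^ 20 ∣ 2 ^ (K - q + 1) * (3 ^ b * (3 * M - B)) := by
    obtain ⟨c, hc⟩ := hz
    refine ⟨-c, ?_⟩
    rw [hx, hD] at hM
    have h2 : H * (3 ^ b * g) * (e ^ 2 + e * (e - H * (3 ^ b * g)) + (e - H * (3 ^ b * g)) ^ 2 - 1)
        - 2 * P ^ 3 * S3 + 2 * P * Su = 2 * P * B := by
      rw [hB]
      linear_combination (-(g * (e ^ 2 + e * (e - H * (3 ^ b * g)) + (e - H * (3 ^ b * g)) ^ 2 - 1)))
        * hp
    show H * (3 ^ b * (3 * M - B)) = 3 ^ 20 * -c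
    have h3 : 2 * P * (3 * M - B) = -(3 ^ 20 * c) := by
      linear_combination h2 - hc - hM
    linear_combination h3 - (3 * M - B) * hp
  have h2 : (3 : ℤ) ^ 20 ∣ 3 ^ b * (3 * M - B) := (ta_cop _ _).dvd_of_dvd_mul_left h1
  have h3 : (27 : ℤ) ∣ 3 * M - B := by
    obtain ⟨k, hk⟩ : ∃ k, 20 = b + (3 + k) := ⟨17 - b, by omega⟩
    rw [hk, pow_add] at h2
    have h4 := (mul_dvd_mul_iff_left (by positivity : (3 : ℤ) ^ b ≠ 0)).1 h2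
    refine dvd_trans ?_ h4
    exact ⟨3 ^ k, by rw [pow_add]; norm_num⟩
  have hmod : 3 * M ≡ B [ZMOD 27] := (Int.modEq_iff_dvd.2 (by
    have := (dvd_neg.2 h3)
    rwa [neg_sub] at this))
  refine hmod.trans ?_
  -- now compute `B`
  have hH1 : (3 : ℤ) ∣ H ^ 2 - 1 := by
    have h4 : ∀ m : ℕ, (3 : ℤ) ∣ ((2 : ℤ) ^ m) ^ 2 - 1 := by
      intro m
      have h5 := sub_dvd_pow_sub_pow (4 : ℤ) 1 m
      have h6 : ((2 : ℤ) ^ m) ^ 2 = 4 ^ m := by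
        rw [← pow_mul, mul_comm, pow_mul]
        norm_num
      rw [h6]
      rw [one_pow] at h5
      have h7 : (4 : ℤ) - 1 = 3 := by norm_num
      rwa [h7] at h5
    exact h4 _
  have hLz : (3 : ℤ) ∣ e - L * (z + yv) := by
    obtain ⟨c, hc⟩ := hy
    refine ⟨c, ?_⟩
    rw [he]
    linear_combination hc
  have hL3 : ¬ (3 : ℤ) ∣ L := by
    intro h
    have := Int.prime_three.dvd_of_dvd_pow h
    norm_num at this
  set s : ℕ := (z + yv) % 3 with hs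
  set n : ℕ := N * 2 ^ (K + 1) % 3 with hn
  have hsz : (3 : ℤ) ∣ (z + yv : ℤ) - s := by
    have h4 : (z + yv) % 3 = s := rfl
    refine ⟨((z + yv) / 3 : ℕ), ?_⟩
    have := Nat.div_add_mod (z + yv) 3
    rw [h4] at this
    have h5 : (3 : ℤ) * ((z + yv) / 3 : ℕ) + s = z + yv := by exact_mod_cast this
    linarith
  have hnz : (3 : ℤ) ∣ (N * L : ℤ) - n := by
    have h4 : (N * 2 ^ (K + 1)) % 3 = n := rfl
    refine ⟨((N * 2 ^ (K + 1)) / 3 : ℕ), ?_⟩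
    have := Nat.div_add_mod (N * 2 ^ (K + 1)) 3
    rw [h4] at this
    have h5 : (3 : ℤ) * ((N * 2 ^ (K + 1)) / 3 : ℕ) + n = N * 2 ^ (K + 1) := by exact_mod_cast this
    rw [hL]
    linarith
  -- `e^2` modulo 9
  have he2 : (9 : ℤ) ∣ e ^ 2 - (if s = 0 then 0 else 1 + 6 * ((n : ℤ) * s)) := by
    split_ifs with h
    · have h5 : (3 : ℤ) ∣ e := by
        have h6 : (3 : ℤ) ∣ L * (z + yv) := by
          rw [h] at hsz
          have : (3 : ℤ) ∣ (z + yv : ℤ) := by simpa using hsz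
          exact this.mul_left _
        have := dvd_add hLz h6
        simpa using this
      obtain ⟨m, hm⟩ := h5
      rw [hm]
      exact ⟨m ^ 2, by ring⟩
    · apply ta_sq (N := (N : ℤ))
      · exact (by norm_num : (9 : ℤ) ∣ 3 ^ 20).trans hz
      · obtain ⟨c1, hc1⟩ := hLz
        obtain ⟨c2, hc2⟩ := hsz
        obtain ⟨c3, hc3⟩ := hnz
        refine ⟨N * c1 + N * L * c2 + s * c3, ?_⟩
        linear_combination N * hc1 + N * L * hc2 + s * hc3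
      · intro h5
        have h6 : (3 : ℤ) ∣ L * (z + yv) := by
          have := dvd_sub h5 hLz
          simpa using this
        rcases (Int.prime_three.dvd_or_dvd h6) with h7 | h7
        · exact hL3 h7
        · have h8 : (3 : ℤ) ∣ (s : ℤ) := by
            have := dvd_sub h7 hsz
            simpa using this
          have h9 : s < 3 := Nat.mod_lt _ (by norm_num)
          omega
  rw [Int.modEq_iff_dvd]
  unfold F27
  obtain ⟨c, hc⟩ := he2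
  set E : ℤ := (if s = 0 then 0 else 1 + 6 * ((n : ℤ) * s)) with hE
  have hE' : ((if s = 0 then 0 else 1 + 6 * (n * s) : ℕ) : ℤ) = E := by
    rw [hE]
    split_ifs
    · rfl
    · push_cast
      ring
  by_cases hb1 : b = 1
  · subst hb1
    rw [if_pos rfl]
    obtain ⟨c1, hc1⟩ := hLz
    obtain ⟨c2, hc2⟩ := hsz
    obtain ⟨d, hd⟩ := hH1
    -- P^2 = 9 * (square of a power of two)
    have hP2 : (27 : ℤ) ∣ P ^ 2 - 9 := by
      have h4 : P = 2 ^ (K - q) * 3 := by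
        rw [hP]
        unfold pp
        push_cast
        ring
      have h5 : H = 2 * 2 ^ (K - q) := by
        rw [hH, pow_succ]
        ring
      have h6 : (27 : ℤ) ∣ 4 * (P ^ 2 - 9) := by
        refine ⟨d - 1, ?_⟩
        rw [h4]
        rw [h5] at hd
        linear_combination 9 * hd
      exact (IsCoprime.dvd_of_dvd_mul_left (⟨3, -20, by norm_num⟩ : IsCoprime (27 : ℤ) 4) h6)
    obtain ⟨c4, hc4⟩ := hP2
    rw [hB]
    -- `e H ≡ 2^q s (mod 3)`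
    have heH : (3 : ℤ) ∣ e * H - s * 2 ^ q := by
      refine ⟨H * c1 + H * L * c2 + s * 2 ^ q * d, ?_⟩
      have h5 : H * L = H ^ 2 * 2 ^ q := by rw [← hHL]; ring
      linear_combination H * hc1 + H * L * hc2 + s * h5 + s * 2 ^ q * hd
    obtain ⟨c5, hc5⟩ := heH
    refine ⟨g + g ^ 2 * (s * 2 ^ q) + S3 - c * g + g ^ 2 * c5 - d * g ^ 3 + c4 * S3, ?_⟩
    linear_combination (-3 * g) * hc + 9 * g ^ 2 * hc5 - 9 * g ^ 3 * hd + S3 * hc4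
      + 3 * g * hE'
  · rw [if_neg hb1]
    obtain ⟨b', rfl⟩ : ∃ b', b = b' + 2 := ⟨b - 2, by omega⟩
    have hP2 : P ^ 2 = 27 * (3 * (2 ^ (K - q)) ^ 2 * (3 ^ b') ^ 2) := by
      rw [hP]
      unfold pp
      push_cast
      ring
    refine ⟨g - g * c + e * H * 3 ^ b' * g ^ 2 - 3 * H ^ 2 * (3 ^ b') ^ 2 * g ^ 3
      + (3 * (2 ^ (K - q)) ^ 2 * (3 ^ b') ^ 2) * S3, ?_⟩
    rw [hB]
    linear_combination (-3 * g) * hc + S3 * hP2 + 3 * g * hE'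

/-- `F27` modulo `3^(jj+1)` depends on `g` modulo `3^(jj+1)` only; for `jj = 1` it does not depend
on `eta`. -/
theorem F27_congr {q b S3 Su sh eta jj : ℕ} (hjj : jj ≤ 2) {g g' : ℤ}
    (h : g ≡ g' [ZMOD 3 ^ (jj + 1)]) :
    F27 q b S3 Su g sh eta ≡ F27 q b S3 Su g' sh eta [ZMOD 3 ^ (jj + 1)] := by
  unfold F27
  have h2 := h.mul h
  have h3 := h.mul h2
  refine Int.ModEq.add (Int.ModEq.add (h.mul_right _) rfl) ?_
  split_ifs
  · exact ((h3.add ((h2.mul_left 2).mul_right _)).add_right _).mul_left 9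
  · rfl

theorem F27_eta {q b S3 Su sh eta eta' : ℕ} {g : ℤ} :
    F27 q b S3 Su g sh eta ≡ F27 q b S3 Su g sh eta' [ZMOD 9] := by
  rw [Int.modEq_iff_dvd]
  unfold F27
  by_cases h : sh = 0
  · subst h
    simp
  · rw [if_neg h, if_neg h]
    exact ⟨2 * g * sh * (eta' - eta), by push_cast; ring⟩

theorem n27_eq (q b S3 Su g sh eta : ℕ) :
    ((n27 q b S3 Su g sh eta : ℕ) : ℤ) = F27 q b S3 Su g sh eta := by
  unfold n27 F27
  by_cases h1 : sh = 0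
  · have e1 : Nat.beq sh 0 = true := by rw [h1]; rfl
    by_cases h2 : b = 1
    · have e2 : Nat.beq b 1 = true := by rw [h2]; rfl
      rw [e1, e2, if_pos h1, if_pos h2]
      simp only [cd_true, Nat.add_eq, Nat.mul_eq, Nat.succ_eq_add_one, Nat.pow_eq]
      push_cast
      rfl
    · have e2 : Nat.beq b 1 = false := by
        cases h : Nat.beq b 1
        · rfl
        · exact absurd (Nat.eq_of_beq_eq_true h) h2
      rw [e1, e2, if_pos h1, if_neg h2]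
      simp only [cd_true, cd_false, Nat.add_eq, Nat.mul_eq, Nat.succ_eq_add_one, Nat.pow_eq]
      push_cast
      rfl
  · have e1 : Nat.beq sh 0 = false := by
      cases h : Nat.beq sh 0
      · rfl
      · exact absurd (Nat.eq_of_beq_eq_true h) h1
    by_cases h2 : b = 1
    · have e2 : Nat.beq b 1 = true := by rw [h2]; rfl
      rw [e1, e2, if_neg h1, if_pos h2]
      simp only [cd_true, cd_false, Nat.add_eq, Nat.mul_eq, Nat.succ_eq_add_one, Nat.pow_eq]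
      push_cast
      ring
    · have e2 : Nat.beq b 1 = false := by
        cases h : Nat.beq b 1
        · rfl
        · exact absurd (Nat.eq_of_beq_eq_true h) h2
      rw [e1, e2, if_neg h1, if_neg h2]
      simp only [cd_false, Nat.add_eq, Nat.mul_eq, Nat.succ_eq_add_one, Nat.pow_eq]
      push_cast
      ring

end Pool.H94.Pol
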