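import Pool.Agent.H94.Pol.Opt

/-!
Three-adic part, `b = 0`, `p = 2^(K-q)`. Notation of `ThreeAdic.lean`; now
`TT = (6 N - (e^3 - e)) + H D (3 e^2 - 3 e h + h^2 - 1) - 2 p^3 S3 + 2 p Su`, `2 p = H`, `h = H D`, so
`3 M ≡ D (3 e^2 - 3 e h + h^2 - 1) - p^2 S3 + Su (mod 9)`; `3 e^2 ≡ 0` or `3`,
`3 e h ≡ 3 (z + yv) D 2^q (mod 9)` (`e ≡ L (z + yv)`, `h = L 2^(-q) D`, `L^2 ≡ 1 (mod 3)`),
`h^2 = H^2 D^2`, `H^2 = 4^(K+1-q) ≡ 4^(K%3+1) 7^q (mod 9)` (`4^3 ≡ 1`, `4 * 7 ≡ 1`),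
`p^2 = 4^(K-q) ≡ 4^(K%3+1) 7^q 7`.
-/

namespace Pool.H94.Pol

theorem taz_pow_two_mod (n : ℕ) : (3 : ℤ) ∣ (2 ^ n) ^ 2 - 1 := by
  rw [← pow_mul, mul_comm, pow_mul]
  have h := Int.ModEq.pow n (show (2 ^ 2 : ℤ) ≡ 1 [ZMOD 3] by decide)
  rw [one_pow] at h
  exact (Int.modEq_iff_dvd.1 h.symm)

theorem three_dvdZ {N K X q j Su S3 : ℕ} (hS : (S3 : ℤ) ≡ Su [ZMOD 3]) :
    (3 : ℤ) ∣ TT N K X q 0 j Su S3 := by
  unfold TT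
  have hx : (3 : ℤ) ∣ (xx K X q j : ℤ) ^ 3 - xx K X q j := by
    generalize (xx K X q j : ℤ) = x
    have h3 : x % 3 = 0 ∨ x % 3 = 1 ∨ x % 3 = 2 := by omega
    apply Int.dvd_of_emod_eq_zero
    rcases h3 with h | h | h <;> simp [pow_succ, Int.sub_emod, Int.mul_emod, h]
  have hp : (3 : ℤ) ∣ (pp K q 0 : ℤ) ^ 2 - 1 := by
    unfold pp
    push_cast
    rw [mul_one]
    exact taz_pow_two_mod _
  obtain ⟨a, ha⟩ := hx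
  obtain ⟨b, hb⟩ := hp
  obtain ⟨c, hc⟩ := (Int.modEq_iff_dvd.1 hS.symm)
  refine ⟨2 * N - a - 2 * (pp K q 0 : ℤ) * (b * S3 + c), ?_⟩
  linear_combination -ha - 2 * (pp K q 0 : ℤ) * (S3 * hb + hc)

/-- `3 M` modulo 9, `b = 0` -/
def F9 (q S3 Su : ℕ) (D : ℤ) (sh kap : ℕ) : ℤ :=
  D * (8 + (if sh = 0 then 0 else 3) + (6 * sh * (D * 2 ^ q) + 4 ^ (kap + 1) * 7 ^ q * (D * D)))
    + Su + 8 * (4 ^ (kap + 1) * 7 ^ q * 7 * S3)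

theorem taz_H {K q : ℕ} (hq : q ≤ K) :
    (9 : ℤ) ∣ (2 ^ (K - q + 1)) ^ 2 - 4 ^ (K % 3 + 1) * 7 ^ q := by
  have h1 : (2 ^ (K - q + 1) : ℤ) ^ 2 = 4 ^ (K - q + 1) := by
    rw [← pow_mul, mul_comm, pow_mul]; norm_num
  rw [h1]
  have e28 : (4 : ℤ) ^ q * 7 ^ q ≡ 1 [ZMOD 9] := by
    rw [← mul_pow]
    have h := Int.ModEq.pow q (show (4 * 7 : ℤ) ≡ 1 [ZMOD 9] by decide)
    rwa [one_pow] at h
  have e64 : (4 : ℤ) ^ (K + 1) ≡ 4 ^ (K % 3 + 1) [ZMOD 9] := by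
    have hK : K + 1 = 3 * (K / 3) + (K % 3 + 1) := by omega
    have h := Int.ModEq.pow (K / 3) (show (4 ^ 3 : ℤ) ≡ 1 [ZMOD 9] by decide)
    rw [one_pow, ← pow_mul] at h
    calc (4 : ℤ) ^ (K + 1) = 4 ^ (3 * (K / 3)) * 4 ^ (K % 3 + 1) := by rw [← pow_add, ← hK]
      _ ≡ 1 * 4 ^ (K % 3 + 1) [ZMOD 9] := h.mul_right _
      _ = 4 ^ (K % 3 + 1) := one_mul _
  have h3 : (4 : ℤ) ^ (K - q + 1) ≡ 4 ^ (K % 3 + 1) * 7 ^ q [ZMOD 9] := by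
    calc (4 : ℤ) ^ (K - q + 1) = 4 ^ (K - q + 1) * 1 := (mul_one _).symm
      _ ≡ 4 ^ (K - q + 1) * (4 ^ q * 7 ^ q) [ZMOD 9] := e28.symm.mul_left _
      _ = 4 ^ (K + 1) * 7 ^ q := by
        rw [← mul_assoc, ← pow_add]; congr 2; omega
      _ ≡ 4 ^ (K % 3 + 1) * 7 ^ q [ZMOD 9] := e64.mul_right _
  exact Int.modEq_iff_dvd.1 h3.symm

theorem three_resZ {N K X q j Su S3 z yv : ℕ} (hK : 20 ≤ K) (hq : q ≤ 15)
    (hz : (3 : ℤ) ^ 20 ∣ ((X : ℤ) + 2 ^ (K + 1) * z) ^ 3 - ((X : ℤ) + 2 ^ (K + 1) * z) - 6 * N)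
    (hy : (3 : ℤ) ∣ (X : ℤ) - 2 ^ (K + 1) * yv) {M : ℤ}
    (hM : TT N K X q 0 j Su S3 = 6 * pp K q 0 * M) :
    3 * M ≡ F9 q S3 Su (2 ^ q * (z : ℤ) + (kk K X q : ℤ) - j) ((z + yv) % 3) (K % 3) [ZMOD 9] := by
  set D : ℤ := 2 ^ q * (z : ℤ) + (kk K X q : ℤ) - j with hD
  set H : ℤ := 2 ^ (K - q + 1) with hH
  set p : ℤ := 2 ^ (K - q) with hp
  set e : ℤ := (X : ℤ) + 2 ^ (K + 1) * z with he
  set l2 : ℤ := 4 ^ (K % 3 + 1) * 7 ^ q with hl2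
  have hHp : H = 2 * p := by rw [hH, hp, pow_succ]; ring
  have hL : (2 : ℤ) ^ (K + 1) = 2 ^ q * H := by
    rw [hH, ← pow_add]; congr 1; omega
  have hx := xx_eq K X q j
  have hex : e - (xx K X q j : ℤ) = H * D := by
    rw [hx, he, hL, hD, hH]; ring
  have hppZ : (pp K q 0 : ℤ) = p := by unfold pp; push_cast; rw [mul_one]
  have A : (9 : ℤ) ∣ H ^ 2 - l2 := taz_H (by omega)
  obtain ⟨a, ha⟩ := A
  -- 3 M ≡ Rst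
  obtain ⟨y20, hy20⟩ := hz
  have hcop : IsCoprime (9 : ℤ) H := by
    rw [hH]
    apply IsCoprime.pow_right
    exact ⟨1, -4, by norm_num⟩
  have h9 : (9 : ℤ) ∣ H * (3 * M - (D * (3 * e ^ 2 - 3 * e * (H * D) + (H * D) ^ 2 - 1) - p ^ 2 * S3 + Su)) := by
    refine ⟨-(3 ^ 18 * y20), ?_⟩
    unfold TT at hM
    rw [hppZ] at hM
    have hxe : (xx K X q j : ℤ) = e - H * D := by linarith
    rw [hxe] at hM
    have h3 : (3 : ℤ) ^ 20 = 9 * 3 ^ 18 := by norm_num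
    rw [h3] at hy20
    rw [hHp] at hM ⊢
    linear_combination -hM - hy20
  have h9' := hcop.dvd_of_dvd_mul_left h9
  obtain ⟨r, hr⟩ := h9'
  -- residues modulo 3
  obtain ⟨c, hc⟩ := hy
  set sh : ℕ := (z + yv) % 3 with hsh
  have hsh3 : ∃ t : ℤ, (z : ℤ) + yv = sh + 3 * t := by
    refine ⟨((z + yv) / 3 : ℕ), ?_⟩
    have := Nat.mod_add_div (z + yv) 3
    rw [hsh]
    exact_mod_cast this.symm
  obtain ⟨t, ht⟩ := hsh3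
  have hLsq : (3 : ℤ) ∣ (2 ^ (K + 1)) ^ 2 - 1 := taz_pow_two_mod _
  have hHsq : (3 : ℤ) ∣ H ^ 2 - 1 := taz_pow_two_mod _
  obtain ⟨lq, hlq⟩ := hLsq
  obtain ⟨hq', hhq⟩ := hHsq
  have heL : e = 2 ^ (K + 1) * (sh + 3 * t) + 3 * c := by
    rw [he, ← ht]; linear_combination hc
  have hE : ∃ u : ℤ, e * H - 2 ^ q * sh = 3 * u := by
    refine ⟨2 ^ q * sh * hq' + H * 2 ^ (K + 1) * t + c * H, ?_⟩
    rw [heL, hL]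
    linear_combination (2 ^ q * (sh : ℤ)) * hhq
  obtain ⟨u, hu⟩ := hE
  have hE2 : ∃ w : ℤ, 3 * e ^ 2 - (if sh = 0 then 0 else 3) = 9 * w := by
    have h1 : ∃ w : ℤ, e ^ 2 - (sh : ℤ) ^ 2 = 3 * w := by
      refine ⟨(sh : ℤ) ^ 2 * lq + 2 * (2 ^ (K + 1) * sh) * (2 ^ (K + 1) * t + c) + 3 * (2 ^ (K + 1) * t + c) ^ 2, ?_⟩
      rw [heL]
      linear_combination ((sh : ℤ) ^ 2) * hlq
    obtain ⟨w, hw⟩ := h1
    have h2 : ∃ w' : ℤ, 3 * (sh : ℤ) ^ 2 - (if sh = 0 then 0 else 3) = 9 * w' := by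
      have hlt : sh < 3 := Nat.mod_lt _ (by norm_num)
      interval_cases sh
      · exact ⟨0, by norm_num⟩
      · exact ⟨0, by norm_num⟩
      · exact ⟨1, by norm_num⟩
    obtain ⟨w', hw'⟩ := h2
    exact ⟨w + w', by linear_combination 3 * hw + hw'⟩
  obtain ⟨w, hw⟩ := hE2
  apply Int.modEq_iff_dvd.2
  unfold F9
  rw [← hl2]
  refine ⟨-(r + D * w - D ^ 2 * u - D ^ 2 * sh * 2 ^ q + D ^ 3 * a - D
    - S3 * (7 * a - 3 * p ^ 2) - 7 * l2 * S3), ?_⟩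
  rw [hHp] at ha hu hr
  rw [hHp] at *
  linear_combination -hr - D * hw + 3 * D ^ 2 * hu - (D ^ 3 - 7 * S3) * ha

theorem F9_congr {q S3 Su sh kap : ℕ} {D D' : ℤ} (h : D ≡ D' [ZMOD 9]) :
    F9 q S3 Su D sh kap ≡ F9 q S3 Su D' sh kap [ZMOD 9] := by
  unfold F9
  gcongr

theorem n9_eq (q S3 Su D sh kap : ℕ) :
    ((n9 q S3 Su D sh kap : ℕ) : ℤ) = F9 q S3 Su D sh kap := by
  have h : n9 q S3 Su D sh kap = D * (8 + (if sh = 0 then 0 else 3) +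
      (6 * sh * (D * 2 ^ q) + 4 ^ (kap + 1) * 7 ^ q * (D * D))) + Su +
      8 * (4 ^ (kap + 1) * 7 ^ q * 7 * S3) := by
    have hcd : cd (Nat.beq sh 0) 0 3 = (if sh = 0 then 0 else 3) := by
      cases sh with
      | zero => rfl
      | succ n => rfl
    show D * (8 + cd (Nat.beq sh 0) 0 3 +
      (6 * sh * (D * 2 ^ q) + 4 ^ (kap + 1) * 7 ^ q * (D * D))) + Su +
      8 * (4 ^ (kap + 1) * 7 ^ q * 7 * S3) = _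
    rw [hcd]
  rw [h]
  unfold F9
  push_cast
  rfl

end Pool.H94.Pol
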