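import Pool.Agent.H94.Pol.TwoAdic
import Pool.Agent.H94.Pol.ThreeAdic
import Pool.Agent.H94.Pol.ThreeAdicZ
import Pool.Agent.H94.Pol.Geo

/-!
Soundness of a leaf. `geo_sound`, `two_dvd`, `three_dvd` (or `three_dvdZ`) give `M` with
`TT = 6 p M`, `0 ≤ M`, `16 M ≤ C16 p^2`; the residues modulo `2^i` and `3^jj` are those of the
checker (`two_res`, `r2_partial`, `three_res`, `F27_congr`, ...); the slot gives a representation in
the box and `rep7_of_pairs` finishes.
-/

namespace Pool.H94.Pol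

lemma cd_beq {α : Type} (a b : ℕ) (t e : α) : cd (Nat.beq a b) t e = if a = b then t else e := by
  by_cases h : a = b
  · subst h
    rw [if_pos rfl, Nat.beq_refl]
    rfl
  · rw [if_neg h]
    have : Nat.beq a b = false := by
      cases h' : Nat.beq a b with
      | false => rfl
      | true => exact absurd (Nat.eq_of_beq_eq_true h') h
    rw [this]
    rfl

/-- the residue of `M` modulo `3 ^ jj` from `3 M` -/
lemma mod_of_three {m v jj : ℕ} (hjj : jj ≤ 2) (h : (3 * (m : ℤ)) ≡ (v : ℤ) [ZMOD 3 ^ (jj + 1)]) :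
    m % 3 ^ jj = v % 27 / 3 % 3 ^ jj := by
  unfold Int.ModEq at h
  interval_cases jj <;> norm_num at h ⊢ <;> omega

/-- the residue classes of the two data determine a representation -/
theorem leaf_fin {N K X q b j : ℕ} {slot : ℕ} (hslot : SlotOK slot)
    (hT0 : 0 ≤ TT N K X q b j (bits slot 0 255) (bits slot 8 1048575))
    (hT1 : 16 * TT N K X q b j (bits slot 0 255) (bits slot 8 1048575) ≤
      6 * (bits slot 28 1048575 : ℕ) * (pp K q b : ℤ) ^ 3)
    (h2 : (2 : ℤ) ^ (K - q + 1) ∣ TT N K X q b j (bits slot 0 255) (bits slot 8 1048575))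
    (h3 : (3 : ℤ) ^ (b + 1) ∣ TT N K X q b j (bits slot 0 255) (bits slot 8 1048575))
    {i jj : ℕ} (hi : i ≤ 5) (hjj : jj ≤ 2)
    (hres : ∀ m : ℕ, TT N K X q b j (bits slot 0 255) (bits slot 8 1048575) =
      6 * pp K q b * (m : ℤ) → tabBit slot i jj (m % 2 ^ i) (m % 3 ^ jj) = true) : Rep7 N := by
  obtain ⟨u1, u2, u3, hSu, hS3, hrep⟩ := hslot
  set Su := bits slot 0 255 with hSudef
  set S3 := bits slot 8 1048575 with hS3def
  have hpp : (0 : ℤ) < pp K q b := by
    unfold pp; positivity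
  have hprod : (2 : ℤ) ^ (K - q + 1) * 3 ^ (b + 1) = 6 * pp K q b := by
    unfold pp; push_cast; ring
  have hco : IsCoprime ((2 : ℤ) ^ (K - q + 1)) (3 ^ (b + 1)) := by
    refine IsCoprime.pow ?_
    exact ⟨-1, 1, by norm_num⟩
  obtain ⟨M, hM⟩ : (6 * (pp K q b : ℤ)) ∣ TT N K X q b j Su S3 := by
    rw [← hprod]
    exact hco.mul_dvd h2 h3
  have hM0 : 0 ≤ M := by
    by_contra hneg
    push Not at hneg
    have : 6 * (pp K q b : ℤ) * M < 0 := mul_neg_of_pos_of_neg (by linarith) hneg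
    linarith
  obtain ⟨m, rfl⟩ : ∃ m : ℕ, M = m := ⟨M.toNat, (Int.toNat_of_nonneg hM0).symm⟩
  have hbit := hres m hM
  have hbound : 16 * m ≤ bits slot 28 1048575 * (pp K q b) ^ 2 := by
    have h4 : (6 * (pp K q b : ℤ)) * (16 * (m : ℤ)) ≤
        (6 * (pp K q b : ℤ)) * ((bits slot 28 1048575 : ℕ) * (pp K q b : ℤ) ^ 2) := by
      have e1 : (6 * (pp K q b : ℤ)) * (16 * (m : ℤ)) = 16 * TT N K X q b j Su S3 := by
        rw [hM]; ring
      rw [e1]
      refine hT1.trans (le_of_eq ?_)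
      ring
    have h5 := le_of_mul_le_mul_left h4 (by linarith)
    exact_mod_cast h5
  obtain ⟨a1, a2, a3, ha, hb1, hb2, hb3⟩ := hrep i jj m (pp K q b) hi hjj hbit hbound
  refine rep7_of_pairs N (pp K q b) (xx K X q j) u1 u2 u3 m a1 a2 a3 hb1 hb2 hb3 ha ?_
  have hSu' : (Su : ℤ) = u1 + u2 + u3 := by exact_mod_cast hSu
  have hS3' : (S3 : ℤ) = u1 ^ 3 + u2 ^ 3 + u3 ^ 3 := by exact_mod_cast hS3
  unfold TT at hM
  rw [hSu', hS3'] at hM
  linear_combination hM

theorem leaf_core {N K X W yv w n1 n2 T ph ms W' tau y eta kap mz z slot q b j i jj : ℕ}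
    (hK : 20 ≤ K) (hN : N < 8 ^ (K + 1)) (hev : X % 2 = 0)
    (hE : (2 : ℤ) ^ (K + 11) ∣ ((X : ℤ) + 2 ^ (K + 1) * W) ^ 3 - ((X : ℤ) + 2 ^ (K + 1) * W) - 6 * N)
    (hyv : (3 : ℤ) ∣ (X : ℤ) - 2 ^ (K + 1) * yv)
    (hw : (3 : ℤ) ^ 20 ∣ ((X : ℤ) + 2 ^ (K + 1) * w) ^ 3 - ((X : ℤ) + 2 ^ (K + 1) * w) - 6 * N)
    (hn1 : n1 * 8 ^ K ≤ N * 2 ^ 24) (hn2 : N * 2 ^ 24 ≤ n2 * 8 ^ K)
    (hp1 : ph * 2 ^ (K + 1) ≤ X * 2 ^ T) (hp2 : X * 2 ^ T < (ph + 1) * 2 ^ (K + 1))
    (hms : ∃ s, ms = 2 ^ s) (hW : W % ms = W')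
    (htau : tau = 3 ∨ (tau = 0 ∧ X ^ 2 % 32 = 0) ∨ (tau = 1 ∧ X ^ 2 % 32 = 4) ∨
      (tau = 2 ∧ X ^ 2 % 32 = 16))
    (hy : y = 3 ∨ yv % 3 = y) (heta : eta = 3 ∨ N * 2 ^ (K + 1) % 3 = eta)
    (hkap : kap = 3 ∨ K % 3 = kap) (hmz : ∃ d, mz = 3 ^ d) (hz : w % mz = z)
    (hslot : SlotOK slot) (hq : q ≤ 15) (hb : b ≤ 15)
    (hqT : q ≤ T)
    (hgeo : geo n1 n2 T ph q b j (bits slot 8 1048575) (bits slot 28 1048575) = true)
    (hi : i ≤ if tau = 3 then 2 else 5) (hims : 2 ^ i ≤ ms * 2 ^ q)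
    (h3 : (if b = 0 then
        leafZ slot q j i jj (bits slot 0 255) (bits slot 8 1048575) (ph / 2 ^ (T - q))
          (r2 q b j i (bits slot 0 255) (ph / 2 ^ (T - q)) W'
            (if tau = 0 then 0 else if tau = 1 then 4 else 16)) y kap mz z
      else leafB slot q b j i jj (bits slot 0 255) (bits slot 8 1048575) (ph / 2 ^ (T - q))
          (r2 q b j i (bits slot 0 255) (ph / 2 ^ (T - q)) W'
            (if tau = 0 then 0 else if tau = 1 then 4 else 16)) y eta mz z) = true) : Rep7 N := by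
  have hqK : q ≤ K := by omega
  have hkk : kk K X q = ph / 2 ^ (T - q) := kk_eq hqT hqK hp1 hp2
  have hi5 : i ≤ 5 := by
    split_ifs at hi <;> omega
  obtain ⟨u1, u2, u3, hSu, hS3, hrep⟩ := id hslot
  obtain ⟨hT0, hT1⟩ := geo_sound (Su := bits slot 0 255) hK hN hn1 hn2 hp1 hp2 hq hqT hSu hS3 hgeo
  have h2 := two_dvd (b := b) (j := j) (Su := bits slot 0 255) (S3 := bits slot 8 1048575)
    hK hq hev hE
  -- residue modulo `2 ^ i`
  have hM2 : ∀ m : ℕ, TT N K X q b j (bits slot 0 255) (bits slot 8 1048575) =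
      6 * pp K q b * (m : ℤ) →
      m % 2 ^ i = r2 q b j i (bits slot 0 255) (ph / 2 ^ (T - q)) W'
            (if tau = 0 then 0 else if tau = 1 then 4 else 16) := by
    intro m hm
    have e1 := two_res hK hq hev hE hm
    rw [hkk] at e1
    have e2 : m % 32 = r2 q b j 5 (bits slot 0 255) (ph / 2 ^ (T - q)) W (X ^ 2 % 32) % 32 := by
      have := (Int.natCast_modEq_iff (n := 32)).1 (by exact_mod_cast e1)
      exact this
    have hdiv : 2 ^ i ∣ 32 := by
      have : (32 : ℕ) = 2 ^ 5 := by norm_num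
      rw [this]
      exact pow_dvd_pow 2 hi5
    have e3 : m % 2 ^ i = r2 q b j 5 (bits slot 0 255) (ph / 2 ^ (T - q)) W (X ^ 2 % 32) % 2 ^ i := by
      rw [← Nat.mod_mod_of_dvd m hdiv, e2, Nat.mod_mod_of_dvd _ hdiv]
    rw [e3, ← hW]
    refine r2_partial hi5 hev ?_ _ ?_
    · obtain ⟨s, rfl⟩ := hms
      rw [← pow_add] at hims ⊢
      exact pow_dvd_pow 2 ((Nat.pow_le_pow_iff_right (by norm_num)).1 hims)
    · rcases htau with h | ⟨h, h'⟩ | ⟨h, h'⟩ | ⟨h, h'⟩
      · right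
        subst h
        simp at hi
        exact ⟨hi, by simp⟩
      · left; subst h; simpa using h'
      · left; subst h; simpa using h'
      · left; subst h; simpa using h'
  obtain ⟨d, rfl⟩ := hmz
  by_cases hb0 : b = 0
  · subst hb0
    rw [if_pos rfl] at h3
    have hd3 := three_dvdZ (N := N) (K := K) (X := X) (q := q) (j := j) (Su := bits slot 0 255)
      (S3 := bits slot 8 1048575) (by
        rw [hSu, hS3]
        push_cast
        have hc : ∀ u : ℕ, (u : ℤ) ^ 3 ≡ u [ZMOD 3] := by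
          intro u
          have : ((u : ℤ) % 3 = 0 ∨ (u : ℤ) % 3 = 1 ∨ (u : ℤ) % 3 = 2) := by omega
          unfold Int.ModEq
          rcases this with h | h | h <;> simp [pow_succ, Int.mul_emod, h]
        exact ((hc u1).add (hc u2)).add (hc u3))
    have hd3' : (3 : ℤ) ^ (0 + 1) ∣ TT N K X q 0 j (bits slot 0 255) (bits slot 8 1048575) := by
      simpa using hd3
    unfold leafZ at h3
    rw [cd_beq] at h3
    by_cases hjj0 : jj = 0
    · rw [if_pos hjj0] at h3
      subst hjj0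
      refine leaf_fin hslot hT0 hT1 h2 hd3' hi5 (jj := 0) (by norm_num) fun m hm => ?_
      rw [hM2 m hm]
      have : m % 3 ^ 0 = 0 := by simp [Nat.mod_one]
      rw [this]
      exact h3
    · rw [if_neg hjj0] at h3
      simp only [an_eq_true, Nat.beq_eq, Nat.ble_eq] at h3
      obtain ⟨⟨hjj, h9⟩, ⟨hy2, hk2⟩, htab⟩ := h3
      subst hjj
      refine leaf_fin hslot hT0 hT1 h2 hd3' hi5 (jj := 1) (by norm_num) fun m hm => ?_
      rw [hM2 m hm]
      have hyv' : yv % 3 = y := by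
        rcases hy with h | h
        · omega
        · exact h
      have hK3 : K % 3 = kap := by
        rcases hkap with h | h
        · omega
        · exact h
      have h9d : 9 ∣ 3 ^ d := by
        have : (9 : ℕ) = 3 ^ 2 := by norm_num
        rw [this] at h9 ⊢
        exact pow_dvd_pow 3 ((Nat.pow_le_pow_iff_right (by norm_num)).1 h9)
      have hwz : w % 9 = z % 9 := by
        rw [← hz, Nat.mod_mod_of_dvd _ h9d]
      have hsh : (w + yv) % 3 = (z + y) % 3 := by omega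
      have e1 := three_resZ hK hq hw hyv hm
      rw [hsh, hK3] at e1
      have hD : (2 ^ q * (w : ℤ) + (kk K X q : ℤ) - j) ≡
          ((rD q j (ph / 2 ^ (T - q)) z 9 : ℕ) : ℤ) [ZMOD 9] := by
        rw [hkk]
        have e2 : ((rD q j (ph / 2 ^ (T - q)) z 9 : ℕ) : ℤ) ≡
            ((z * 2 ^ q + ph / 2 ^ (T - q) + 8 * j : ℕ) : ℤ) [ZMOD 9] := by
          have : rD q j (ph / 2 ^ (T - q)) z 9 = (z * 2 ^ q + ph / 2 ^ (T - q) + 8 * j) % 9 := by
            unfold rD
            show (z <<< q + ph / 2 ^ (T - q) + 8 * j) % 9 = _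
            rw [Nat.shiftLeft_eq]
          rw [this]
          exact_mod_cast (Int.natCast_modEq_iff.2 (Nat.mod_modEq _ _))
        refine Int.ModEq.trans ?_ e2.symm
        have hwz' : (w : ℤ) ≡ (z : ℤ) [ZMOD 9] := by
          exact_mod_cast (Int.natCast_modEq_iff (n := 9)).2 hwz
        have h8 : (-(j : ℤ)) ≡ 8 * (j : ℤ) [ZMOD 9] :=
          (Int.modEq_iff_dvd).2 ⟨j, by ring⟩
        have := ((hwz'.mul_left (2 ^ q)).add_right ((ph / 2 ^ (T - q) : ℕ) : ℤ)).add h8
        push_cast at this ⊢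
        have e4 : (2 : ℤ) ^ q * (z : ℤ) = z * 2 ^ q := by ring
        rw [e4] at this
        exact this
      have e5 := e1.trans (F9_congr hD)
      rw [← n9_eq] at e5
      have e6 := mod_of_three (jj := 1) (by norm_num) (by simpa using e5)
      have e7 : m % 3 ^ 1 = n9 q (bits slot 8 1048575) (bits slot 0 255)
          (rD q j (ph / 2 ^ (T - q)) z 9) ((z + y) % 3) kap % 9 / 3 := by
        rw [e6]
        omega
      rw [e7]
      exact htab
  · rw [if_neg hb0] at h3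
    have hb1 : 1 ≤ b := Nat.one_le_iff_ne_zero.2 hb0
    unfold leafB at h3
    simp only [an_eq_true, Nat.ble_eq, cd_beq, Nat.beq_eq] at h3
    obtain ⟨⟨hm, hjj⟩, hcond, hDm, htab⟩ := h3
    have hm' : 3 ^ (b + 1 + jj) ∣ 3 ^ d := by
      have : 3 ^ (b + 1 + jj) ≤ 3 ^ d := hm
      exact pow_dvd_pow 3 ((Nat.pow_le_pow_iff_right (by norm_num)).1 this)
    -- the value `D'`
    set D' := rD q j (ph / 2 ^ (T - q)) z (Nat.pow 3 (Nat.add b.succ jj)) with hD'
    clear_value D'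
    have hmm : Nat.pow 3 (Nat.add b.succ jj) = 3 ^ (b + 1 + jj) := rfl
    have hwz : w ≡ z [MOD 3 ^ (b + 1 + jj)] := by
      show w % 3 ^ (b + 1 + jj) = z % 3 ^ (b + 1 + jj)
      rw [← hz, Nat.mod_mod_of_dvd _ hm']
    have hD : (2 ^ q * (w : ℤ) + (kk K X q : ℤ) - j) ≡ (D' : ℤ) [ZMOD 3 ^ (b + 1 + jj)] := by
      rw [hkk]
      have e2 : (D' : ℤ) ≡
          ((z * 2 ^ q + ph / 2 ^ (T - q) + (3 ^ (b + 1 + jj) - 1) * j : ℕ) : ℤ)
            [ZMOD 3 ^ (b + 1 + jj)] := by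
        have : D' = (z * 2 ^ q + ph / 2 ^ (T - q) + (3 ^ (b + 1 + jj) - 1) * j) %
            3 ^ (b + 1 + jj) := by
          rw [hD']
          unfold rD
          show (z <<< q + ph / 2 ^ (T - q) + (3 ^ (b + 1 + jj) - 1) * j) % 3 ^ (b + 1 + jj) = _
          rw [Nat.shiftLeft_eq]
        rw [this]
        have := (Int.natCast_modEq_iff (n := 3 ^ (b + 1 + jj))).2
          (Nat.mod_modEq (z * 2 ^ q + ph / 2 ^ (T - q) + (3 ^ (b + 1 + jj) - 1) * j)
            (3 ^ (b + 1 + jj)))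
        push_cast at this ⊢
        exact this
      refine Int.ModEq.trans ?_ e2.symm
      have hwz' : (w : ℤ) ≡ (z : ℤ) [ZMOD 3 ^ (b + 1 + jj)] := by
        have := (Int.natCast_modEq_iff (n := 3 ^ (b + 1 + jj))).2 hwz
        push_cast at this
        exact this
      have hpos : 1 ≤ 3 ^ (b + 1 + jj) := Nat.one_le_pow _ _ (by norm_num)
      have h8 : (-(j : ℤ)) ≡ ((3 ^ (b + 1 + jj) - 1 : ℕ) : ℤ) * (j : ℤ) [ZMOD 3 ^ (b + 1 + jj)] := by
        refine (Int.modEq_iff_dvd).2 ⟨j, ?_⟩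
        rw [Nat.cast_sub hpos]
        push_cast
        ring
      have := ((hwz'.mul_left (2 ^ q)).add_right ((ph / 2 ^ (T - q) : ℕ) : ℤ)).add h8
      have e4 : (2 : ℤ) ^ q * (z : ℤ) = z * 2 ^ q := by ring
      rw [e4] at this
      rw [Nat.cast_add, Nat.cast_add, Nat.cast_mul, Nat.cast_mul]
      rw [Nat.cast_pow]
      exact this
    have hDm' : D' % (3 * 3 ^ b) = 3 ^ b * (bits slot 0 255 % 3) := hDm
    -- divisibility
    have hDS : (3 : ℤ) ^ (b + 1) ∣ 2 ^ q * w + (kk K X q : ℤ) - j - 3 ^ b * (bits slot 0 255 : ℕ) := by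
      have e1 : (2 ^ q * (w : ℤ) + (kk K X q : ℤ) - j) ≡ (D' : ℤ) [ZMOD 3 ^ (b + 1)] :=
        hD.of_dvd (pow_dvd_pow 3 (by omega))
      have e2 : (D' : ℤ) ≡ ((3 ^ b * (bits slot 0 255 % 3) : ℕ) : ℤ) [ZMOD 3 ^ (b + 1)] := by
        rw [← hDm']
        have := (Int.natCast_modEq_iff (n := 3 * 3 ^ b)).2 (Nat.mod_modEq D' (3 * 3 ^ b))
        have e : ((3 * 3 ^ b : ℕ) : ℤ) = 3 ^ (b + 1) := by push_cast; ring
        rw [e] at this
        exact this.symm
      have e3 : ((3 ^ b * (bits slot 0 255 % 3) : ℕ) : ℤ) ≡ 3 ^ b * (bits slot 0 255 : ℕ)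
          [ZMOD 3 ^ (b + 1)] := by
        refine (Int.modEq_iff_dvd).2 ⟨((bits slot 0 255 / 3 : ℕ) : ℤ), ?_⟩
        have := Nat.div_add_mod (bits slot 0 255) 3
        have e : ((bits slot 0 255 : ℕ) : ℤ) = 3 * ((bits slot 0 255 / 3 : ℕ) : ℤ) +
            ((bits slot 0 255 % 3 : ℕ) : ℤ) := by exact_mod_cast this.symm
        rw [Nat.cast_mul, Nat.cast_pow]
        rw [pow_succ]
        linear_combination (3 : ℤ) ^ b * e
      have := (Int.modEq_iff_dvd).1 ((e1.trans e2).trans e3).symm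
      exact this
    have hd3 := three_dvd (N := N) (S3 := bits slot 8 1048575) hK hq hb1 hb hw hDS
    -- the quotient
    have hPb : 3 ^ b ∣ D' := by
      have e1 : D' = 3 * 3 ^ b * (D' / (3 * 3 ^ b)) + 3 ^ b * (bits slot 0 255 % 3) := by
        rw [← hDm']
        exact (Nat.div_add_mod D' (3 * 3 ^ b)).symm
      rw [e1]
      exact Dvd.dvd.add (Dvd.intro_left (3 * (D' / (3 * 3 ^ b))) (by ring)) (Dvd.intro _ rfl)
    obtain ⟨g', hg'⟩ := hPb
    have hg'' : D' / 3 ^ b = g' := by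
      rw [hg']
      exact Nat.mul_div_cancel_left _ (by positivity)
    obtain ⟨t, ht⟩ := (Int.modEq_iff_dvd).1 hD.symm
    have hDg : 2 ^ q * (w : ℤ) + (kk K X q : ℤ) - j = 3 ^ b * ((g' : ℤ) + 3 ^ (jj + 1) * t) := by
      have e1 : (D' : ℤ) = 3 ^ b * g' := by
        rw [hg']; push_cast; ring
      have e2 : (3 : ℤ) ^ (b + 1 + jj) = 3 ^ b * 3 ^ (jj + 1) := by
        rw [← pow_add, show b + 1 + jj = b + (jj + 1) by ring]
      rw [e1, e2] at ht
      linear_combination ht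
    have hgg : ((g' : ℤ) + 3 ^ (jj + 1) * t) ≡ (g' : ℤ) [ZMOD 3 ^ (jj + 1)] :=
      (Int.modEq_iff_dvd).2 ⟨-t, by ring⟩
    refine leaf_fin hslot hT0 hT1 h2 hd3 hi5 hjj fun m hm2 => ?_
    rw [hM2 m hm2]
    have e1 := three_res hK hq hb1 hb hw hyv hDg hm2
    have e2 : 3 * (m : ℤ) ≡ F27 q b (bits slot 8 1048575) (bits slot 0 255) g'
        ((w + yv) % 3) (N * 2 ^ (K + 1) % 3) [ZMOD 3 ^ (jj + 1)] := by
      refine (Int.ModEq.of_dvd ?_ e1).trans (F27_congr hjj hgg)
      have : (27 : ℤ) = 3 ^ 3 := by norm_num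
      rw [this]
      exact pow_dvd_pow 3 (by omega)
    have hwz3 : w % 3 = z % 3 := by
      have : 3 ∣ 3 ^ (b + 1 + jj) := dvd_pow_self 3 (by omega)
      exact hwz.of_dvd this
    have e3 : 3 * (m : ℤ) ≡ ((n27 q b (bits slot 8 1048575) (bits slot 0 255) g'
        ((z + y) % 3) eta : ℕ) : ℤ) [ZMOD 3 ^ (jj + 1)] ∨ jj = 0 := by
      by_cases hj0 : jj = 0
      · right; exact hj0
      left
      rw [if_neg hj0, an_eq_true, Nat.ble_eq] at hcond
      obtain ⟨hy2, hcond⟩ := hcond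
      have hyv' : yv % 3 = y := by
        rcases hy with h | h
        · have : y ≤ 2 := hy2
          omega
        · exact h
      have hsh : (w + yv) % 3 = (z + y) % 3 := by omega
      rw [hsh] at e2
      rw [n27_eq]
      by_cases hj1 : jj = 1
      · subst hj1
        have := F27_eta (q := q) (b := b) (S3 := bits slot 8 1048575) (Su := bits slot 0 255)
          (sh := (z + y) % 3) (eta := N * 2 ^ (K + 1) % 3) (eta' := eta) (g := g')
        refine e2.trans ?_
        simpa using this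
      · rw [if_neg hj1, Nat.ble_eq] at hcond
        have heta' : N * 2 ^ (K + 1) % 3 = eta := by
          rcases heta with h | h
          · have : eta ≤ 2 := hcond
            omega
          · exact h
        rw [heta'] at e2
        exact e2
    have htab' : tabBit slot i jj (r2 q b j i (bits slot 0 255) (ph / 2 ^ (T - q)) W'
            (if tau = 0 then 0 else if tau = 1 then 4 else 16))
        (n27 q b (bits slot 8 1048575) (bits slot 0 255) (D' / 3 ^ b) ((z + y) % 3) eta % 27 / 3 %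
          3 ^ jj) = true := htab
    rw [hg''] at htab'
    rcases e3 with e3 | hj0
    · rw [mod_of_three hjj e3]
      exact htab'
    · subst hj0
      have e5 : m % 3 ^ 0 = n27 q b (bits slot 8 1048575) (bits slot 0 255) g' ((z + y) % 3) eta % 27 / 3 %
          3 ^ 0 := by
        rw [pow_zero, Nat.mod_one, Nat.mod_one]
      rw [e5]
      exact htab'

set_option exponentiation.threshold 2000 in
set_option maxRecDepth 100000 in
lemma leaf_smask : smask = 2 ^ 1024 - 1 := by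
  unfold smask
  norm_num

lemma leaf_bits_one (x off : ℕ) : bits x off 1 = 1 ↔ x.testBit off = true := by
  unfold bits
  rw [Nat.testBit_eq_decide_div_mod_eq, decide_eq_true_eq]
  change (x >>> off) &&& 1 = 1 ↔ _
  rw [Nat.and_one_is_mod, Nat.shiftRight_eq_div_pow]

lemma leaf_tab_mod {s i jj x y : ℕ} (h : tabBit (s % 2 ^ 1024) i jj x y = true) :
    tabBit s i jj x y = true := by
  unfold tabBit at h ⊢
  beta_reduce at h ⊢
  rw [Nat.beq_eq, leaf_bits_one, Nat.testBit_mod_two_pow, Bool.and_eq_true] at h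
  rw [Nat.beq_eq, leaf_bits_one]
  exact h.2

lemma leaf_land_mod (s n : ℕ) : Nat.land s (2 ^ n - 1) = s % 2 ^ n :=
  Nat.and_two_pow_sub_one_eq_mod s n

lemma leaf_slot_mod {s : ℕ} (h : SlotOK s) : SlotOK (Nat.land s smask) := by
  have hs : Nat.land s smask = s % 2 ^ 1024 := by
    rw [leaf_smask, leaf_land_mod]
  rw [hs]
  have hb : ∀ off w : ℕ, off + w ≤ 1024 →
      bits (s % 2 ^ 1024) off (2 ^ w - 1) = bits s off (2 ^ w - 1) := by
    intro off w hw
    apply Nat.eq_of_testBit_eq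
    intro k
    change (((s % 2 ^ 1024) >>> off) &&& (2 ^ w - 1)).testBit k =
      ((s >>> off) &&& (2 ^ w - 1)).testBit k
    rw [Nat.testBit_and, Nat.testBit_and, Nat.testBit_shiftRight, Nat.testBit_shiftRight,
      Nat.testBit_two_pow_sub_one, Nat.testBit_mod_two_pow]
    by_cases h : k < w
    · have h' : off + k < 1024 := by omega
      simp [h']
    · simp [h]
  obtain ⟨u1, u2, u3, h1, h2, h3⟩ := h
  have e1 : bits (s % 2 ^ 1024) 0 255 = bits s 0 255 := hb 0 8 (by norm_num)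
  have e2 : bits (s % 2 ^ 1024) 8 1048575 = bits s 8 1048575 := hb 8 20 (by norm_num)
  have e3 : bits (s % 2 ^ 1024) 28 1048575 = bits s 28 1048575 := hb 28 20 (by norm_num)
  refine ⟨u1, u2, u3, e1.trans h1, e2.trans h2, ?_⟩
  intro i jj M p hi hjj hbit hM
  rw [e3] at hM
  refine h3 i jj M p hi hjj ?_ hM
  exact leaf_tab_mod hbit

theorem leaf_sound {DB N K X W yv w0 w1 w2 n1 n2 T ph ms W' tau y eta kap m0 z0 m1 z1 m2 z2 tok0 : ℕ}
    (hDB : DBOK DB) (he : Env N K X W yv w0 w1 w2)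
    (hs : InSt N K X W yv w0 w1 w2 n1 n2 T ph ms W' tau y eta kap m0 z0 m1 z1 m2 z2)
    (h : leaf DB n1 n2 T ph ms W' tau y eta kap m0 z0 m1 z1 m2 z2 tok0 = true) : Rep7 N := by
  unfold leaf at h
  beta_reduce at h
  generalize Nat.land tok0 1099511627775 = tok at h
  simp only [an_eq_true, cd_beq, Nat.ble_eq] at h
  have eP : ∀ a b : ℕ, Nat.shiftRight a b = a / 2 ^ b := fun a b => Nat.shiftRight_eq_div_pow a b
  have eL : ∀ a b : ℕ, Nat.shiftLeft a b = a * 2 ^ b := fun a b => Nat.shiftLeft_eq a b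
  have hmask : ∀ x off mask : ℕ, bits x off mask ≤ mask := fun x off mask => Nat.and_le_right
  have hslot : SlotOK (Nat.land (DB.shiftRight ((bits tok 19 511).shiftLeft 10)) smask) := by
    apply leaf_slot_mod
    have h1 := hDB (bits tok 19 511)
    have h2 : DB.shiftRight ((bits tok 19 511).shiftLeft 10) = DB >>> (1024 * bits tok 19 511) := by
      have : (bits tok 19 511).shiftLeft 10 = 1024 * bits tok 19 511 := by
        rw [eL]; ring
      rw [this]
      rfl
    rw [h2]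
    exact h1
  have hq := hmask tok 6 15
  have hb := hmask tok 10 15
  generalize Nat.land (DB.shiftRight ((bits tok 19 511).shiftLeft 10)) smask = slot at h hslot
  generalize bits tok 6 15 = q at h hq
  generalize bits tok 10 15 = b at h hb
  generalize bits tok 14 7 = i at h
  generalize bits tok 17 3 = jj at h
  generalize bits tok 28 4095 = j at h
  have hR : ph.shiftRight (T.sub q) = ph / 2 ^ (T - q) := eP _ _
  rw [hR] at h
  obtain ⟨⟨hqT, hgeo⟩, ⟨hi, hims⟩, h3⟩ := h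
  have hims' : 2 ^ i ≤ ms * 2 ^ q := by
    have : Nat.pow 2 i ≤ ms.shiftLeft q := hims
    rw [eL] at this
    exact this
  by_cases hc0 : bits tok 4 3 = 0
  · rw [if_pos hc0, if_pos hc0] at h3
    exact leaf_core he.hK he.hN he.hev he.hE he.hy he.h0 hs.hn1 hs.hn2 hs.hp1 hs.hp2 hs.hms hs.hW
      hs.htau hs.hy hs.heta hs.hkap hs.hm0 hs.hz0 hslot hq hb hqT hgeo hi hims' h3
  · rw [if_neg hc0, if_neg hc0] at h3
    by_cases hc1 : bits tok 4 3 = 1
    · rw [if_pos hc1, if_pos hc1] at h3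
      exact leaf_core he.hK he.hN he.hev he.hE he.hy he.h1 hs.hn1 hs.hn2 hs.hp1 hs.hp2 hs.hms hs.hW
        hs.htau hs.hy hs.heta hs.hkap hs.hm1 hs.hz1 hslot hq hb hqT hgeo hi hims' h3
    · rw [if_neg hc1, if_neg hc1] at h3
      exact leaf_core he.hK he.hN he.hev he.hE he.hy he.h2 hs.hn1 hs.hn2 hs.hp1 hs.hp2 hs.hms hs.hW
        hs.htau hs.hy hs.heta hs.hkap hs.hm2 hs.hz2 hslot hq hb hqT hgeo hi hims' h3

end Pool.H94.Pol
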