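import Pool.Agent.H94.Pol.Ker

/-!
Checker of the covering tree (definitions only).

Slot of the data base (1024 bits): `u1 + u2 + u3` (8 bits), `u1^3 + u2^3 + u3^3` (20 bits), `C16`
(20 bits), then the level tables: the table of level `(i, jj)`, `i ≤ 5`, `jj ≤ 2`, starts at
`48 + 13 (2^i - 1) + 2^i (3^jj - 1) / 2` and has `2^i 3^jj` bits, index
`(M % 2^i) 3^jj + M % 3^jj`.

Token of a leaf (40 bits): type `10` (4 bits), `c` (2), `q` (4), `b` (4), `i` (3), `jj` (2), `f` (9),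
`j` (12).
-/

namespace Pool.H94.Pol

/-- geometric window, `N 2^24 / 8^K` in `[n1, n2]`, `X 2^T / 2^(K+1)` in `[ph, ph + 1)` -/
def geo (n1 n2 T ph q b j S3 C16 : ℕ) : Bool :=
  (fun R P => (fun X P8 => an
    (Nat.ble (Nat.shiftLeft (Nat.add (Nat.mul (nat_lit 4) (Nat.pow (Nat.succ X) (nat_lit 3)))
        (Nat.mul P8 S3)) (nat_lit 24))
      (Nat.shiftLeft (Nat.mul (nat_lit 3) n1) (Nat.mul (nat_lit 3) T)))
    (Nat.ble (Nat.shiftLeft (Nat.mul (nat_lit 3) (Nat.succ n2)) (Nat.add (Nat.mul (nat_lit 3) T) (nat_lit 4)))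
      (Nat.shiftLeft (Nat.add (Nat.mul (nat_lit 64) (Nat.pow X (nat_lit 3)))
        (Nat.mul P8 (Nat.add (Nat.mul (nat_lit 16) S3) (Nat.mul (nat_lit 3) C16)))) (nat_lit 24))))
    (Nat.add (Nat.shiftLeft j R) (Nat.mod ph (Nat.pow (nat_lit 2) R)))
    (Nat.shiftLeft P (Nat.mul (nat_lit 3) R)))
  (Nat.sub T q) (Nat.pow (nat_lit 27) b)

/-- residue of `M` modulo `2 ^ i`; `tv = X^2 % 32` -/
def r2 (q b j i Su kq W tv : ℕ) : ℕ :=
  Nat.mod (Nat.mul (Nat.add (Nat.mul (Nat.add (Nat.add (Nat.shiftLeft W q) kq) (Nat.mul (nat_lit 31) j))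
    (Nat.add (Nat.mul (nat_lit 3) tv) (nat_lit 31)))
    (Nat.mul (Nat.pow (nat_lit 3) b) Su)) (Nat.pow (nat_lit 11) (Nat.succ b))) (Nat.pow (nat_lit 2) i)

/-- `D` modulo `m` -/
def rD (q j kq z m : ℕ) : ℕ :=
  Nat.mod (Nat.add (Nat.add (Nat.shiftLeft z q) kq) (Nat.mul (Nat.pred m) j)) m

/-- `3 M` modulo 27 (modulo 9 if `g` is known modulo 9 only), `b ≥ 1`; `sh = (z + y) % 3` -/
def n27 (q b S3 Su g sh eta : ℕ) : ℕ :=
  Nat.add (Nat.add (Nat.mul g (Nat.add (nat_lit 26)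
    (Nat.mul (nat_lit 3) (cd (Nat.beq sh (nat_lit 0)) (nat_lit 0)
      (Nat.succ (Nat.mul (nat_lit 6) (Nat.mul eta sh))))))) Su)
    (cd (Nat.beq b (nat_lit 1))
      (Nat.mul (nat_lit 9) (Nat.add (Nat.add (Nat.mul g (Nat.mul g g))
        (Nat.mul (Nat.mul (nat_lit 2) (Nat.mul g g)) (Nat.mul sh (Nat.pow (nat_lit 2) q))))
        (Nat.mul (nat_lit 2) S3))) (nat_lit 0))

/-- `3 M` modulo 9, `b = 0` -/
def n9 (q S3 Su D sh kap : ℕ) : ℕ :=
  (fun l2 => Nat.add (Nat.add (Nat.mul D (Nat.add (Nat.add (nat_lit 8)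
      (cd (Nat.beq sh (nat_lit 0)) (nat_lit 0) (nat_lit 3)))
      (Nat.add (Nat.mul (Nat.mul (nat_lit 6) sh) (Nat.mul D (Nat.pow (nat_lit 2) q)))
        (Nat.mul l2 (Nat.mul D D))))) Su)
      (Nat.mul (nat_lit 8) (Nat.mul (Nat.mul l2 (nat_lit 7)) S3)))
    (Nat.mul (Nat.pow (nat_lit 4) (Nat.succ kap)) (Nat.pow (nat_lit 7) q))

/-- bit of the level table -/
def tabBit (slot i jj M2 M3 : ℕ) : Bool :=
  (fun a b => Nat.beq (bits slot (Nat.add (Nat.add (nat_lit 48) (Nat.mul (nat_lit 13) (Nat.pred a)))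
      (Nat.add (Nat.mul a (Nat.div (Nat.pred b) (nat_lit 2))) (Nat.add (Nat.mul M2 b) M3)))
      (nat_lit 1)) (nat_lit 1))
    (Nat.pow (nat_lit 2) i) (Nat.pow (nat_lit 3) jj)

/-- the three-adic part of the leaf check, `b = 0` -/
def leafZ (slot q j i jj Su S3 kq M2 y kap mz z : ℕ) : Bool :=
  cd (Nat.beq jj (nat_lit 0)) (tabBit slot i (nat_lit 0) M2 (nat_lit 0))
    (an (an (Nat.beq jj (nat_lit 1)) (Nat.ble (nat_lit 9) mz))
      (an (an (Nat.ble y (nat_lit 2)) (Nat.ble kap (nat_lit 2)))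
        (tabBit slot i (nat_lit 1) M2
          (Nat.div (Nat.mod (n9 q S3 Su (rD q j kq z (nat_lit 9)) (Nat.mod (Nat.add z y) (nat_lit 3)) kap)
            (nat_lit 9)) (nat_lit 3)))))

/-- the three-adic part of the leaf check, `b ≥ 1` -/
def leafB (slot q b j i jj Su S3 kq M2 y eta mz z : ℕ) : Bool :=
  (fun Pb m => an (an (Nat.ble m mz) (Nat.ble jj (nat_lit 2)))
    (an (cd (Nat.beq jj (nat_lit 0)) true (an (Nat.ble y (nat_lit 2))
        (cd (Nat.beq jj (nat_lit 1)) true (Nat.ble eta (nat_lit 2)))))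
      ((fun D => an (Nat.beq (Nat.mod D (Nat.mul (nat_lit 3) Pb)) (Nat.mul Pb (Nat.mod Su (nat_lit 3))))
        (tabBit slot i jj M2
          (Nat.mod (Nat.div (Nat.mod (n27 q b S3 Su (Nat.div D Pb) (Nat.mod (Nat.add z y) (nat_lit 3)) eta)
            (nat_lit 27)) (nat_lit 3)) (Nat.pow (nat_lit 3) jj))))
        (rD q j kq z m))))
    (Nat.pow (nat_lit 3) b) (Nat.pow (nat_lit 3) (Nat.add (Nat.succ b) jj))

/-- `2 ^ 1024 - 1` -/
def smask : ℕ := nat_lit 0xffffffffffffffffffffffffffffffffffffffffffffffffffffffffffffffffffffffffffffffffffffffffffffffffffffffffffffffffffffffffffffffffffffffffffffffffffffffffffffffffffffffffffffffffffffffffffffffffffffffffffffffffffffffffffffffffffffffffffffffffffffffffffffffff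

/-- the leaf check; `tok0` is the rest of the certificate -/
def leaf (DB n1 n2 T ph ms W tau y eta kap m0 z0 m1 z1 m2 z2 tok0 : ℕ) : Bool :=
  (fun tok =>
  (fun c q b i jj f j =>
    (fun slot => (fun Su S3 C16 kq mz z =>
      an (an (Nat.ble q T) (geo n1 n2 T ph q b j S3 C16))
      (an (an (Nat.ble i (cd (Nat.beq tau (nat_lit 3)) (nat_lit 2) (nat_lit 5)))
          (Nat.ble (Nat.pow (nat_lit 2) i) (Nat.shiftLeft ms q)))
      ((fun M2 => cd (Nat.beq b (nat_lit 0))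
          (leafZ slot q j i jj Su S3 kq M2 y kap mz z)
          (leafB slot q b j i jj Su S3 kq M2 y eta mz z))
        (r2 q b j i Su kq W (cd (Nat.beq tau (nat_lit 0)) (nat_lit 0)
          (cd (Nat.beq tau (nat_lit 1)) (nat_lit 4) (nat_lit 16)))))))
      (bits slot (nat_lit 0) (nat_lit 255)) (bits slot (nat_lit 8) (nat_lit 1048575))
      (bits slot (nat_lit 28) (nat_lit 1048575)) (Nat.shiftRight ph (Nat.sub T q))
      (cd (Nat.beq c (nat_lit 0)) m0 (cd (Nat.beq c (nat_lit 1)) m1 m2))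
      (cd (Nat.beq c (nat_lit 0)) z0 (cd (Nat.beq c (nat_lit 1)) z1 z2)))
    (Nat.land (Nat.shiftRight DB (Nat.shiftLeft f (nat_lit 10))) smask))
    (bits tok (nat_lit 4) (nat_lit 3)) (bits tok (nat_lit 6) (nat_lit 15))
    (bits tok (nat_lit 10) (nat_lit 15)) (bits tok (nat_lit 14) (nat_lit 7))
    (bits tok (nat_lit 17) (nat_lit 3)) (bits tok (nat_lit 19) (nat_lit 511))
    (bits tok (nat_lit 28) (nat_lit 4095)))
  (Nat.land tok0 (nat_lit 0xffffffffff))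

/-- The checker: `0` = failure, `r + 1` = success with rest `r` of the certificate.
Node types: `10` leaf, `0` split `N`, `1` split `X`, `2` bit of `W`, `3` tau, `4` y, `5` eta,
`6` kap, `7, 8, 9` digit of `z0, z1, z2`. -/
noncomputable def run (DB : ℕ) (fuel : ℕ) : ℕ → ℕ → ℕ → ℕ → ℕ → ℕ → ℕ → ℕ → ℕ → ℕ → ℕ → ℕ → ℕ → ℕ → ℕ → ℕ →
    ℕ → ℕ :=
  Nat.rec (motive := fun _ => ℕ → ℕ → ℕ → ℕ → ℕ → ℕ → ℕ → ℕ → ℕ → ℕ → ℕ → ℕ → ℕ → ℕ → ℕ → ℕ →
    ℕ → ℕ)
    (fun _ _ _ _ _ _ _ _ _ _ _ _ _ _ _ _ _ => nat_lit 0)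
    (fun _ ih n1 n2 T ph ms W tau y eta kap m0 z0 m1 z1 m2 z2 cert =>
      (fun t c =>
        cd (Nat.beq t (nat_lit 10))
          (cd (leaf DB n1 n2 T ph ms W tau y eta kap m0 z0 m1 z1 m2 z2 cert)
            (Nat.succ (Nat.shiftRight cert (nat_lit 40))) (nat_lit 0))
        (cd (Nat.beq t (nat_lit 0))
          ((fun md => bd (ih n1 md T ph ms W tau y eta kap m0 z0 m1 z1 m2 z2 c)
            (fun r => ih md n2 T ph ms W tau y eta kap m0 z0 m1 z1 m2 z2 r))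
            (Nat.shiftRight (Nat.add n1 n2) (nat_lit 1)))
        (cd (Nat.beq t (nat_lit 1))
          (bd (ih n1 n2 (Nat.succ T) (Nat.mul ph (nat_lit 2)) ms W tau y eta kap m0 z0 m1 z1 m2 z2 c)
            (fun r => ih n1 n2 (Nat.succ T) (Nat.succ (Nat.mul ph (nat_lit 2))) ms W tau y eta kap m0 z0 m1 z1 m2 z2 r))
        (cd (Nat.beq t (nat_lit 2))
          (bd (ih n1 n2 T ph (Nat.mul ms (nat_lit 2)) W tau y eta kap m0 z0 m1 z1 m2 z2 c)
            (fun r => ih n1 n2 T ph (Nat.mul ms (nat_lit 2)) (Nat.add W ms) tau y eta kap m0 z0 m1 z1 m2 z2 r))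
        (cd (Nat.beq t (nat_lit 3))
          (lp (nat_lit 3) (fun i r => ih n1 n2 T ph ms W i y eta kap m0 z0 m1 z1 m2 z2 r) c)
        (cd (Nat.beq t (nat_lit 4))
          (lp (nat_lit 3) (fun i r => ih n1 n2 T ph ms W tau i eta kap m0 z0 m1 z1 m2 z2 r) c)
        (cd (Nat.beq t (nat_lit 5))
          (lp (nat_lit 3) (fun i r => ih n1 n2 T ph ms W tau y i kap m0 z0 m1 z1 m2 z2 r) c)
        (cd (Nat.beq t (nat_lit 6))
          (lp (nat_lit 3) (fun i r => ih n1 n2 T ph ms W tau y eta i m0 z0 m1 z1 m2 z2 r) c)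
        (cd (Nat.beq t (nat_lit 7))
          (lp (nat_lit 3) (fun i r => ih n1 n2 T ph ms W tau y eta kap (Nat.mul m0 (nat_lit 3))
            (Nat.add z0 (Nat.mul i m0)) m1 z1 m2 z2 r) c)
        (cd (Nat.beq t (nat_lit 8))
          (lp (nat_lit 3) (fun i r => ih n1 n2 T ph ms W tau y eta kap m0 z0 (Nat.mul m1 (nat_lit 3))
            (Nat.add z1 (Nat.mul i m1)) m2 z2 r) c)
        (cd (Nat.beq t (nat_lit 9))
          (lp (nat_lit 3) (fun i r => ih n1 n2 T ph ms W tau y eta kap m0 z0 m1 z1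
            (Nat.mul m2 (nat_lit 3)) (Nat.add z2 (Nat.mul i m2)) r) c)
          (nat_lit 0))))))))))))
        (Nat.land cert (nat_lit 15)) (Nat.shiftRight cert (nat_lit 4)))
    fuel

/-- the check of a cell -/
noncomputable def cell (DB n1 n2 T ph cert : ℕ) : Bool :=
  Nat.beq (run DB (nat_lit 80) n1 n2 T ph (nat_lit 1) (nat_lit 0) (nat_lit 3) (nat_lit 3)
    (nat_lit 3) (nat_lit 3) (nat_lit 3) (nat_lit 0) (nat_lit 3) (nat_lit 1)
    (nat_lit 3) (nat_lit 2) cert) (nat_lit 1)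

end Pool.H94.Pol
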