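import Pool.Agent.H94.Pol.Sem

/-!
The quantities of an option `(q, b, u, j)`: `p = 2^(K-q) 3^b`, `x = X mod 2^(K-q+1) + 2^(K-q+1) j`,
`k = ⌊X / 2^(K-q+1)⌋`, so that `x = X - 2^(K-q+1) (k - j)`.
-/

namespace Pool.H94.Pol

/-- `p` -/
def pp (K q b : ℕ) : ℕ := 2 ^ (K - q) * 3 ^ b

/-- `x` -/
def xx (K X q j : ℕ) : ℕ := X % 2 ^ (K - q + 1) + 2 ^ (K - q + 1) * j

/-- `k` -/
def kk (K X q : ℕ) : ℕ := X / 2 ^ (K - q + 1)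

/-- `6 p M` -/
def TT (N K X q b j Su S3 : ℕ) : ℤ :=
  6 * (N : ℤ) - ((xx K X q j : ℤ) ^ 3 - xx K X q j)
    - 2 * ((pp K q b : ℤ) ^ 3 * S3 - pp K q b * Su)

lemma xx_eq (K X q j : ℕ) :
    (xx K X q j : ℤ) = X - 2 ^ (K - q + 1) * ((kk K X q : ℤ) - j) := by
  have h := Nat.div_add_mod X (2 ^ (K - q + 1))
  have h' : ((2 : ℤ) ^ (K - q + 1)) * (kk K X q : ℤ) + ((X % 2 ^ (K - q + 1) : ℕ) : ℤ) = X := by
    unfold kk; exact_mod_cast h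
  unfold xx
  push_cast
  push_cast at h'
  linear_combination h'

end Pool.H94.Pol
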