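import Pool.Agent.H94.Pol.Leaf
import Pool.Agent.H94.Pol.KerSound

/-!
Soundness of the covering tree.
-/

namespace Pool.H94.Pol

lemma Run_cd {b : Bool} {t e : ℕ} (h : cd b t e ≠ 0) :
    (b = true ∧ t ≠ 0) ∨ (b = false ∧ e ≠ 0) := by
  cases b
  · exact Or.inr ⟨rfl, h⟩
  · exact Or.inl ⟨rfl, h⟩

lemma Run_zero (DB n1 n2 T ph ms W tau y eta kap m0 z0 m1 z1 m2 z2 cert : ℕ) :
    run DB 0 n1 n2 T ph ms W tau y eta kap m0 z0 m1 z1 m2 z2 cert = 0 := rfl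

lemma Run_succ (DB fuel n1 n2 T ph ms W tau y eta kap m0 z0 m1 z1 m2 z2 cert : ℕ) :
    run DB (fuel + 1) n1 n2 T ph ms W tau y eta kap m0 z0 m1 z1 m2 z2 cert =
      (fun t c =>
        cd (Nat.beq t (nat_lit 10))
          (cd (leaf DB n1 n2 T ph ms W tau y eta kap m0 z0 m1 z1 m2 z2 cert)
            (Nat.succ (Nat.shiftRight cert (nat_lit 40))) (nat_lit 0))
        (cd (Nat.beq t (nat_lit 0))
          ((fun md => bd (run DB fuel n1 md T ph ms W tau y eta kap m0 z0 m1 z1 m2 z2 c)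
            (fun r => run DB fuel md n2 T ph ms W tau y eta kap m0 z0 m1 z1 m2 z2 r))
            (Nat.shiftRight (Nat.add n1 n2) (nat_lit 1)))
        (cd (Nat.beq t (nat_lit 1))
          (bd (run DB fuel n1 n2 (Nat.succ T) (Nat.mul ph (nat_lit 2)) ms W tau y eta kap m0 z0 m1 z1 m2 z2 c)
            (fun r => run DB fuel n1 n2 (Nat.succ T) (Nat.succ (Nat.mul ph (nat_lit 2))) ms W tau y eta kap m0 z0 m1 z1 m2 z2 r))
        (cd (Nat.beq t (nat_lit 2))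
          (bd (run DB fuel n1 n2 T ph (Nat.mul ms (nat_lit 2)) W tau y eta kap m0 z0 m1 z1 m2 z2 c)
            (fun r => run DB fuel n1 n2 T ph (Nat.mul ms (nat_lit 2)) (Nat.add W ms) tau y eta kap m0 z0 m1 z1 m2 z2 r))
        (cd (Nat.beq t (nat_lit 3))
          (lp (nat_lit 3) (fun i r => run DB fuel n1 n2 T ph ms W i y eta kap m0 z0 m1 z1 m2 z2 r) c)
        (cd (Nat.beq t (nat_lit 4))
          (lp (nat_lit 3) (fun i r => run DB fuel n1 n2 T ph ms W tau i eta kap m0 z0 m1 z1 m2 z2 r) c)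
        (cd (Nat.beq t (nat_lit 5))
          (lp (nat_lit 3) (fun i r => run DB fuel n1 n2 T ph ms W tau y i kap m0 z0 m1 z1 m2 z2 r) c)
        (cd (Nat.beq t (nat_lit 6))
          (lp (nat_lit 3) (fun i r => run DB fuel n1 n2 T ph ms W tau y eta i m0 z0 m1 z1 m2 z2 r) c)
        (cd (Nat.beq t (nat_lit 7))
          (lp (nat_lit 3) (fun i r => run DB fuel n1 n2 T ph ms W tau y eta kap (Nat.mul m0 (nat_lit 3))
            (Nat.add z0 (Nat.mul i m0)) m1 z1 m2 z2 r) c)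
        (cd (Nat.beq t (nat_lit 8))
          (lp (nat_lit 3) (fun i r => run DB fuel n1 n2 T ph ms W tau y eta kap m0 z0 (Nat.mul m1 (nat_lit 3))
            (Nat.add z1 (Nat.mul i m1)) m2 z2 r) c)
        (cd (Nat.beq t (nat_lit 9))
          (lp (nat_lit 3) (fun i r => run DB fuel n1 n2 T ph ms W tau y eta kap m0 z0 m1 z1
            (Nat.mul m2 (nat_lit 3)) (Nat.add z2 (Nat.mul i m2)) r) c)
          (nat_lit 0))))))))))))
        (Nat.land cert (nat_lit 15)) (Nat.shiftRight cert (nat_lit 4)) := rfl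

lemma Run_mod (z m : ℕ) : z % (m * 3) = z % m + z / m % 3 * m := by
  rw [Nat.mod_mul, Nat.mul_comm m]

lemma Run_mod2 {z m z' : ℕ} (h : z % m = z') :
    z % (Nat.mul m 3) = Nat.add z' (Nat.mul (z / m % 3) m) := by
  show z % (m * 3) = z' + z / m % 3 * m
  rw [Run_mod, h]

lemma Run_pow3 {m : ℕ} (h : ∃ d, m = 3 ^ d) : ∃ d, Nat.mul m 3 = 3 ^ d := by
  obtain ⟨d, hd⟩ := h
  exact ⟨d + 1, by show m * 3 = _; rw [hd, pow_succ]⟩

lemma Run_tau {X : ℕ} (h : X % 2 = 0) : ∃ i, i < 3 ∧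
    (i = 3 ∨ (i = 0 ∧ X ^ 2 % 32 = 0) ∨ (i = 1 ∧ X ^ 2 % 32 = 4) ∨ (i = 2 ∧ X ^ 2 % 32 = 16)) := by
  obtain ⟨k, rfl⟩ : ∃ k, X = 2 * k := ⟨X / 2, by omega⟩
  have h1 : (2 * k) ^ 2 % 32 = 4 * (k ^ 2 % 8) := by
    rw [mul_pow]
    omega
  have h2 : k ^ 2 % 8 = 0 ∨ k ^ 2 % 8 = 1 ∨ k ^ 2 % 8 = 4 := by
    rw [Nat.pow_mod]
    have : k % 8 < 8 := Nat.mod_lt _ (by norm_num)
    interval_cases k % 8 <;> simp
  rcases h2 with h2 | h2 | h2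
  · exact ⟨0, by norm_num, Or.inr (Or.inl ⟨rfl, by rw [h1, h2]⟩)⟩
  · exact ⟨1, by norm_num, Or.inr (Or.inr (Or.inl ⟨rfl, by rw [h1, h2]⟩))⟩
  · exact ⟨2, by norm_num, Or.inr (Or.inr (Or.inr ⟨rfl, by rw [h1, h2]⟩))⟩

lemma Run_bit {W ms W' : ℕ} (h : W % ms = W') :
    W % (Nat.mul ms 2) = W' ∨ W % (Nat.mul ms 2) = Nat.add W' ms := by
  have h1 : W % (ms * 2) = W % ms + ms * (W / ms % 2) := Nat.mod_mul
  rcases Nat.mod_two_eq_zero_or_one (W / ms) with h2 | h2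
  · left
    show W % (ms * 2) = W'
    rw [h1, h2, h]
    simp
  · right
    show W % (ms * 2) = W' + ms
    rw [h1, h2, h]
    simp

theorem run_sound {DB N K X W yv w0 w1 w2 : ℕ} (hDB : DBOK DB) (he : Env N K X W yv w0 w1 w2) :
    ∀ fuel n1 n2 T ph ms W' tau y eta kap m0 z0 m1 z1 m2 z2 cert : ℕ,
      InSt N K X W yv w0 w1 w2 n1 n2 T ph ms W' tau y eta kap m0 z0 m1 z1 m2 z2 →
      run DB fuel n1 n2 T ph ms W' tau y eta kap m0 z0 m1 z1 m2 z2 cert ≠ 0 → Rep7 N := by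
  intro fuel
  induction fuel with
  | zero =>
    intro n1 n2 T ph ms W' tau y eta kap m0 z0 m1 z1 m2 z2 cert _ h
    exact absurd (Run_zero _ _ _ _ _ _ _ _ _ _ _ _ _ _ _ _ _ _) h
  | succ fuel ih =>
    intro n1 n2 T ph ms W' tau y eta kap m0 z0 m1 z1 m2 z2 cert hs h
    rw [Run_succ] at h
    beta_reduce at h
    rcases Run_cd h with ⟨_, h⟩ | ⟨_, h⟩
    · rcases Run_cd h with ⟨hl, _⟩ | ⟨_, h0⟩
      · exact leaf_sound hDB he hs hl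
      · exact absurd rfl h0
    rcases Run_cd h with ⟨_, h⟩ | ⟨_, h⟩
    · obtain ⟨m, h1, h2⟩ := bd_ne_zero h
      rcases le_total (N * 2 ^ 24) ((Nat.shiftRight (Nat.add n1 n2) 1) * 8 ^ K) with hle | hle
      · exact ih _ _ _ _ _ _ _ _ _ _ _ _ _ _ _ _ _ { hs with hn2 := hle }
          (ne_of_eq_of_ne h1 (Nat.succ_ne_zero m))
      · exact ih _ _ _ _ _ _ _ _ _ _ _ _ _ _ _ _ _ { hs with hn1 := hle } h2
    rcases Run_cd h with ⟨_, h⟩ | ⟨_, h⟩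
    · obtain ⟨m, h1, h2⟩ := bd_ne_zero h
      have hp1 := hs.hp1
      have hp2 := hs.hp2
      rcases Nat.lt_or_ge (X * 2 ^ (T + 1)) ((ph * 2 + 1) * 2 ^ (K + 1)) with hle | hle
      · refine ih _ _ _ _ _ _ _ _ _ _ _ _ _ _ _ _ _ { hs with hp1 := ?_, hp2 := hle }
          (ne_of_eq_of_ne h1 (Nat.succ_ne_zero m))
        show ph * 2 * 2 ^ (K + 1) ≤ X * 2 ^ (T + 1)
        rw [pow_succ 2 T]
        nlinarith
      · refine ih _ _ _ _ _ _ _ _ _ _ _ _ _ _ _ _ _ { hs with hp1 := hle, hp2 := ?_ } h2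
        show X * 2 ^ (T + 1) < (ph * 2 + 1 + 1) * 2 ^ (K + 1)
        rw [pow_succ 2 T]
        nlinarith
    rcases Run_cd h with ⟨_, h⟩ | ⟨_, h⟩
    · obtain ⟨m, h1, h2⟩ := bd_ne_zero h
      have hms : ∃ s, Nat.mul ms 2 = 2 ^ s := by
        obtain ⟨s, hs'⟩ := hs.hms
        exact ⟨s + 1, by show ms * 2 = _; rw [hs', pow_succ]⟩
      rcases Run_bit hs.hW with hW | hW
      · exact ih _ _ _ _ _ _ _ _ _ _ _ _ _ _ _ _ _ { hs with hms := hms, hW := hW }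
          (ne_of_eq_of_ne h1 (Nat.succ_ne_zero m))
      · exact ih _ _ _ _ _ _ _ _ _ _ _ _ _ _ _ _ _ { hs with hms := hms, hW := hW } h2
    rcases Run_cd h with ⟨_, h⟩ | ⟨_, h⟩
    · obtain ⟨i, hi, htau⟩ := Run_tau he.hev
      obtain ⟨r, hr⟩ := lp_ne_zero h i hi
      exact ih _ _ _ _ _ _ _ _ _ _ _ _ _ _ _ _ _ { hs with htau := htau } hr
    rcases Run_cd h with ⟨_, h⟩ | ⟨_, h⟩
    · obtain ⟨r, hr⟩ := lp_ne_zero h (yv % 3) (Nat.mod_lt _ (by norm_num))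
      exact ih _ _ _ _ _ _ _ _ _ _ _ _ _ _ _ _ _ { hs with hy := Or.inr rfl } hr
    rcases Run_cd h with ⟨_, h⟩ | ⟨_, h⟩
    · obtain ⟨r, hr⟩ := lp_ne_zero h (N * 2 ^ (K + 1) % 3) (Nat.mod_lt _ (by norm_num))
      exact ih _ _ _ _ _ _ _ _ _ _ _ _ _ _ _ _ _ { hs with heta := Or.inr rfl } hr
    rcases Run_cd h with ⟨_, h⟩ | ⟨_, h⟩
    · obtain ⟨r, hr⟩ := lp_ne_zero h (K % 3) (Nat.mod_lt _ (by norm_num))
      exact ih _ _ _ _ _ _ _ _ _ _ _ _ _ _ _ _ _ { hs with hkap := Or.inr rfl } hr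
    rcases Run_cd h with ⟨_, h⟩ | ⟨_, h⟩
    · obtain ⟨r, hr⟩ := lp_ne_zero h (w0 / m0 % 3) (Nat.mod_lt _ (by norm_num))
      exact ih _ _ _ _ _ _ _ _ _ _ _ _ _ _ _ _ _
        { hs with hm0 := Run_pow3 hs.hm0, hz0 := Run_mod2 hs.hz0 } hr
    rcases Run_cd h with ⟨_, h⟩ | ⟨_, h⟩
    · obtain ⟨r, hr⟩ := lp_ne_zero h (w1 / m1 % 3) (Nat.mod_lt _ (by norm_num))
      exact ih _ _ _ _ _ _ _ _ _ _ _ _ _ _ _ _ _
        { hs with hm1 := Run_pow3 hs.hm1, hz1 := Run_mod2 hs.hz1 } hr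
    rcases Run_cd h with ⟨_, h⟩ | ⟨_, h⟩
    · obtain ⟨r, hr⟩ := lp_ne_zero h (w2 / m2 % 3) (Nat.mod_lt _ (by norm_num))
      exact ih _ _ _ _ _ _ _ _ _ _ _ _ _ _ _ _ _
        { hs with hm2 := Run_pow3 hs.hm2, hz2 := Run_mod2 hs.hz2 } hr
    · exact absurd rfl h

theorem cell_sound {DB N K X W yv w0 w1 w2 n1 n2 T ph cert : ℕ} (hDB : DBOK DB)
    (he : Env N K X W yv w0 w1 w2) (h0 : w0 % 3 = 0) (h1 : w1 % 3 = 1) (h2 : w2 % 3 = 2)
    (hn1 : n1 * 8 ^ K ≤ N * 2 ^ 24) (hn2 : N * 2 ^ 24 ≤ n2 * 8 ^ K)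
    (hp1 : ph * 2 ^ (K + 1) ≤ X * 2 ^ T) (hp2 : X * 2 ^ T < (ph + 1) * 2 ^ (K + 1))
    (h : cell DB n1 n2 T ph cert = true) : Rep7 N := by
  unfold cell at h
  have h' := Nat.eq_of_beq_eq_true h
  refine run_sound hDB he (nat_lit 80) n1 n2 T ph (nat_lit 1) (nat_lit 0) (nat_lit 3) (nat_lit 3)
    (nat_lit 3) (nat_lit 3) (nat_lit 3) (nat_lit 0) (nat_lit 3) (nat_lit 1)
    (nat_lit 3) (nat_lit 2) cert ?_ (by rw [h']; exact Nat.one_ne_zero)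
  exact
    { hn1 := hn1
      hn2 := hn2
      hp1 := hp1
      hp2 := hp2
      hms := ⟨0, rfl⟩
      hW := Nat.mod_one W
      htau := Or.inl rfl
      hy := Or.inl rfl
      heta := Or.inl rfl
      hkap := Or.inl rfl
      hm0 := ⟨1, rfl⟩
      hz0 := h0
      hm1 := ⟨1, rfl⟩
      hz1 := h1
      hm2 := ⟨1, rfl⟩
      hz2 := h2 }

end Pool.H94.Pol
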