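import Pool.Agent.H94.Pol.Basic
import Pool.Agent.H94.Pol.C2Def
import Pool.Agent.H94.Pol.MainDef

/-!
Semantic predicates for the checkers.
-/

namespace Pool.H94.Pol

/-- `M` is represented by the diagonal form `(u1, u2, u3)` -/
def Rep (u1 u2 u3 M : ℕ) : Prop :=
  ∃ a1 a2 a3 : ℤ, u1 * a1 ^ 2 + u2 * a2 ^ 2 + u3 * a3 ^ 2 = M

/-- `M` is represented by the diagonal form `(u1, u2, u3)` with `|a_c| ≤ p u_c` -/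
def BoxRep (u1 u2 u3 M p : ℕ) : Prop :=
  ∃ a1 a2 a3 : ℤ, u1 * a1 ^ 2 + u2 * a2 ^ 2 + u3 * a3 ^ 2 = M ∧
    |a1| ≤ p * u1 ∧ |a2| ≤ p * u2 ∧ |a3| ≤ p * u3

/-- the class of `M` modulo 32 and 9 is in the table -/
def TblBit (tbl M : ℕ) : Prop := bits tbl (9 * (M % 32) + M % 9) 1 = 1

/-- every `M` with class in the table is represented -/
def T1 (u1 u2 u3 tbl : ℕ) : Prop := ∀ M, TblBit tbl M → Rep u1 u2 u3 M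

/-- every represented `M ≤ (C16 / 16) p^2` with class in the table is represented in the box -/
def T2 (u1 u2 u3 C16 tbl : ℕ) : Prop :=
  ∀ M p, TblBit tbl M → 16 * M ≤ C16 * p ^ 2 → Rep u1 u2 u3 M → BoxRep u1 u2 u3 M p

/-- the same for solutions in the region number `i` (`(i1, i2, i3)` is the indicator) -/
def Fam (u1 u2 u3 C16 i1 i2 i3 ui tbl : ℕ) : Prop :=
  ∀ (M p : ℕ) (a1 a2 a3 : ℤ), TblBit tbl M → 16 * M ≤ C16 * p ^ 2 → 0 ≤ a1 → 0 ≤ a2 → 0 ≤ a3 →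
    u1 * a1 ^ 2 + u2 * a2 ^ 2 + u3 * a3 ^ 2 = (M : ℤ) →
    (ui * p : ℤ) ≤ i1 * a1 + i2 * a2 + i3 * a3 → BoxRep u1 u2 u3 M p

/-- a coset `c = (mM, rM, ...)` all of whose members are represented -/
def CosOK (u1 u2 u3 : ℕ) (c : ℕ × ℕ × ℕ × ℕ) : Prop :=
  288 % c.1 = 0 → ∀ M, M % c.1 = c.2.1 → Rep u1 u2 u3 M

/-- a coset of a family -/
def CosF (u1 u2 u3 C16 i1 i2 i3 ui : ℕ) (c : ℕ × ℕ × ℕ) : Prop :=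
  288 % c.1 = 0 → ∀ (M p : ℕ) (a1 a2 a3 : ℤ), M % c.1 = c.2.1 → 16 * M ≤ C16 * p ^ 2 →
    0 ≤ a1 → 0 ≤ a2 → 0 ≤ a3 → u1 * a1 ^ 2 + u2 * a2 ^ 2 + u3 * a3 ^ 2 = (M : ℤ) →
    (ui * p : ℤ) ≤ i1 * a1 + i2 * a2 + i3 * a3 → BoxRep u1 u2 u3 M p

/-- a correct slot of the data base -/
def SlotOK (s : ℕ) : Prop :=
  ∃ u1 u2 u3 : ℕ, bits s 0 255 = u1 + u2 + u3 ∧ bits s 8 1048575 = u1 ^ 3 + u2 ^ 3 + u3 ^ 3 ∧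
    ∀ i jj M p : ℕ, i ≤ 5 → jj ≤ 2 → tabBit s i jj (M % 2 ^ i) (M % 3 ^ jj) = true →
      16 * M ≤ bits s 28 1048575 * p ^ 2 → BoxRep u1 u2 u3 M p

/-- a correct data base -/
def DBOK (DB : ℕ) : Prop := ∀ f, SlotOK (DB >>> (1024 * f))

/-- the two-adic root and the three-adic roots of `e^3 - e = 6 N`, in terms of the digits -/
structure Env (N K X W yv z0 z1 z2 : ℕ) : Prop where
  hK : 20 ≤ K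
  hN : N < 8 ^ (K + 1)
  hX : X < 2 ^ (K + 1)
  hev : X % 2 = 0
  hE : (2 : ℤ) ^ (K + 11) ∣ ((X : ℤ) + 2 ^ (K + 1) * W) ^ 3 - ((X : ℤ) + 2 ^ (K + 1) * W) - 6 * N
  hy : (3 : ℤ) ∣ (X : ℤ) - 2 ^ (K + 1) * yv
  h0 : (3 : ℤ) ^ 20 ∣ ((X : ℤ) + 2 ^ (K + 1) * z0) ^ 3 - ((X : ℤ) + 2 ^ (K + 1) * z0) - 6 * N
  h1 : (3 : ℤ) ^ 20 ∣ ((X : ℤ) + 2 ^ (K + 1) * z1) ^ 3 - ((X : ℤ) + 2 ^ (K + 1) * z1) - 6 * N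
  h2 : (3 : ℤ) ^ 20 ∣ ((X : ℤ) + 2 ^ (K + 1) * z2) ^ 3 - ((X : ℤ) + 2 ^ (K + 1) * z2) - 6 * N

/-- the data belong to the state -/
structure InSt (N K X W yv z0 z1 z2 n1 n2 T ph ms W' tau y eta kap m0 z0' m1 z1' m2 z2' : ℕ) :
    Prop where
  hn1 : n1 * 8 ^ K ≤ N * 2 ^ 24
  hn2 : N * 2 ^ 24 ≤ n2 * 8 ^ K
  hp1 : ph * 2 ^ (K + 1) ≤ X * 2 ^ T
  hp2 : X * 2 ^ T < (ph + 1) * 2 ^ (K + 1)
  hms : ∃ s, ms = 2 ^ s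
  hW : W % ms = W'
  htau : tau = 3 ∨ (tau = 0 ∧ X ^ 2 % 32 = 0) ∨ (tau = 1 ∧ X ^ 2 % 32 = 4) ∨
    (tau = 2 ∧ X ^ 2 % 32 = 16)
  hy : y = 3 ∨ yv % 3 = y
  heta : eta = 3 ∨ N * 2 ^ (K + 1) % 3 = eta
  hkap : kap = 3 ∨ K % 3 = kap
  hm0 : ∃ d, m0 = 3 ^ d
  hz0 : z0 % m0 = z0'
  hm1 : ∃ d, m1 = 3 ^ d
  hz1 : z1 % m1 = z1'
  hm2 : ∃ d, m2 = 3 ^ d
  hz2 : z2 % m2 = z2'

end Pool.H94.Pol
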