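import Pool.Agent.H94.Pol.C2Sound

/-!
Slots of the data base: the level tables are consistent with a base table `tbl` (288 bits).
-/

namespace Pool.H94.Pol

/-- the level table `(i, jj)` of the slot -/
def lvl (s i jj : ℕ) : ℕ :=
  (fun a b => bits s (Nat.add (Nat.add (nat_lit 48) (Nat.mul (nat_lit 13) (Nat.pred a)))
      (Nat.mul a (Nat.div (Nat.pred b) (nat_lit 2))))
    (Nat.pred (Nat.pow (nat_lit 2) (Nat.mul a b))))
    (Nat.pow (nat_lit 2) i) (Nat.pow (nat_lit 3) jj)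

/-- `x ⊆ y` as bit sets -/
def sbs (x y : ℕ) : Bool := Nat.beq (Nat.land x y) x

/-- level `(i, jj)` is contained in both halves of level `(i + 1, jj)` -/
def half (s i jj : ℕ) : Bool :=
  (fun w => an (sbs (lvl s i jj) (lvl s (Nat.succ i) jj))
    (sbs (lvl s i jj) (Nat.shiftRight (lvl s (Nat.succ i) jj) w)))
    (Nat.mul (Nat.pow (nat_lit 2) i) (Nat.pow (nat_lit 3) jj))

/-- level `(5, jj)` and level `(5, jj + 1)`: a bit implies its three lifts -/
noncomputable def third (s jj : ℕ) : Bool :=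
  Nat.rec (motive := fun _ => Bool) true
    (fun x ih => an ih (Nat.rec (motive := fun _ => Bool) true
      (fun y ih2 => an ih2 (cd (tabBit s (nat_lit 5) jj x y)
        (an (tabBit s (nat_lit 5) (Nat.succ jj) x y)
          (an (tabBit s (nat_lit 5) (Nat.succ jj) x (Nat.add y (Nat.pow (nat_lit 3) jj)))
            (tabBit s (nat_lit 5) (Nat.succ jj) x (Nat.add y (Nat.mul (nat_lit 2) (Nat.pow (nat_lit 3) jj))))))
        true)) (Nat.pow (nat_lit 3) jj))) (nat_lit 32)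

/-- all level tables are consistent with `tbl` -/
noncomputable def lvOK (s tbl : ℕ) : Bool :=
  an (sbs (lvl s (nat_lit 5) (nat_lit 2)) tbl)
  (an (an (third s (nat_lit 0)) (third s (nat_lit 1)))
    (Nat.rec (motive := fun _ => Bool) true
      (fun i ih => an ih (an (half s i (nat_lit 0)) (an (half s i (nat_lit 1)) (half s i (nat_lit 2)))))
      (nat_lit 5)))

lemma slot_bits_one (x off : ℕ) : bits x off 1 = 1 ↔ x.testBit off = true := by
  unfold bits
  rw [Nat.testBit_eq_decide_div_mod_eq, decide_eq_true_eq]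
  change (x >>> off) &&& 1 = 1 ↔ _
  rw [Nat.and_one_is_mod, Nat.shiftRight_eq_div_pow]

/-- the offset of a level table -/
def ofs (i jj : ℕ) : ℕ := 48 + 13 * (2 ^ i - 1) + 2 ^ i * ((3 ^ jj - 1) / 2)

lemma slot_tabBit (s i jj x y : ℕ) :
    tabBit s i jj x y = true ↔ s.testBit (ofs i jj + (x * 3 ^ jj + y)) = true := by
  have h : tabBit s i jj x y =
      Nat.beq (bits s (48 + 13 * (2 ^ i - 1) + (2 ^ i * ((3 ^ jj - 1) / 2) + (x * 3 ^ jj + y))) 1) 1 :=
    rfl
  rw [h, Nat.beq_eq, slot_bits_one]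
  have e : 48 + 13 * (2 ^ i - 1) + (2 ^ i * ((3 ^ jj - 1) / 2) + (x * 3 ^ jj + y)) =
      ofs i jj + (x * 3 ^ jj + y) := by unfold ofs; ring
  rw [e]

lemma slot_lvl (s i jj k : ℕ) : (lvl s i jj).testBit k = true ↔
    k < 2 ^ i * 3 ^ jj ∧ s.testBit (ofs i jj + k) = true := by
  have h : lvl s i jj = (s >>> (ofs i jj)) &&& (2 ^ (2 ^ i * 3 ^ jj) - 1) := rfl
  rw [h, Nat.testBit_and, Nat.testBit_shiftRight, Nat.testBit_two_pow_sub_one]
  simp [and_comm]

lemma slot_sbs {x y : ℕ} (h : sbs x y = true) (k : ℕ) (hk : x.testBit k = true) :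
    y.testBit k = true := by
  unfold sbs at h
  rw [Nat.beq_eq] at h
  have h1 : (x &&& y) = x := h
  rw [← h1, Nat.testBit_and] at hk
  simp at hk
  exact hk.2

lemma slot_rec {f : ℕ → Bool} {n : ℕ}
    (h : Nat.rec (motive := fun _ => Bool) true (fun i ih => an ih (f i)) n = true) :
    ∀ i < n, f i = true := by
  induction n with
  | zero => intro i hi; omega
  | succ n ih =>
    have h1 : an (Nat.rec (motive := fun _ => Bool) true (fun i ih => an ih (f i)) n) (f n) = true := h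
    rw [an_eq_true] at h1
    intro i hi
    rcases Nat.lt_succ_iff_lt_or_eq.1 hi with h2 | h2
    · exact ih h1.1 i h2
    · rw [h2]; exact h1.2

lemma slot_half {s i jj M : ℕ} (h : half s i jj = true)
    (hb : tabBit s i jj (M % 2 ^ i) (M % 3 ^ jj) = true) :
    tabBit s (i + 1) jj (M % 2 ^ (i + 1)) (M % 3 ^ jj) = true := by
  have h' : an (sbs (lvl s i jj) (lvl s (i + 1) jj))
    (sbs (lvl s i jj) ((lvl s (i + 1) jj) >>> (2 ^ i * 3 ^ jj))) = true := h
  rw [an_eq_true] at h'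
  rw [slot_tabBit] at hb ⊢
  have h2 : M % 2 ^ i < 2 ^ i := Nat.mod_lt _ (by positivity)
  have h3 : M % 3 ^ jj < 3 ^ jj := Nat.mod_lt _ (by positivity)
  have hlt : M % 2 ^ i * 3 ^ jj + M % 3 ^ jj < 2 ^ i * 3 ^ jj := by
    have h4 : (M % 2 ^ i + 1) * 3 ^ jj ≤ 2 ^ i * 3 ^ jj := Nat.mul_le_mul_right _ h2
    rw [Nat.add_mul, one_mul] at h4
    omega
  have hl : (lvl s i jj).testBit (M % 2 ^ i * 3 ^ jj + M % 3 ^ jj) = true :=
    (slot_lvl _ _ _ _).2 ⟨hlt, hb⟩
  have a1 := slot_sbs h'.1 _ hl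
  have a2 := slot_sbs h'.2 _ hl
  rw [slot_lvl] at a1
  rw [Nat.testBit_shiftRight, slot_lvl] at a2
  have hM : M % 2 ^ (i + 1) = M % 2 ^ i ∨ M % 2 ^ (i + 1) = M % 2 ^ i + 2 ^ i := by
    have e1 : M % 2 ^ (i + 1) % 2 ^ i = M % 2 ^ i :=
      Nat.mod_mod_of_dvd _ (pow_dvd_pow 2 (Nat.le_succ i))
    have e2 : M % 2 ^ (i + 1) < 2 ^ (i + 1) := Nat.mod_lt _ (by positivity)
    have e3 := Nat.div_add_mod (M % 2 ^ (i + 1)) (2 ^ i)
    rw [e1] at e3
    have e4 : M % 2 ^ (i + 1) / 2 ^ i < 2 := by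
      rw [Nat.div_lt_iff_lt_mul (by positivity)]
      have e5 : 2 ^ (i + 1) = 2 ^ i * 2 := pow_succ 2 i
      linarith
    rcases Nat.lt_succ_iff_lt_or_eq.1 e4 with e5 | e5
    · left
      have e6 : M % 2 ^ (i + 1) / 2 ^ i = 0 := Nat.lt_one_iff.1 e5
      rw [e6, mul_zero] at e3
      omega
    · right
      rw [e5, mul_one] at e3
      omega
  rcases hM with e | e
  · rw [e]; exact a1.2
  · rw [e]
    have := a2.2
    have e' : ofs (i + 1) jj + ((M % 2 ^ i + 2 ^ i) * 3 ^ jj + M % 3 ^ jj) =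
      ofs (i + 1) jj + (2 ^ i * 3 ^ jj + (M % 2 ^ i * 3 ^ jj + M % 3 ^ jj)) := by ring
    rw [e']; exact this

lemma slot_third {s jj M : ℕ} (h : third s jj = true)
    (hb : tabBit s 5 jj (M % 2 ^ 5) (M % 3 ^ jj) = true) :
    tabBit s 5 (jj + 1) (M % 2 ^ 5) (M % 3 ^ (jj + 1)) = true := by
  have h1 := slot_rec (n := 32) (f := fun x => Nat.rec (motive := fun _ => Bool) true
      (fun y ih2 => an ih2 (cd (tabBit s (nat_lit 5) jj x y)
        (an (tabBit s (nat_lit 5) (Nat.succ jj) x y)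
          (an (tabBit s (nat_lit 5) (Nat.succ jj) x (Nat.add y (Nat.pow (nat_lit 3) jj)))
            (tabBit s (nat_lit 5) (Nat.succ jj) x (Nat.add y (Nat.mul (nat_lit 2) (Nat.pow (nat_lit 3) jj))))))
        true)) (Nat.pow (nat_lit 3) jj)) h (M % 2 ^ 5) (Nat.mod_lt _ (by norm_num))
  have h3 : M % 3 ^ jj < 3 ^ jj := Nat.mod_lt _ (by positivity)
  have h2 := slot_rec (n := 3 ^ jj) (f := fun y => cd (tabBit s (nat_lit 5) jj (M % 2 ^ 5) y)
        (an (tabBit s (nat_lit 5) (Nat.succ jj) (M % 2 ^ 5) y)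
          (an (tabBit s (nat_lit 5) (Nat.succ jj) (M % 2 ^ 5) (Nat.add y (Nat.pow (nat_lit 3) jj)))
            (tabBit s (nat_lit 5) (Nat.succ jj) (M % 2 ^ 5) (Nat.add y (Nat.mul (nat_lit 2) (Nat.pow (nat_lit 3) jj))))))
        true) h1 (M % 3 ^ jj) h3
  change cd (tabBit s 5 jj (M % 2 ^ 5) (M % 3 ^ jj))
        (an (tabBit s 5 (jj + 1) (M % 2 ^ 5) (M % 3 ^ jj))
          (an (tabBit s 5 (jj + 1) (M % 2 ^ 5) (M % 3 ^ jj + 3 ^ jj))
            (tabBit s 5 (jj + 1) (M % 2 ^ 5) (M % 3 ^ jj + 2 * 3 ^ jj)))) true = true at h2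
  rw [hb, cd_true, an_eq_true, an_eq_true] at h2
  obtain ⟨b0, b1, b2⟩ := h2
  have e1 : M % 3 ^ (jj + 1) % 3 ^ jj = M % 3 ^ jj :=
    Nat.mod_mod_of_dvd _ (pow_dvd_pow 3 (Nat.le_succ jj))
  have e2 : M % 3 ^ (jj + 1) < 3 ^ (jj + 1) := Nat.mod_lt _ (by positivity)
  have e3 := Nat.div_add_mod (M % 3 ^ (jj + 1)) (3 ^ jj)
  rw [e1] at e3
  have e4 : M % 3 ^ (jj + 1) / 3 ^ jj < 3 := by
    rw [Nat.div_lt_iff_lt_mul (by positivity)]
    have e5 : 3 ^ (jj + 1) = 3 ^ jj * 3 := pow_succ 3 jj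
    linarith
  have e5 : ∀ q : ℕ, q < 3 → q = 0 ∨ q = 1 ∨ q = 2 := by intro q hq; omega
  rcases e5 _ e4 with e | e | e
  · rw [e, mul_zero] at e3
    have : M % 3 ^ (jj + 1) = M % 3 ^ jj := by omega
    rw [this]; exact b0
  · rw [e, mul_one] at e3
    have : M % 3 ^ (jj + 1) = M % 3 ^ jj + 3 ^ jj := by omega
    rw [this]; exact b1
  · rw [e] at e3
    have : M % 3 ^ (jj + 1) = M % 3 ^ jj + 2 * 3 ^ jj := by omega
    rw [this]; exact b2

lemma slot_up {s jj M : ℕ} (h : ∀ i < 5, half s i jj = true) :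
    ∀ k i : ℕ, i + k = 5 → tabBit s i jj (M % 2 ^ i) (M % 3 ^ jj) = true →
      tabBit s 5 jj (M % 2 ^ 5) (M % 3 ^ jj) = true := by
  intro k
  induction k with
  | zero =>
    intro i hi hb
    have : i = 5 := by omega
    subst this
    exact hb
  | succ k ih =>
    intro i hi hb
    exact ih (i + 1) (by omega) (slot_half (h i (by omega)) hb)

theorem lvOK_sound {s tbl : ℕ} (h : lvOK s tbl = true) {i jj M : ℕ} (hi : i ≤ 5) (hjj : jj ≤ 2)
    (hb : tabBit s i jj (M % 2 ^ i) (M % 3 ^ jj) = true) : TblBit tbl M := by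
  unfold lvOK at h
  rw [an_eq_true, an_eq_true, an_eq_true] at h
  obtain ⟨h1, ⟨h2, h3⟩, h4⟩ := h
  have h5 := slot_rec (n := 5)
    (f := fun i => an (half s i (nat_lit 0)) (an (half s i (nat_lit 1)) (half s i (nat_lit 2)))) h4
  have h6 : ∀ i < 5, half s i 0 = true ∧ half s i 1 = true ∧ half s i 2 = true := by
    intro i hi
    have := h5 i hi
    simp only [an_eq_true] at this
    exact this
  have h7 : tabBit s 5 jj (M % 2 ^ 5) (M % 3 ^ jj) = true := by
    refine slot_up ?_ (5 - i) i (by omega) hb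
    intro i hi
    interval_cases jj
    · exact (h6 i hi).1
    · exact (h6 i hi).2.1
    · exact (h6 i hi).2.2
  have h8 : tabBit s 5 2 (M % 2 ^ 5) (M % 3 ^ 2) = true := by
    interval_cases jj
    · exact slot_third h3 (slot_third h2 h7)
    · exact slot_third h3 h7
    · exact h7
  rw [slot_tabBit] at h8
  have h9 : M % 2 ^ 5 < 2 ^ 5 := Nat.mod_lt _ (by positivity)
  have h10 : M % 3 ^ 2 < 3 ^ 2 := Nat.mod_lt _ (by positivity)
  have h11 := slot_sbs h1 (M % 2 ^ 5 * 3 ^ 2 + M % 3 ^ 2)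
    ((slot_lvl _ _ _ _).2 ⟨by norm_num at h9 h10 ⊢; omega, h8⟩)
  unfold TblBit
  rw [slot_bits_one]
  have e : 9 * (M % 32) + M % 9 = M % 2 ^ 5 * 3 ^ 2 + M % 3 ^ 2 := by norm_num; omega
  rw [e]
  exact h11

theorem TblBit_land {x y M : ℕ} (h : TblBit (Nat.land x y) M) : TblBit x M ∧ TblBit y M := by
  unfold TblBit at h ⊢
  rw [slot_bits_one] at h ⊢
  rw [slot_bits_one]
  have h1 : (x &&& y).testBit (9 * (M % 32) + M % 9) = true := h
  rw [Nat.testBit_and, Bool.and_eq_true] at h1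
  exact h1

theorem slot_of {s u1 u2 u3 C16 t1 t2 : ℕ} (h1 : bits s 0 255 = u1 + u2 + u3)
    (h2 : bits s 8 1048575 = u1 ^ 3 + u2 ^ 3 + u3 ^ 3) (h3 : bits s 28 1048575 = C16)
    (hT1 : T1 u1 u2 u3 t1) (hT2 : T2 u1 u2 u3 C16 t2) (h : lvOK s (Nat.land t1 t2) = true) :
    SlotOK s := by
  refine ⟨u1, u2, u3, h1, h2, ?_⟩
  intro i jj M p hi hjj hb hM
  have h4 := TblBit_land (lvOK_sound h hi hjj hb)
  rw [h3] at hM
  exact hT2 M p h4.2 hM (hT1 M h4.1)

/-- a data base from its slots -/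
def dbOf : List ℕ → ℕ
  | [] => 0
  | s :: L => s + 2 ^ 1024 * dbOf L

lemma slot_testBit {s r k : ℕ} (hk : k < 1024) :
    (s + 2 ^ 1024 * r).testBit k = s.testBit k := by
  have h1 : (s + 2 ^ 1024 * r) % 2 ^ 1024 = s % 2 ^ 1024 := by
    rw [Nat.add_mul_mod_self_left]
  have h2 := Nat.testBit_mod_two_pow (s + 2 ^ 1024 * r) 1024 k
  have h3 := Nat.testBit_mod_two_pow s 1024 k
  rw [h1, h3] at h2
  simpa [hk] using h2.symm

lemma slot_bits {s r off w : ℕ} (hk : off + w ≤ 1024) :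
    bits (s + 2 ^ 1024 * r) off (2 ^ w - 1) = bits s off (2 ^ w - 1) := by
  apply Nat.eq_of_testBit_eq
  intro k
  change (((s + 2 ^ 1024 * r) >>> off) &&& (2 ^ w - 1)).testBit k =
    ((s >>> off) &&& (2 ^ w - 1)).testBit k
  rw [Nat.testBit_and, Nat.testBit_and, Nat.testBit_shiftRight, Nat.testBit_shiftRight,
    Nat.testBit_two_pow_sub_one]
  by_cases h : k < w
  · rw [slot_testBit (by omega)]
  · simp [h]

lemma slot_ok_add {s r : ℕ} (h : SlotOK s) : SlotOK (s + 2 ^ 1024 * r) := by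
  obtain ⟨u1, u2, u3, h1, h2, h3⟩ := h
  have e1 : bits (s + 2 ^ 1024 * r) 0 255 = bits s 0 255 :=
    slot_bits (s := s) (r := r) (off := 0) (w := 8) (by norm_num)
  have e2 : bits (s + 2 ^ 1024 * r) 8 1048575 = bits s 8 1048575 :=
    slot_bits (s := s) (r := r) (off := 8) (w := 20) (by norm_num)
  have e3 : bits (s + 2 ^ 1024 * r) 28 1048575 = bits s 28 1048575 :=
    slot_bits (s := s) (r := r) (off := 28) (w := 20) (by norm_num)
  refine ⟨u1, u2, u3, e1.trans h1, e2.trans h2, ?_⟩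
  intro i jj M p hi hjj hb hM
  rw [e3] at hM
  refine h3 i jj M p hi hjj ?_ hM
  rw [slot_tabBit] at hb ⊢
  rw [slot_testBit] at hb
  · exact hb
  · have h4 : M % 2 ^ i < 2 ^ i := Nat.mod_lt _ (by positivity)
    have h5 : M % 3 ^ jj < 3 ^ jj := Nat.mod_lt _ (by positivity)
    have h6 : 2 ^ i ≤ 2 ^ 5 := Nat.pow_le_pow_right (by norm_num) hi
    unfold ofs
    interval_cases jj <;> norm_num at h4 h5 h6 ⊢ <;> omega

theorem dbOf_ok {L : List ℕ} (h : ∀ s ∈ L, s < 2 ^ 1024 ∧ SlotOK s) : DBOK (dbOf L) := by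
  induction L with
  | nil =>
    intro f
    have e : dbOf [] >>> (1024 * f) = 0 := by
      unfold dbOf
      exact Nat.zero_shiftRight _
    rw [e]
    refine ⟨0, 0, 0, rfl, rfl, ?_⟩
    intro i jj M p _ _ hb
    rw [slot_tabBit] at hb
    simp at hb
  | cons s L ih =>
    intro f
    obtain ⟨h1, h2⟩ := h s (List.mem_cons_self ..)
    cases f with
    | zero =>
      have e : dbOf (s :: L) >>> (1024 * 0) = s + 2 ^ 1024 * dbOf L := by
        rw [mul_zero, Nat.shiftRight_zero]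
        rfl
      rw [e]
      exact slot_ok_add h2
    | succ f =>
      have e : dbOf (s :: L) >>> (1024 * (f + 1)) = dbOf L >>> (1024 * f) := by
        have e1 : 1024 * (f + 1) = 1024 + 1024 * f := by ring
        rw [e1, Nat.shiftRight_add]
        congr 1
        have e2 : dbOf (s :: L) = s + 2 ^ 1024 * dbOf L := rfl
        rw [e2, Nat.shiftRight_eq_div_pow, Nat.add_mul_div_left _ _ (by positivity),
          Nat.div_eq_of_lt h1, zero_add]
      rw [e]
      exact ih (fun s hs => h s (List.mem_cons_of_mem _ hs)) f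

end Pool.H94.Pol
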