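import Pool.Agent.H94.Pol.Opt

/-!
Two-adic part. Put `H = 2^(K-q+1)`, `E = X + 2^(K+1) W`, `D = 2^q W + k - j`: `E - x = H D`,
`TT = (6 N - (E^3 - E)) + H D (E^2 + E x + x^2 - 1) - 2 p^3 S3 + 2 p Su`, `2 p = H 3^b`,
`E^2 + E x + x^2 - 1 ≡ 3 X^2 - 1 (mod 32)` since `x ≡ E ≡ X (mod 32)` and all are even.
Dividing by `H`: `3^(b+1) M ≡ D (3 X^2 - 1) + 3^b Su (mod 32)` (`p^2 ≡ 0 (mod 32)`), and
`3 * 11 ≡ 1 (mod 32)`.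
-/

namespace Pool.H94.Pol

lemma two_aux {N K X W q b j Su S3 : ℕ} (hK : 20 ≤ K) (hq : q ≤ 15)
    (hE : (2 : ℤ) ^ (K + 11) ∣ ((X : ℤ) + 2 ^ (K + 1) * W) ^ 3 - ((X : ℤ) + 2 ^ (K + 1) * W) - 6 * N) :
    ∃ t : ℤ, TT N K X q b j Su S3 = (2 : ℤ) ^ (K - q + 1) *
      (((2 : ℤ) ^ q * W + kk K X q - j) * (3 * X ^ 2 - 1) + 3 ^ b * Su + 32 * t) := by
  obtain ⟨c, hc⟩ := hE
  obtain ⟨L, hL⟩ : ∃ L, K = L + 5 + q := ⟨K - q - 5, by omega⟩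
  have e1 : K - q + 1 = L + 6 := by omega
  have e2 : K - q = L + 5 := by omega
  have hx := xx_eq K X q j
  set x : ℤ := (xx K X q j : ℤ) with hxd
  set k : ℤ := (kk K X q : ℤ) with hkd
  have hp : (pp K q b : ℤ) = 2 ^ (L + 5) * 3 ^ b := by
    unfold pp
    rw [e2]
    push_cast
    ring
  unfold TT
  rw [← hxd, hp]
  rw [e1] at hx ⊢
  have e3 : (2 : ℤ) ^ (K + 1) = 64 * 2 ^ L * 2 ^ q := by
    rw [hL]
    ring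
  have e4 : (2 : ℤ) ^ (K + 11) = 64 * 2 ^ L * 2 ^ q * 1024 := by
    rw [hL]
    ring
  have e5 : (2 : ℤ) ^ (L + 6) = 64 * 2 ^ L := by ring
  have e6 : (2 : ℤ) ^ (L + 5) = 32 * 2 ^ L := by ring
  rw [e3, e4] at hc
  rw [e5] at hx ⊢
  rw [e6]
  set P : ℤ := 2 ^ L
  set Q : ℤ := 2 ^ q
  set B : ℤ := 3 ^ b
  set D : ℤ := Q * W + k - j with hD
  -- E = X + 64 P Q W, x = X - 64 P (k - j), E - x = 64 P D
  refine ⟨-(32 * Q * c) + D * (2 * P * (X * (2 * Q * W) + X * (Q * W) - 2 * X * (k - j) - X * (k - j)) +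
    128 * P ^ 2 * ((Q * W) ^ 2 - (Q * W) * (k - j) + (k - j) ^ 2)) - B * (32 * P ^ 2 * B ^ 2 * S3), ?_⟩
  rw [hx]
  have h6 : (6 : ℤ) * N = ((X : ℤ) + 64 * P * Q * W) ^ 3 - ((X : ℤ) + 64 * P * Q * W) -
      64 * P * Q * 1024 * c := by linear_combination (-1 : ℤ) * hc
  rw [h6, hD]
  ring

theorem two_dvd {N K X W q b j Su S3 : ℕ} (hK : 20 ≤ K) (hq : q ≤ 15) (hev : X % 2 = 0)
    (hE : (2 : ℤ) ^ (K + 11) ∣ ((X : ℤ) + 2 ^ (K + 1) * W) ^ 3 - ((X : ℤ) + 2 ^ (K + 1) * W) - 6 * N) :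
    (2 : ℤ) ^ (K - q + 1) ∣ TT N K X q b j Su S3 := by
  obtain ⟨t, ht⟩ := two_aux (b := b) (j := j) (Su := Su) (S3 := S3) hK hq hE
  rw [ht]
  exact Dvd.intro _ rfl

lemma r2_eq (q b j i Su kq W tv : ℕ) :
    r2 q b j i Su kq W tv =
      (((W * 2 ^ q + kq + 31 * j) * (3 * tv + 31) + 3 ^ b * Su) * 11 ^ (b + 1)) % 2 ^ i := by
  unfold r2
  change Nat.mod (Nat.mul (Nat.add (Nat.mul (Nat.add (Nat.add (W <<< q) kq) _) _) _) _) _ = _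
  rw [Nat.shiftLeft_eq]
  rfl

theorem two_res {N K X W q b j Su S3 : ℕ} (hK : 20 ≤ K) (hq : q ≤ 15) (hev : X % 2 = 0)
    (hE : (2 : ℤ) ^ (K + 11) ∣ ((X : ℤ) + 2 ^ (K + 1) * W) ^ 3 - ((X : ℤ) + 2 ^ (K + 1) * W) - 6 * N)
    {M : ℤ} (hM : TT N K X q b j Su S3 = 6 * pp K q b * M) :
    M ≡ (r2 q b j 5 Su (kk K X q) W (X ^ 2 % 32) : ℕ) [ZMOD 32] := by
  obtain ⟨t, ht⟩ := two_aux (b := b) (j := j) (Su := Su) (S3 := S3) hK hq hE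
  have h1 : (3 : ℤ) ^ (b + 1) * M = ((2 : ℤ) ^ q * W + kk K X q - j) * (3 * X ^ 2 - 1) +
      3 ^ b * Su + 32 * t := by
    have h2 : (2 : ℤ) ^ (K - q + 1) ≠ 0 := by positivity
    refine mul_left_cancel₀ h2 ?_
    rw [← ht, hM]
    unfold pp
    push_cast
    ring
  rw [r2_eq]
  have h32 : (2 : ℕ) ^ 5 = 32 := by norm_num
  rw [h32]
  rw [Int.natCast_mod]
  refine Int.ModEq.trans ?_ (Int.mod_modEq _ _).symm
  push_cast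
  have h3 : M ≡ 11 ^ (b + 1) * (3 ^ (b + 1) * M) [ZMOD 32] := by
    have h4 : (11 : ℤ) ^ (b + 1) * (3 ^ (b + 1) * M) = 33 ^ (b + 1) * M := by
      rw [← mul_assoc, ← mul_pow]
      norm_num
    rw [h4]
    have h5 : (33 : ℤ) ^ (b + 1) ≡ 1 ^ (b + 1) [ZMOD 32] := Int.ModEq.pow _ (by decide)
    have h6 := h5.mul_right M
    rw [one_pow, one_mul] at h6
    exact h6.symm
  refine h3.trans ?_
  rw [h1, mul_comm]
  refine Int.ModEq.mul_right _ ?_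
  have hX : ((X : ℤ) ^ 2 % 32) ≡ (X : ℤ) ^ 2 [ZMOD 32] := Int.mod_modEq _ _
  have a1 : (2 : ℤ) ^ q * W + kk K X q - j ≡ (W : ℤ) * 2 ^ q + kk K X q + 31 * j [ZMOD 32] := by
    refine (Int.modEq_iff_dvd).2 ⟨j, by ring⟩
  have a2 : 3 * (X : ℤ) ^ 2 - 1 ≡ 3 * ((X : ℤ) ^ 2 % 32) + 31 [ZMOD 32] := by
    have a3 : 3 * ((X : ℤ) ^ 2 % 32) + 31 ≡ 3 * (X : ℤ) ^ 2 + 31 [ZMOD 32] :=
      (hX.mul_left 3).add_right 31
    refine Int.ModEq.trans ?_ a3.symm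
    exact (Int.modEq_iff_dvd).2 ⟨1, by ring⟩
  have a4 := (a1.mul a2).add_right ((3 : ℤ) ^ b * Su)
  refine Int.ModEq.trans ?_ a4
  exact (Int.modEq_iff_dvd).2 ⟨-t, by ring⟩

/-- `r2` with partial information: `i ≤ 5`, `W` modulo `ms` where `2^i ∣ ms 2^q`, and for `i ≤ 2`
an arbitrary value `16` instead of `X^2 % 32` (both `3 tv + 31` are `3` modulo `4`). -/
theorem r2_partial {X W q b j i Su kq ms : ℕ} (hi : i ≤ 5) (hev : X % 2 = 0)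
    (hms : 2 ^ i ∣ ms * 2 ^ q) (tv : ℕ) (htv : X ^ 2 % 32 = tv ∨ (i ≤ 2 ∧ tv = 16)) :
    r2 q b j 5 Su kq W (X ^ 2 % 32) % 2 ^ i = r2 q b j i Su kq (W % ms) tv := by
  rw [r2_eq, r2_eq, Nat.mod_mod_of_dvd _ (pow_dvd_pow 2 hi)]
  have a1 : W * 2 ^ q + kq + 31 * j ≡ W % ms * 2 ^ q + kq + 31 * j [MOD 2 ^ i] := by
    refine Nat.ModEq.add_right _ (Nat.ModEq.add_right _ ?_)
    have h1 : W % ms * 2 ^ q ≡ W * 2 ^ q [MOD ms * 2 ^ q] :=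
      Nat.ModEq.mul_right' _ (Nat.mod_modEq _ _)
    exact (h1.of_dvd hms).symm
  have a2 : 3 * (X ^ 2 % 32) + 31 ≡ 3 * tv + 31 [MOD 2 ^ i] := by
    rcases htv with h | ⟨h, h'⟩
    · rw [h]
    · have h4 : 3 * (X ^ 2 % 32) + 31 ≡ 3 * tv + 31 [MOD 4] := by
        obtain ⟨y, hy⟩ : ∃ y, X = 2 * y := ⟨X / 2, by omega⟩
        have e1 : X ^ 2 = 4 * y ^ 2 := by rw [hy]; ring
        rw [e1, h']
        unfold Nat.ModEq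
        omega
      have e2 : 2 ^ i ∣ 4 := by
        have : (2 : ℕ) ^ i ∣ 2 ^ 2 := pow_dvd_pow 2 h
        simpa using this
      exact h4.of_dvd e2
  exact (((a1.mul a2).add_right (3 ^ b * Su)).mul_right (11 ^ (b + 1)))

end Pool.H94.Pol
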